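import Pool.Agent.N197.QF.Fin2

/-!
# Project QF: families with monodromy in the symplectic groups
-/

set_option autoImplicit false

open Module Matrix

namespace Pool.Agent.N197.QF

section family

variable {k I Γ Γ' : Type} [Field k] [Fintype I] [DecidableEq I] [Group Γ] [Group Γ']

/-- the subgroup which multiplies the form by the power of the character -/
def stabM (ρ : Γ →* Matrix I I k) (χ : Γ →* k) (a : ℕ) (c : ℤ)
    (f : MultilinearMap k (fun _ : Fin a => I → k) k) : Subgroup Γ where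
  carrier := {s | ∀ u, f (fun i => ρ s *ᵥ u i) = χ s ^ c * f u}
  one_mem' := fun u => by
    rw [map_one, map_one, _root_.one_zpow, one_mul]
    congr 1
    funext i
    exact Matrix.one_mulVec _
  mul_mem' := fun {s t} hs ht u => by
    have h1 : (fun i => ρ (s * t) *ᵥ u i) = fun i => ρ s *ᵥ ((fun i => ρ t *ᵥ u i) i) := by
      funext i
      rw [map_mul, Matrix.mulVec_mulVec]
    rw [h1, hs, ht, map_mul, _root_.mul_zpow, mul_assoc]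
  inv_mem' := fun {s} hs u => by
    have h1 := hs (fun i => ρ s⁻¹ *ᵥ u i)
    have h2 : (fun i => ρ s *ᵥ ((fun i => ρ s⁻¹ *ᵥ u i) i)) = u := by
      funext i
      show ρ s *ᵥ (ρ s⁻¹ *ᵥ u i) = u i
      rw [Matrix.mulVec_mulVec, ← map_mul, mul_inv_cancel, map_one, Matrix.one_mulVec]
    rw [h2] at h1
    have h3 : χ s⁻¹ ^ c * χ s ^ c = 1 := by
      rw [← _root_.mul_zpow, ← map_mul, inv_mul_cancel, map_one, _root_.one_zpow]
    rw [h1, ← mul_assoc, h3, one_mul]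

/-- Tate tensors extend to the family. -/
theorem tate_family (ρ : Γ →* Matrix I I k) (χ : Γ →* k) (ρ' : Γ' →* Matrix I I k) (χ' : Γ' →* k)
    (s : Γ →* Γ') (P : Subgroup Γ') (hnormal : P.Normal) (hgen : ∀ g : Γ', ∃ γ : Γ, g * (s γ)⁻¹ ∈ P)
    (hrep : ∀ γ, ρ' (s γ) = ρ γ) (hcyc : ∀ γ, χ' (s γ) = χ γ) (hgeo : ∀ g ∈ P, χ' g = 1)
    {a : ℕ} {c : ℤ} (f : MultilinearMap k (fun _ : Fin a => I → k) k)
    (hf : ∃ Δ : Subgroup Γ, Δ.FiniteIndex ∧ ∀ s ∈ Δ, ∀ u, f (fun i => ρ s *ᵥ u i) = χ s ^ c * f u)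
    (hm : ∃ P₁ : Subgroup P, P₁.FiniteIndex ∧
      ∀ g ∈ P₁, ∀ u, f (fun i => ρ' (g : Γ') *ᵥ u i) = f u) :
    ∃ Δ : Subgroup Γ', Δ.FiniteIndex ∧
      ∀ s ∈ Δ, ∀ u, f (fun i => ρ' s *ᵥ u i) = χ' s ^ c * f u := by
  classical
  obtain ⟨Δ, hΔ, hΔφ⟩ := hf
  obtain ⟨P₁, hP₁, hP₁φ⟩ := hm
  have h1 : ∀ δ ∈ Δ, s δ ∈ stabM ρ' χ' a c f := by
    intro δ hδ v
    have h2 := hΔφ δ hδ v
    rw [hcyc, hrep]
    exact h2
  have h2 : ∀ q ∈ P₁, (q : Γ') ∈ stabM ρ' χ' a c f := by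
    intro q hq v
    rw [hP₁φ q hq v, hgeo q q.2, _root_.one_zpow, one_mul]
  have hsur : Function.Surjective fun x : (Γ ⧸ Δ) × (P ⧸ P₁) =>
      (QuotientGroup.mk (s x.1.out * (x.2.out : P)) : Γ' ⧸ stabM ρ' χ' a c f) := by
    intro c'
    obtain ⟨g, rfl⟩ := QuotientGroup.mk_surjective c'
    obtain ⟨γ, hγ⟩ := hgen g
    let γ₁ : Γ := (QuotientGroup.mk γ : Γ ⧸ Δ).out
    have hδ : γ₁⁻¹ * γ ∈ Δ := QuotientGroup.eq.1 (QuotientGroup.out_eq' _)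
    have hp : s γ₁⁻¹ * (g * (s γ)⁻¹) * (s γ₁⁻¹)⁻¹ ∈ P := hnormal.conj_mem _ hγ _
    let p' : P := ⟨_, hp⟩
    let p₁ : P := (QuotientGroup.mk p' : P ⧸ P₁).out
    have hq : p₁⁻¹ * p' ∈ P₁ := QuotientGroup.eq.1 (QuotientGroup.out_eq' _)
    refine ⟨(QuotientGroup.mk γ, QuotientGroup.mk p'), ?_⟩
    refine QuotientGroup.eq.2 ?_
    change (s γ₁ * (p₁ : Γ'))⁻¹ * g ∈ _
    have h3 : (s γ₁ * (p₁ : Γ'))⁻¹ * g = ((p₁⁻¹ * p' : P) : Γ') * s (γ₁⁻¹ * γ) := by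
      have h4 : (p' : Γ') = s γ₁⁻¹ * (g * (s γ)⁻¹) * (s γ₁⁻¹)⁻¹ := rfl
      rw [Subgroup.coe_mul, Subgroup.coe_inv, h4, map_mul, map_inv]
      group
    rw [h3]
    exact mul_mem (h2 _ hq) (h1 _ hδ)
  have hfin : Finite (Γ' ⧸ stabM ρ' χ' a c f) := Finite.of_surjective _ hsur
  exact ⟨stabM ρ' χ' a c f, Subgroup.finiteIndex_of_finite_quotient, fun g hg v => hg v⟩

/-- Tate tensors of the family restrict. -/
theorem tate_restrict (ρ : Γ →* Matrix I I k) (χ : Γ →* k) (ρ' : Γ' →* Matrix I I k) (χ' : Γ' →* k)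
    (s : Γ →* Γ') (hrep : ∀ γ, ρ' (s γ) = ρ γ) (hcyc : ∀ γ, χ' (s γ) = χ γ)
    {a : ℕ} {c : ℤ} (f : MultilinearMap k (fun _ : Fin a => I → k) k)
    (hf : ∃ Δ : Subgroup Γ', Δ.FiniteIndex ∧
      ∀ s ∈ Δ, ∀ u, f (fun i => ρ' s *ᵥ u i) = χ' s ^ c * f u) :
    ∃ Δ : Subgroup Γ, Δ.FiniteIndex ∧ ∀ s ∈ Δ, ∀ u, f (fun i => ρ s *ᵥ u i) = χ s ^ c * f u := by
  obtain ⟨Δ, hΔ, h⟩ := hf
  refine ⟨Δ.comap s, ⟨by
    rw [Subgroup.index_comap]
    exact (Subgroup.instFiniteIndex_subgroupOf Δ s.range).index_ne_zero⟩, fun g hg v => ?_⟩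
  have h1 := h (s g) hg v
  rw [hrep, hcyc] at h1
  exact h1

end family

section complex

variable {n : ℕ} {F : Type} [Field F]

theorem skewF (J : Matrix (Fin n) (Fin n) F) (hJ : Jᵀ = -J) (u : Fin n → F) :
    (vecMulVec u (u ᵥ* J))ᵀ * J + J * vecMulVec u (u ᵥ* J) = 0 := by
  have h1 : J *ᵥ u = -(u ᵥ* J) := by
    rw [← vecMul_transpose, hJ, vecMul_neg]
  rw [transpose_vecMulVec, vecMulVec_mul, mul_vecMulVec, h1, neg_vecMulVec, add_neg_cancel]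

theorem eigF (J T : Matrix (Fin n) (Fin n) F) (hJ0 : J.det ≠ 0)
    (h : ∀ u : Fin n → F, T * vecMulVec u (u ᵥ* J) = vecMulVec u (u ᵥ* J) * T) (u : Fin n → F) :
    ∃ c : F, T *ᵥ u = c • u := by
  by_cases hu : u = 0
  · exact ⟨0, by rw [hu, mulVec_zero, smul_zero]⟩
  · have hw : u ᵥ* J ≠ 0 := by
      intro h0
      exact hu (eq_zero_of_vecMul_eq_zero hJ0 h0)
    obtain ⟨j, hj⟩ : ∃ j, (u ᵥ* J) j ≠ 0 := Function.ne_iff.1 hw
    have h1 := h u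
    rw [mul_vecMulVec, vecMulVec_mul] at h1
    refine ⟨((u ᵥ* J) ᵥ* T) j / (u ᵥ* J) j, ?_⟩
    funext i
    have h2 := congrFun (congrFun h1 i) j
    rw [vecMulVec_apply, vecMulVec_apply] at h2
    rw [Pi.smul_apply, smul_eq_mul, div_mul_eq_mul_div, eq_div_iff hj, h2, mul_comm]

/-- the symplectic Lie algebra does not commute with a complex structure -/
theorem not_complex (hn : 0 < n) (J : Matrix (Fin n) (Fin n) ℚ) (hJ : Jᵀ = -J) (hJ0 : J.det ≠ 0)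
    (C : Matrix (Fin n) (Fin n) ℝ) (hC : C * C = -1) :
    ∃ Z : Matrix (Fin n) (Fin n) ℚ, Zᵀ * J + J * Z = 0 ∧
      Z.map (Rat.castHom ℝ) * C ≠ C * Z.map (Rat.castHom ℝ) := by
  by_contra hcon
  push Not at hcon
  have hJ1 : (J.map (Rat.castHom ℝ))ᵀ = -J.map (Rat.castHom ℝ) := by
    have h1 : (J.map (Rat.castHom ℝ))ᵀ = Jᵀ.map (Rat.castHom ℝ) := rfl
    rw [h1, hJ]
    exact Matrix.ext fun i j => map_neg (Rat.castHom ℝ) (J i j)
  have hJ2 : (J.map (Rat.castHom ℝ)).det ≠ 0 := by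
    have h1 : (J.map (Rat.castHom ℝ)).det = Rat.castHom ℝ J.det :=
      (RingHom.map_det (Rat.castHom ℝ) J).symm
    rw [h1]
    exact (_root_.map_ne_zero _).2 hJ0
  have hall : ∀ Z : Matrix (Fin n) (Fin n) ℝ,
      Zᵀ * J.map (Rat.castHom ℝ) + J.map (Rat.castHom ℝ) * Z = 0 → C * Z = Z * C := by
    intro Z hZ
    have h1 := t_BC ℝ n J Z hZ
    clear hZ
    induction h1 using Submodule.span_induction with
    | mem x hx =>
      obtain ⟨z, hz, rfl⟩ := hx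
      exact (hcon z hz).symm
    | zero => rw [Matrix.mul_zero, Matrix.zero_mul]
    | add x y _ _ hx hy => rw [Matrix.mul_add, Matrix.add_mul, hx, hy]
    | smul c x _ hx => rw [Matrix.mul_smul, Matrix.smul_mul, hx]
  obtain ⟨c, hc⟩ := eigF (J.map (Rat.castHom ℝ)) C hJ2
    (fun u => hall _ (skewF _ hJ1 u)) (Pi.single ⟨0, hn⟩ 1)
  have h2 : (C * C) *ᵥ Pi.single (⟨0, hn⟩ : Fin n) (1 : ℝ) = (c * c) • Pi.single ⟨0, hn⟩ 1 := by
    rw [← Matrix.mulVec_mulVec, hc, Matrix.mulVec_smul, hc, smul_smul]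
  rw [hC, Matrix.neg_mulVec, Matrix.one_mulVec] at h2
  have h3 := congrFun h2 ⟨0, hn⟩
  rw [Pi.neg_apply, Pi.smul_apply, Pi.single_eq_same, smul_eq_mul, mul_one] at h3
  nlinarith [mul_self_nonneg c]

end complex

end Pool.Agent.N197.QF
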