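import Pool.Agent.N197.QF.Stm2

/-!
# QF/ALT: alternatization (helper135 for helper197)
-/

set_option autoImplicit false

namespace Pool.Agent.N197.QF

theorem t_ALT : S_ALT := by
  intro k _ V M _ _ _ _ a κ _ _ e f
  obtain ⟨g, hg⟩ : ∃ g : MultilinearMap k (fun _ : κ => Fin a → V) M,
      ∀ w, g w = f fun i => w (e.symm i) i := by
    refine ⟨(f.domDomCongr e.symm).compLinearMap fun l => LinearMap.proj (e l), fun w => ?_⟩
    rw [MultilinearMap.compLinearMap_apply, MultilinearMap.domDomCongr_apply]
    congr 1
    funext i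
    rw [LinearMap.proj_apply, Equiv.apply_symm_apply]
  have hF : ∀ v : κ → Fin a → V, MultilinearMap.alternatization g v =
      ∑ s : Equiv.Perm κ, ((Equiv.Perm.sign s : ℤ) : k) • f fun i => v (s (e.symm i)) i := by
    intro v
    rw [MultilinearMap.alternatization_apply]
    refine Finset.sum_congr rfl fun s _ => ?_
    rw [MultilinearMap.domDomCongr_apply, hg, Int.cast_smul_eq_zsmul, Units.smul_def]
  refine ⟨MultilinearMap.alternatization g, hF, fun x => ?_⟩
  rw [hF, Finset.sum_eq_single 1]
  · rw [Equiv.Perm.sign_one, Units.val_one, Int.cast_one, one_smul]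
    congr 1
    funext i
    rw [Equiv.Perm.one_apply, Equiv.apply_symm_apply, Pi.single_eq_same]
  · intro s _ hs
    obtain ⟨l, hl⟩ : ∃ l, s l ≠ l := by
      by_contra h
      push Not at h
      exact hs (Equiv.ext h)
    rw [f.map_coord_zero (e l), smul_zero]
    rw [Equiv.symm_apply_apply]
    exact Pi.single_eq_of_ne (fun h => hl (e.injective h).symm) _
  · intro h
    exact absurd (Finset.mem_univ _) h

end Pool.Agent.N197.QF
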