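import Pool.Agent.N197.QF.Stm2

/-!
# Task BC: rational solutions of the symplectic Lie algebra equation
-/

set_option autoImplicit false

open Module Matrix

namespace Pool.Agent.N197.QF

/-- the coordinate of a product with a rational number -/
theorem bc_coord {k : Type} [Field k] [CharZero k] {ι : Type} (b : Module.Basis ι ℚ k) (t : ι)
    (x : k) (q : ℚ) : b.repr (x * Rat.castHom k q) t = b.repr x t * q := by
  have h : x * Rat.castHom k q = q • x := by
    rw [Algebra.smul_def, mul_comm]
    rfl
  rw [h, map_smul, Finsupp.smul_apply, smul_eq_mul, mul_comm]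

/-- task BC -/
theorem t_BC : S_BC := by
  intro k _ _ n J Z hZ
  obtain ⟨ι, b⟩ : ∃ ι : Type, Nonempty (Module.Basis ι ℚ k) :=
    ⟨_, ⟨Module.Basis.ofVectorSpace ℚ k⟩⟩
  obtain ⟨b⟩ := b
  classical
  let T : Finset ι := Finset.univ.biUnion fun p : Fin n × Fin n => (b.repr (Z p.1 p.2)).support
  let z : ι → Matrix (Fin n) (Fin n) ℚ := fun t => Matrix.of fun i j => b.repr (Z i j) t
  have key : ∀ t, (z t)ᵀ * J + J * z t = 0 := by
    intro t
    ext i j
    have h := congrFun (congrFun hZ i) j
    simp only [Matrix.add_apply, Matrix.mul_apply, Matrix.transpose_apply, Matrix.map_apply,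
      Matrix.zero_apply] at h ⊢
    have h2 := congrArg (fun x => b.repr x t) h
    simp only [map_add, map_sum, Finsupp.add_apply, Finsupp.finsetSum_apply, map_zero,
      Finsupp.zero_apply] at h2
    rw [← h2]
    congr 1
    · refine Finset.sum_congr rfl fun l _ => ?_
      exact (bc_coord b t _ _).symm
    · refine Finset.sum_congr rfl fun l _ => ?_
      rw [mul_comm (Rat.castHom k (J i l)) (Z l j), bc_coord, mul_comm]
      rfl
  have hsum : Z = ∑ t ∈ T, b t • (z t).map (Rat.castHom k) := by
    ext i j
    rw [Matrix.sum_apply]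
    have h1 : Z i j = ∑ t ∈ T, b.repr (Z i j) t • b t := by
      conv_lhs => rw [← b.linearCombination_repr (Z i j), Finsupp.linearCombination_apply]
      refine Finsupp.sum_of_support_subset _ ?_ _ fun t _ => zero_smul _ _
      intro t ht
      exact Finset.mem_biUnion.2 ⟨(i, j), Finset.mem_univ _, ht⟩
    conv_lhs => rw [h1]
    refine Finset.sum_congr rfl fun t _ => ?_
    rw [Matrix.smul_apply, Matrix.map_apply, Algebra.smul_def, smul_eq_mul, mul_comm]
    rfl
  rw [hsum]
  exact Submodule.sum_mem _ fun t _ =>
    Submodule.smul_mem _ _ (Submodule.subset_span ⟨z t, key t, rfl⟩)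

end Pool.Agent.N197.QF
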