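import Pool.Agent.N197.QF.Stm2

/-!
# Project QF (helper197): task CONV
-/

set_option autoImplicit false

open Module

namespace Pool.Agent.N197.QF

/-- a bilinear form as a multilinear form in two variables -/
def convBilin {k M : Type} [Field k] [AddCommGroup M] [Module k M] (B : M →ₗ[k] M →ₗ[k] k) :
    MultilinearMap k (fun _ : Fin 2 => M) k :=
  MultilinearMap.mk' (fun u => B (u 0) (u 1))
    (by
      intro m i x y
      fin_cases i <;> simp)
    (by
      intro m i c x
      fin_cases i <;> simp)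

theorem convBilin_apply {k M : Type} [Field k] [AddCommGroup M] [Module k M]
    (B : M →ₗ[k] M →ₗ[k] k) (u : Fin 2 → M) : convBilin B u = B (u 0) (u 1) := rfl

theorem conv_two {k V G : Type} [Field k] [AddCommGroup V] [Module k V] [Group G]
    {ρ : Representation k G V} {χ : G →* k} {T : Module.End k V} (hT : InLie ρ χ T) (c : ℤ)
    (B : V →ₗ[k] V →ₗ[k] k)
    (hB : ∃ Δ : Subgroup G, Δ.FiniteIndex ∧ ∀ s ∈ Δ, ∀ x y, B (ρ s x) (ρ s y) = χ s ^ c * B x y)
    (x y : V) : B (T x) y + B x (T y) = 0 := by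
  obtain ⟨Δ, hΔ, h⟩ := hB
  have := hT 2 c (convBilin B) ⟨Δ, hΔ, fun s hs u => by
    simp only [convBilin_apply]
    exact h s hs _ _⟩ ![x, y]
  simpa [Fin.sum_univ_two, convBilin_apply] using this

theorem t_CONV : S_CONV := by
  intro k _ V W G _ _ _ _ _ ρ σ χ ω φ c hω0 hω hφ0 hφ T hT
  -- the two mixed blocks vanish
  have h1 : ∀ u v : V × W, ω (T u).1 v.1 + ω u.1 (T v).1 = 0 := fun u v =>
    conv_two hT 1 (ω.compl₁₂ (LinearMap.fst k V W) (LinearMap.fst k V W))
      ⟨⊤, inferInstance, fun s _ x y => by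
        rw [zpow_one]
        exact hω s x.1 y.1⟩ u v
  have h2 : ∀ u v : V × W, φ (T u).2 v.2 + φ u.2 (T v).2 = 0 := fun u v =>
    conv_two hT c (φ.compl₁₂ (LinearMap.snd k V W) (LinearMap.snd k V W))
      ⟨⊤, inferInstance, fun s _ x y => hφ s x.2 y.2⟩ u v
  have hz1 : ∀ y : W, (T (0, y)).1 = 0 := fun y => hω0 _ fun v => by
    have := h1 (0, y) (v, 0)
    simpa using this
  have hz2 : ∀ x : V, (T (x, 0)).2 = 0 := fun x => hφ0 _ fun v => by
    have := h2 (x, 0) (0, v)
    simpa using this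
  refine ⟨LinearMap.fst k V W ∘ₗ T ∘ₗ LinearMap.inl k V W,
    LinearMap.snd k V W ∘ₗ T ∘ₗ LinearMap.inr k V W, ?_, ?_, ?_⟩
  · apply LinearMap.ext
    rintro ⟨x, y⟩
    have hxy : ((x, y) : V × W) = (x, 0) + (0, y) := by simp
    rw [hxy, map_add]
    refine Prod.ext ?_ ?_
    · simp [hz1]
    · simp [hz2]
  · rintro B ⟨Δ, hΔ, h⟩ x y
    exact conv_two hT 1 (B.compl₁₂ (LinearMap.fst k V W) (LinearMap.fst k V W))
      ⟨Δ, hΔ, fun s hs x y => by
        rw [zpow_one]
        exact h s hs x.1 y.1⟩ (x, 0) (y, 0)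
  · rintro a e f ⟨Δ, hΔ, h⟩ y
    have := hT a e (f.compLinearMap fun _ => LinearMap.snd k V W)
      ⟨Δ, hΔ, fun s hs u => h s hs _⟩ fun i => (0, y i)
    rw [← this]
    refine Finset.sum_congr rfl fun i _ => ?_
    rw [MultilinearMap.compLinearMap_apply]
    congr 1
    funext j
    by_cases hj : j = i
    · subst hj
      simp
    · simp [Function.update_of_ne hj]

end Pool.Agent.N197.QF
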