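import Pool.Agent.N197.QF.Stm2

/-!
# Project QF, task DEC (helper492)
-/

set_option autoImplicit false

open Module Matrix

namespace Pool.Agent.N197.QF

namespace DEC

section

variable {k V W G : Type} [Field k] [AddCommGroup V] [Module k V] [AddCommGroup W] [Module k W]
  [Group G]

/-- the vector of `(V × W)^a` with some entries in `V` and the other ones in `W` -/
def mix {a r b : ℕ} (e : Fin r ⊕ Fin b ≃ Fin a) (x : Fin r → V) (y : Fin b → W) :
    Fin a → V × W :=
  fun i => Sum.elim (fun i => ((x i, 0) : V × W)) (fun j => ((0, y j) : V × W)) (e.symm i)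

/-- the mixed form -/
theorem exists_mix {a r b : ℕ} (e : Fin r ⊕ Fin b ≃ Fin a)
    (f : MultilinearMap k (fun _ : Fin a => V × W) k) :
    ∃ g : MultilinearMap k (fun _ : Fin r => V) (MultilinearMap k (fun _ : Fin b => W) k),
      ∀ x y, g x y = f (mix e x y) := by
  refine ⟨(MultilinearMap.compLinearMapₗ (fun _ : Fin b => LinearMap.inr k V W)).compMultilinearMap
    ((MultilinearMap.currySum (f.domDomCongr e.symm)).compLinearMap
      (fun _ : Fin r => LinearMap.inl k V W)), fun x y => ?_⟩
  rfl

theorem mix_rep {a r b : ℕ} (e : Fin r ⊕ Fin b ≃ Fin a) (ρ : Representation k G V)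
    (σ : Representation k G W) (s : G) (x : Fin r → V) (y : Fin b → W) :
    mix e (fun i => ρ s (x i)) (fun j => σ s (y j)) =
      fun i => prodRep ρ σ s (mix e x y i) := by
  funext i
  unfold mix
  rcases e.symm i with i' | j'
  · show ((ρ s (x i'), 0) : V × W) = (ρ s (x i'), σ s 0)
    rw [map_zero]
  · show ((0, σ s (y j')) : V × W) = (ρ s 0, σ s (y j'))
    rw [map_zero]

/-- an enumeration of `S` and of its complement -/
theorem exists_e {a : ℕ} (S : Finset (Fin a)) : ∃ (r b : ℕ) (e : Fin r ⊕ Fin b ≃ Fin a),
    (∀ i, e (Sum.inl i) ∈ S) ∧ ∀ j, e (Sum.inr j) ∉ S := by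
  refine ⟨_, _, (Equiv.sumCongr (Fintype.equivFin {i // i ∈ S}).symm
    (Fintype.equivFin {i // ¬ i ∈ S}).symm).trans (Equiv.sumCompl (fun i => i ∈ S)), ?_, ?_⟩
  · intro i
    exact ((Fintype.equivFin {i // i ∈ S}).symm i).2
  · intro j
    exact ((Fintype.equivFin {i // ¬ i ∈ S}).symm j).2

theorem pw_mix {a r b : ℕ} (S : Finset (Fin a)) (e : Fin r ⊕ Fin b ≃ Fin a)
    (h1 : ∀ i, e (Sum.inl i) ∈ S) (h2 : ∀ j, e (Sum.inr j) ∉ S) (u : Fin a → V × W) :
    S.piecewise (fun i => (((u i).1, 0) : V × W)) (fun i => ((0, (u i).2) : V × W)) =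
      mix e (fun i => (u (e (Sum.inl i))).1) (fun j => (u (e (Sum.inr j))).2) := by
  funext i
  obtain ⟨s, rfl⟩ := e.surjective i
  unfold mix
  rw [e.symm_apply_apply]
  rcases s with i' | j'
  · rw [Finset.piecewise_eq_of_mem _ _ _ (h1 i')]
    rfl
  · rw [Finset.piecewise_eq_of_notMem _ _ _ (h2 j')]
    rfl

end

end DEC

open DEC in
theorem t_DEC : S_DEC := by
  intro k _ V W G _ _ _ _ _ ρ σ χ X Y hK a c f hf u
  obtain ⟨Δ, hΔ, hf⟩ := hf
  -- the expansion
  have hexp : ∀ w : Fin a → V × W, f w = ∑ S : Finset (Fin a),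
      f (S.piecewise (fun i => (((w i).1, 0) : V × W)) (fun i => ((0, (w i).2) : V × W))) := by
    intro w
    rw [← MultilinearMap.map_add_univ]
    congr 1
    funext i
    simp
  have h1 : ∑ i, f (Function.update u i (LinearMap.prodMap X Y (u i))) =
      ∑ S : Finset (Fin a), ∑ i, f (S.piecewise
        (fun j => (((Function.update u i (LinearMap.prodMap X Y (u i)) j).1, 0) : V × W))
        (fun j => ((0, (Function.update u i (LinearMap.prodMap X Y (u i)) j).2) : V × W))) := by
    rw [Finset.sum_comm]
    exact Finset.sum_congr rfl fun i _ => hexp _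
  rw [h1]
  refine Finset.sum_eq_zero fun S _ => ?_
  obtain ⟨r, b, e, he1, he2⟩ := exists_e S
  obtain ⟨g, hg⟩ := exists_mix e f
  have hT : TateForm ρ σ χ c g := by
    refine ⟨Δ, hΔ, fun s hs x y => ?_⟩
    rw [hg, hg, mix_rep]
    exact hf s hs _
  have h2 := hK r b c g hT (fun i => (u (e (Sum.inl i))).1) (fun j => (u (e (Sum.inr j))).2)
  rw [← Equiv.sum_comp e, Fintype.sum_sum_type]
  refine Eq.trans ?_ h2
  congr 1
  · refine Finset.sum_congr rfl fun i _ => ?_
    rw [pw_mix S e he1 he2, hg]
    congr 2
    · funext i'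
      by_cases h : i' = i
      · subst h
        rw [Function.update_self, Function.update_self]
        rfl
      · rw [Function.update_of_ne h, Function.update_of_ne fun h' => h (by
          have := e.injective h'
          exact Sum.inl.inj this)]
    · funext j'
      rw [Function.update_of_ne fun h' => by
        have := e.injective h'
        exact absurd this (by simp)]
  · refine Finset.sum_congr rfl fun j _ => ?_
    rw [pw_mix S e he1 he2, hg]
    congr 2
    · funext i'
      rw [Function.update_of_ne fun h' => by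
        have := e.injective h'
        exact absurd this (by simp)]
    · funext j'
      by_cases h : j' = j
      · subst h
        rw [Function.update_self, Function.update_self]
        rfl
      · rw [Function.update_of_ne h, Function.update_of_ne fun h' => h (by
          have := e.injective h'
          exact Sum.inr.inj this)]

end Pool.Agent.N197.QF
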