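import Pool.Agent.N197.QF.Stm2

/-!
# Project QF, task LEIB: a derivation which kills the forms of degree two kills their products
-/

set_option autoImplicit false

open Pool.Agent.N166.CZ (IsProduct)

namespace Pool.Agent.N197.QF

theorem t_LEIB : S_LEIB := by
  intro k _ V M _ _ _ _ n m B z g hg D hD v
  have key : ∀ τ : Equiv.Perm (Fin m × Fin 2),
      ∑ i, ∏ l, B l ![Function.update v i (D (v i)) (τ (l, 0)),
        Function.update v i (D (v i)) (τ (l, 1))] = 0 := by
    intro τ
    rw [← Equiv.sum_comp τ, Fintype.sum_prod_type]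
    apply Finset.sum_eq_zero
    intro l' _
    rw [Fin.sum_univ_two, ← Finset.mul_prod_erase Finset.univ _ (Finset.mem_univ l'),
      ← Finset.mul_prod_erase Finset.univ _ (Finset.mem_univ l')]
    have h1 : ∀ (c : Fin 2), ∏ l ∈ Finset.univ.erase l',
        B l ![Function.update v (τ (l', c)) (D (v (τ (l', c)))) (τ (l, 0)),
          Function.update v (τ (l', c)) (D (v (τ (l', c)))) (τ (l, 1))] =
        ∏ l ∈ Finset.univ.erase l', B l ![v (τ (l, 0)), v (τ (l, 1))] := by
      intro c
      apply Finset.prod_congr rfl
      intro l hl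
      have hne : l ≠ l' := Finset.ne_of_mem_erase hl
      rw [Function.update_of_ne, Function.update_of_ne]
      · intro h
        exact hne (Prod.ext_iff.1 (τ.injective h)).1
      · intro h
        exact hne (Prod.ext_iff.1 (τ.injective h)).1
    rw [h1 0, h1 1]
    have h01 : τ (l', 0) ≠ τ (l', 1) := by
      intro h
      have h' : (0 : Fin 2) = 1 := (Prod.ext_iff.1 (τ.injective h)).2
      exact absurd h' (by decide)
    rw [Function.update_self, Function.update_self, Function.update_of_ne h01,
      Function.update_of_ne h01.symm, ← add_mul, hD, zero_mul]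
  have h2 : ∀ i, g (Function.update v i (D (v i))) =
      (∑ τ : Equiv.Perm (Fin m × Fin 2), ((Equiv.Perm.sign τ : ℤ) : k) *
        ∏ l, B l ![Function.update v i (D (v i)) (τ (l, 0)),
          Function.update v i (D (v i)) (τ (l, 1))]) • z := fun i => hg _
  rw [Finset.sum_congr rfl (fun i _ => h2 i), ← Finset.sum_smul, Finset.sum_comm]
  have h3 : ∑ τ : Equiv.Perm (Fin m × Fin 2), ∑ i, ((Equiv.Perm.sign τ : ℤ) : k) *
        ∏ l, B l ![Function.update v i (D (v i)) (τ (l, 0)),
          Function.update v i (D (v i)) (τ (l, 1))] = 0 := by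
    apply Finset.sum_eq_zero
    intro τ _
    rw [← Finset.mul_sum, key τ, mul_zero]
  rw [h3, zero_smul]

end Pool.Agent.N197.QF
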