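import Pool.Agent.N197.QF.Stm3

/-!
# Project QF (helper197), part SCAL (helper695)
-/

set_option autoImplicit false

open Module Matrix Filter Topology

namespace Pool.Agent.N197.QF

namespace SCALaux

lemma pow_mem {G : Type} [Group G] (Δ : Subgroup G) (h : Δ.FiniteIndex) (g : G) :
    g ^ (Δ.index).factorial ∈ Δ := by
  obtain ⟨n, hn0, hn, hg⟩ := Subgroup.exists_pow_mem_of_index_ne_zero h.index_ne_zero g
  obtain ⟨k, hk⟩ := Nat.dvd_factorial hn0 hn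
  rw [hk, pow_mul]
  exact Δ.pow_mem hg k

lemma two_pow : Tendsto (fun m : ℕ => ((2 : ℕ) : ℚ_[2]) ^ m) atTop (𝓝 0) := by
  refine tendsto_pow_atTop_nhds_zero_of_norm_lt_one ?_
  have h := Padic.norm_p (p := 2)
  rw [h]
  norm_num

lemma comm_X {n : ℕ} {G : Type} [Group G] (r : G →* Matrix (Fin n) (Fin n) ℚ_[2])
    (X T : Matrix (Fin n) (Fin n) ℚ_[2]) (σ : ℕ → G)
    (hσ : Tendsto (fun m : ℕ => (((2 : ℕ) : ℚ_[2]) ^ m)⁻¹ • (r (σ m) - 1)) atTop (𝓝 X))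
    (Δ : Subgroup G) (hΔ : Δ.FiniteIndex) (hT : ∀ g ∈ Δ, T * r g = r g * T) : T * X = X * T := by
  set k := (Δ.index).factorial with hk
  have hk0 : (k : ℚ_[2]) ≠ 0 := by exact_mod_cast Nat.factorial_ne_zero _
  have h2 : ∀ m : ℕ, ((2 : ℕ) : ℚ_[2]) ^ m ≠ 0 := fun m => pow_ne_zero _ (by norm_num)
  have hA : Tendsto (fun m : ℕ => r (σ m)) atTop (𝓝 1) := by
    have h3 := (two_pow.smul hσ).add_const (1 : Matrix (Fin n) (Fin n) ℚ_[2])
    rw [zero_smul, zero_add] at h3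
    refine h3.congr fun m => ?_
    rw [smul_smul, mul_inv_cancel₀ (h2 m), one_smul, sub_add_cancel]
  have hS : Tendsto (fun m : ℕ => ∑ i ∈ Finset.range k, r (σ m) ^ i) atTop
      (𝓝 (∑ i ∈ Finset.range k, (1 : Matrix (Fin n) (Fin n) ℚ_[2]) ^ i)) :=
    tendsto_finsetSum _ fun i _ => hA.pow i
  have hE : Tendsto (fun m : ℕ => (((2 : ℕ) : ℚ_[2]) ^ m)⁻¹ • (r (σ m) ^ k - 1)) atTop
      (𝓝 ((k : ℚ_[2]) • X)) := by
    have h3 := hS.mul hσ
    have h4 : (∑ i ∈ Finset.range k, (1 : Matrix (Fin n) (Fin n) ℚ_[2]) ^ i) * X = (k : ℚ_[2]) • X := by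
      simp only [one_pow, Finset.sum_const, Finset.card_range, nsmul_eq_mul, mul_one]
      rw [← nsmul_eq_mul, Nat.cast_smul_eq_nsmul]
    rw [h4] at h3
    refine h3.congr fun m => ?_
    rw [mul_smul_comm, geom_sum_mul]
  have h5 : Tendsto (fun m : ℕ => T * ((((2 : ℕ) : ℚ_[2]) ^ m)⁻¹ • (r (σ m) ^ k - 1))) atTop
      (𝓝 (T * ((k : ℚ_[2]) • X))) := hE.const_mul T
  have h6 : Tendsto (fun m : ℕ => ((((2 : ℕ) : ℚ_[2]) ^ m)⁻¹ • (r (σ m) ^ k - 1)) * T) atTop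
      (𝓝 (((k : ℚ_[2]) • X) * T)) := hE.mul_const T
  have h7 : ∀ m : ℕ, T * ((((2 : ℕ) : ℚ_[2]) ^ m)⁻¹ • (r (σ m) ^ k - 1)) =
      ((((2 : ℕ) : ℚ_[2]) ^ m)⁻¹ • (r (σ m) ^ k - 1)) * T := by
    intro m
    have h8 := hT _ (pow_mem Δ hΔ (σ m))
    rw [map_pow] at h8
    rw [mul_smul_comm, smul_mul_assoc, mul_sub, sub_mul, h8, mul_one, one_mul]
  have h9 := tendsto_nhds_unique (h5.congr h7) h6
  rw [mul_smul_comm, smul_mul_assoc] at h9
  exact smul_right_injective _ hk0 h9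

lemma skew {n : ℕ} (J : Matrix (Fin n) (Fin n) ℚ_[2]) (hJ : Jᵀ = -J) (u : Fin n → ℚ_[2]) :
    (vecMulVec u (u ᵥ* J))ᵀ * J + J * vecMulVec u (u ᵥ* J) = 0 := by
  have h1 : J *ᵥ u = -(u ᵥ* J) := by
    rw [← vecMul_transpose, hJ, vecMul_neg]
  rw [transpose_vecMulVec, vecMulVec_mul, mul_vecMulVec, h1, neg_vecMulVec, add_neg_cancel]

lemma eig {n : ℕ} (J T : Matrix (Fin n) (Fin n) ℚ_[2]) (hJ0 : J.det ≠ 0)
    (h : ∀ u : Fin n → ℚ_[2], T * vecMulVec u (u ᵥ* J) = vecMulVec u (u ᵥ* J) * T) (u : Fin n → ℚ_[2]) :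
    ∃ c : ℚ_[2], T *ᵥ u = c • u := by
  by_cases hu : u = 0
  · exact ⟨0, by rw [hu, mulVec_zero, smul_zero]⟩
  · have hw : u ᵥ* J ≠ 0 := by
      intro h0
      exact hu (eq_zero_of_vecMul_eq_zero hJ0 h0)
    obtain ⟨j, hj⟩ : ∃ j, (u ᵥ* J) j ≠ 0 := Function.ne_iff.1 hw
    have h1 := h u
    rw [mul_vecMulVec, vecMulVec_mul] at h1
    refine ⟨((u ᵥ* J) ᵥ* T) j / (u ᵥ* J) j, ?_⟩
    funext i
    have h2 := congrFun (congrFun h1 i) j
    rw [vecMulVec_apply, vecMulVec_apply] at h2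
    rw [Pi.smul_apply, smul_eq_mul, div_mul_eq_mul_div, eq_div_iff hj, h2, mul_comm]

lemma scalar {n : ℕ} (T : Matrix (Fin n) (Fin n) ℚ_[2])
    (h : ∀ u : Fin n → ℚ_[2], ∃ c : ℚ_[2], T *ᵥ u = c • u) : ∃ c : ℚ_[2], T = c • 1 := by
  have h1 : ∀ i j, i ≠ j → T i j = 0 := by
    intro i j hij
    obtain ⟨c, hc⟩ := h (Pi.single j 1)
    have h2 := congrFun hc i
    rw [mulVec_single_one, Pi.smul_apply, Pi.single_eq_of_ne hij, smul_zero] at h2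
    exact h2
  have h2 : ∀ i j, T i i = T j j := by
    intro i j
    by_cases hij : i = j
    · rw [hij]
    · obtain ⟨c, hc⟩ := h (Pi.single i 1 + Pi.single j 1)
      rw [mulVec_add, mulVec_single_one, mulVec_single_one] at hc
      have h3 := congrFun hc i
      have h4 := congrFun hc j
      simp only [Pi.add_apply, Pi.smul_apply, Pi.single_eq_same, Pi.single_eq_of_ne hij,
        Pi.single_eq_of_ne (Ne.symm hij), smul_eq_mul, add_zero, zero_add, mul_one, col_apply] at h3 h4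
      rw [h1 i j hij, add_zero] at h3
      rw [h1 j i (Ne.symm hij), zero_add] at h4
      rw [h3, h4]
  rcases Nat.eq_zero_or_pos n with hn | hn
  · subst hn
    exact ⟨0, by ext i; exact i.elim0⟩
  · refine ⟨T ⟨0, hn⟩ ⟨0, hn⟩, ?_⟩
    ext i j
    rw [Matrix.smul_apply, Matrix.one_apply, smul_eq_mul]
    by_cases hij : i = j
    · subst hij
      rw [if_pos rfl, mul_one, h2 i ⟨0, hn⟩]
    · rw [if_neg hij, mul_zero, h1 i j hij]

end SCALaux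

open SCALaux

theorem t_SCAL : S_SCAL := by
  intro n J hJ hJ0 G _ r hX T Δ hΔ hT
  refine scalar T (eig J T hJ0 fun u => ?_)
  obtain ⟨σ, hσ⟩ := hX _ (skew J hJ u)
  exact comm_X r _ T σ hσ Δ hΔ hT

end Pool.Agent.N197.QF
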