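import Pool.Agent.N197.QF.Stm2

/-!
# Project QF (helper197): leaf SPX (helper92)
-/

set_option autoImplicit false

open Module Matrix

namespace Pool.Agent.N197.QF

theorem t_SPX : S_SPX := by
  intro k _ _ G _ ι _ N ρ J χ R hR hJ hdet hinv hone htwo X
  classical
  have hRs : ∀ g i (u : Fin (N i) → k), R g (Pi.single i u) = Pi.single i (ρ i g u) := by
    intro g i u
    funext j
    rw [hR]
    rcases eq_or_ne j i with rfl | hj
    · rw [Pi.single_eq_same, Pi.single_eq_same]
    · rw [Pi.single_eq_of_ne hj, Pi.single_eq_of_ne hj, map_zero]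
  have hskew : ∀ i (u v : Fin (N i) → k), u ⬝ᵥ J i *ᵥ v = -(v ⬝ᵥ J i *ᵥ u) := by
    intro i u v
    rw [dotProduct_mulVec, ← mulVec_transpose, hJ, neg_mulVec, neg_dotProduct, dotProduct_comm]
  constructor
  · intro hX
    -- the forms on the factors
    let Bf : ∀ i, (∀ i, Fin (N i) → k) →ₗ[k] (∀ i, Fin (N i) → k) →ₗ[k] k := fun i =>
      LinearMap.mk₂ k (fun x y => x i ⬝ᵥ J i *ᵥ y i)
        (fun x x' y => by simp only [Pi.add_apply, add_dotProduct])
        (fun c x y => by simp only [Pi.smul_apply, smul_dotProduct])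
        (fun x y y' => by simp only [Pi.add_apply, mulVec_add, dotProduct_add])
        (fun c x y => by simp only [Pi.smul_apply, mulVec_smul, dotProduct_smul])
    have hB : ∀ i x y, Bf i x y = x i ⬝ᵥ J i *ᵥ y i := fun i x y => rfl
    have hK : ∀ i (x y : ∀ i, Fin (N i) → k),
        (X x) i ⬝ᵥ J i *ᵥ y i + x i ⬝ᵥ J i *ᵥ (X y) i = 0 := by
      intro i x y
      have := hX (Bf i) ⟨⊤, inferInstance, fun s _ x y => by
        rw [hB, hB, hR, hR, hinv]⟩ x y
      rwa [hB, hB] at this
    have hker : ∀ i (x : ∀ i, Fin (N i) → k), x i = 0 → (X x) i = 0 := by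
      intro i x hx
      have h1 : ∀ w : Fin (N i) → k, (X x) i ⬝ᵥ J i *ᵥ w = 0 := by
        intro w
        have := hK i x (Pi.single i w)
        rw [hx, zero_dotProduct, add_zero, Pi.single_eq_same] at this
        exact this
      have h2 : (J i)ᵀ *ᵥ (X x) i = 0 := by
        refine dotProduct_eq_zero _ fun w => ?_
        rw [mulVec_transpose, ← dotProduct_mulVec]
        exact h1 w
      have h3 : IsUnit (J i)ᵀ := by
        rw [Matrix.isUnit_iff_isUnit_det, det_transpose]
        exact isUnit_iff_ne_zero.2 (hdet i)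
      exact (Matrix.mulVec_injective_of_isUnit h3) (by rw [h2, mulVec_zero])
    refine ⟨fun i => LinearMap.toMatrix' ((LinearMap.proj i) ∘ₗ X ∘ₗ
      (LinearMap.single k (fun i => Fin (N i) → k) i)), ?_⟩
    have hZ : ∀ x i, X x i = (LinearMap.toMatrix' ((LinearMap.proj i) ∘ₗ X ∘ₗ
        (LinearMap.single k (fun i => Fin (N i) → k) i))) *ᵥ x i := by
      intro x i
      rw [LinearMap.toMatrix'_mulVec]
      have h1 : (X (x - Pi.single i (x i))) i = 0 := by
        apply hker
        rw [Pi.sub_apply, Pi.single_eq_same, sub_self]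
      rw [map_sub, Pi.sub_apply, sub_eq_zero] at h1
      rw [h1]
      rfl
    refine ⟨fun i => ?_, fun x i => hZ x i⟩
    have h1 : ∀ u v : Fin (N i) → k, u ⬝ᵥ ((LinearMap.toMatrix' ((LinearMap.proj i) ∘ₗ X ∘ₗ
        (LinearMap.single k (fun i => Fin (N i) → k) i)))ᵀ * J i + J i * (LinearMap.toMatrix'
        ((LinearMap.proj i) ∘ₗ X ∘ₗ (LinearMap.single k (fun i => Fin (N i) → k) i)))) *ᵥ v = 0 := by
      intro u v
      have h2 := hK i (Pi.single i u) (Pi.single i v)
      rw [hZ, hZ, Pi.single_eq_same, Pi.single_eq_same] at h2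
      rw [add_mulVec, dotProduct_add, ← mulVec_mulVec, ← mulVec_mulVec]
      rw [mulVec_transpose, dotProduct_comm u, ← dotProduct_mulVec, dotProduct_comm _ (_ *ᵥ u)]
      exact h2
    ext a b
    have h3 := h1 (Pi.single a 1) (Pi.single b 1)
    rw [single_one_dotProduct, mulVec_single_one] at h3
    exact h3
  · rintro ⟨Z, hZ1, hZ2⟩ B ⟨Δ, hΔ, hB⟩ x y
    -- the components of the form
    have hcomp : ∀ i j, ∃ c : k, (i ≠ j → c = 0) ∧ ∀ (u : Fin (N i) → k) (v : Fin (N j) → k),
        B (Pi.single i u) (Pi.single j v) = if h : i = j then c * (u ⬝ᵥ J i *ᵥ (h ▸ v)) else 0 := by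
      intro i j
      let Bij : (Fin (N i) → k) →ₗ[k] (Fin (N j) → k) →ₗ[k] k :=
        B.compl₁₂ (LinearMap.single k (fun i => Fin (N i) → k) i)
          (LinearMap.single k (fun i => Fin (N i) → k) j)
      have hBij : ∀ u v, Bij u v = B (Pi.single i u) (Pi.single j v) := fun u v => rfl
      have hT : TateTwo (ρ i) (ρ j) χ Bij := ⟨Δ, hΔ, fun s hs u v => by
        rw [hBij, hBij, ← hRs, ← hRs]
        exact hB s hs _ _⟩
      by_cases hij : i = j
      · subst hij
        obtain ⟨c, hc⟩ := hone i Bij hT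
        refine ⟨c, fun h => absurd rfl h, fun u v => ?_⟩
        rw [dif_pos rfl, ← hBij, hc]
      · refine ⟨0, fun _ => rfl, fun u v => ?_⟩
        rw [dif_neg hij, ← hBij, htwo i j hij Bij hT]
        rfl
    choose c hc0 hc using hcomp
    have hsum : ∀ x : ∀ i, Fin (N i) → k, x = ∑ i, Pi.single i (x i) := fun x =>
      (Finset.univ_sum_single x).symm
    have hBx : ∀ x y : ∀ i, Fin (N i) → k, B x y = ∑ i, c i i * (x i ⬝ᵥ J i *ᵥ y i) := by
      intro x y
      conv_lhs => rw [hsum x]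
      rw [map_sum, LinearMap.sum_apply]
      refine Finset.sum_congr rfl fun i _ => ?_
      conv_lhs => rw [hsum y]
      rw [map_sum, Finset.sum_eq_single i]
      · rw [hc, dif_pos rfl]
      · intro j _ hj
        rw [hc, dif_neg (Ne.symm hj)]
      · intro h
        exact absurd (Finset.mem_univ i) h
    rw [hBx, hBx, ← Finset.sum_add_distrib]
    refine Finset.sum_eq_zero fun i _ => ?_
    rw [← mul_add, hZ2, hZ2]
    have h1 : (Z i *ᵥ x i) ⬝ᵥ J i *ᵥ y i + x i ⬝ᵥ J i *ᵥ (Z i *ᵥ y i) =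
        x i ⬝ᵥ ((Z i)ᵀ * J i + J i * Z i) *ᵥ y i := by
      rw [add_mulVec, dotProduct_add, ← mulVec_mulVec, ← mulVec_mulVec]
      rw [mulVec_transpose, dotProduct_comm (x i) (_ ᵥ* _), ← dotProduct_mulVec,
        dotProduct_comm _ (Z i *ᵥ x i)]
    rw [h1, hZ1, zero_mulVec, dotProduct_zero, mul_zero]

end Pool.Agent.N197.QF
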