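import Pool.Agent.N197.QF.Stm2

/-!
# QF/TENS: the mixed Tate forms are killed (helper933)
-/

set_option autoImplicit false

open Module Matrix
open Pool.Agent.N166.CZ (ProductsWith IsTateMap IsTateVector IsProduct)
open Pool.Agent.H204R3.GP (IsTateClass)

namespace Pool.Agent.N197.QF

namespace TensX

section

variable {k E : Type} [Field k] [AddCommGroup E] [Module k E]

theorem swp (B : E [⋀^Fin 2]→ₗ[k] k) (u w : E) : B ![u, w] = -B ![w, u] := by
  have h := B.map_swap ![w, u] (i := 0) (j := 1) (by decide)
  rw [← h]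
  congr 1
  funext i
  fin_cases i <;> rfl

theorem addL (B : E [⋀^Fin 2]→ₗ[k] k) (u u' w : E) : B ![u + u', w] = B ![u, w] + B ![u', w] :=
  B.map_vecCons_add ![w] u u'

theorem smulL (B : E [⋀^Fin 2]→ₗ[k] k) (c : k) (u w : E) : B ![c • u, w] = c • B ![u, w] :=
  B.map_vecCons_smul ![w] c u

/-- the bilinear form -/
def bil (B : E [⋀^Fin 2]→ₗ[k] k) : E →ₗ[k] E →ₗ[k] k :=
  LinearMap.mk₂ k (fun u w => B ![u, w]) (fun u u' w => addL B u u' w)
    (fun c u w => smulL B c u w)
    (fun u w w' => by rw [swp B u, addL, swp B u w, swp B u w', neg_add])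
    (fun c u w => by rw [swp B u, smulL, swp B u w, smul_neg])

theorem bil_apply (B : E [⋀^Fin 2]→ₗ[k] k) (u w : E) : bil B u w = B ![u, w] := rfl

end

section

variable {k V W G : Type} [Field k] [AddCommGroup V] [Module k V] [AddCommGroup W] [Module k W]
  [Group G]

/-- the operator on all components -/
def dg (n : ℕ) (X : Module.End k V) : Module.End k (Fin n → V) where
  toFun u := fun i => X (u i)
  map_add' u w := by funext i; simp
  map_smul' c u := by funext i; simp

theorem deg2 {ρ : Representation k G V} {χ : G →* k} {X : Module.End k V} (hX : Kills2 ρ χ X)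
    {n : ℕ} (B : (Fin n → V) [⋀^Fin 2]→ₗ[k] k) (hB : IsTateClass ρ χ 1 B) (u w : Fin n → V) :
    B ![dg n X u, w] + B ![u, dg n X w] = 0 := by
  obtain ⟨Δ, hΔ, h⟩ := hB
  have hpq : ∀ p q : Fin n, ∀ x y : V, bil B (Pi.single p (X x)) (Pi.single q y) +
      bil B (Pi.single p x) (Pi.single q (X y)) = 0 := by
    intro p q x y
    have h1 := hX ((bil B).compl₁₂ (LinearMap.single k (fun _ : Fin n => V) p)
      (LinearMap.single k (fun _ : Fin n => V) q)) ⟨Δ, hΔ, ?_⟩ x y
    · exact h1
    · intro s hs x y
      have h2 := h s hs ![Pi.single p x, Pi.single q y]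
      rw [pow_one] at h2
      show B ![Pi.single p (ρ s x), Pi.single q (ρ s y)] = χ s * B ![Pi.single p x, Pi.single q y]
      rw [← h2]
      congr 1
      funext l i
      fin_cases l
      · show (Pi.single p (ρ s x) : Fin n → V) i = ρ s ((Pi.single p x : Fin n → V) i)
        by_cases hi : i = p
        · subst hi; rw [Pi.single_eq_same, Pi.single_eq_same]
        · rw [Pi.single_eq_of_ne hi, Pi.single_eq_of_ne hi, map_zero]
      · show (Pi.single q (ρ s y) : Fin n → V) i = ρ s ((Pi.single q y : Fin n → V) i)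
        by_cases hi : i = q
        · subst hi; rw [Pi.single_eq_same, Pi.single_eq_same]
        · rw [Pi.single_eq_of_ne hi, Pi.single_eq_of_ne hi, map_zero]
  have hu : ∀ t : Fin n → V, t = ∑ p, Pi.single p (t p) := fun t =>
    (Finset.univ_sum_single t).symm
  have e1 : ∀ s t : Fin n → V, B ![s, t] =
      ∑ p, ∑ q, bil B (Pi.single p (s p)) (Pi.single q (t q)) := by
    intro s t
    rw [← bil_apply]
    conv_lhs => rw [hu s, hu t]
    rw [map_sum (bil B), LinearMap.sum_apply]
    refine Finset.sum_congr rfl fun p _ => ?_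
    rw [map_sum]
  rw [e1, e1, ← Finset.sum_add_distrib]
  refine Finset.sum_eq_zero fun p _ => ?_
  rw [← Finset.sum_add_distrib]
  exact Finset.sum_eq_zero fun q _ => hpq p q (u p) (w q)

theorem isTateMap {ρ : Representation k G V} {σ : Representation k G W} {χ : G →* k} {a b : ℕ}
    {c : ℤ} {f : MultilinearMap k (fun _ : Fin a => V) (MultilinearMap k (fun _ : Fin b => W) k)}
    (hf : TateForm ρ σ χ c f) {κ : Type} [Fintype κ] [DecidableEq κ] (e : κ ≃ Fin a)
    (F : (Fin a → V) [⋀^κ]→ₗ[k] MultilinearMap k (fun _ : Fin b => W) k)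
    (hF : ∀ v : κ → Fin a → V, F v = ∑ s : Equiv.Perm κ,
      ((Equiv.Perm.sign s : ℤ) : k) • f fun i => v (s (e.symm i)) i) :
    IsTateMap ρ χ (formRep b σ) c F := by
  obtain ⟨Δ, hΔ, h⟩ := hf
  refine ⟨Δ, hΔ, fun s hs v => ?_⟩
  have hfs : ∀ x : Fin a → V, f (fun i => ρ s (x i)) = χ s ^ c • formRep b σ s (f x) := by
    intro x
    ext y
    have h1 := h s hs x (fun j => σ s⁻¹ (y j))
    have h2 : ∀ j, σ s (σ s⁻¹ (y j)) = y j := by
      intro j
      rw [← Module.End.mul_apply, ← map_mul, mul_inv_cancel, map_one]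
      rfl
    simp only [h2] at h1
    exact h1
  rw [hF, hF, map_sum, Finset.smul_sum]
  refine Finset.sum_congr rfl fun τ _ => ?_
  rw [hfs fun i => v (τ (e.symm i)) i, map_smul, smul_comm]

theorem zero_of_tateVector {σ : Representation k G W} {χ : G →* k} {Y : Module.End k W}
    (hY : InLie σ χ Y) {b : ℕ} {c : ℤ} {z : MultilinearMap k (fun _ : Fin b => W) k}
    (hz : IsTateVector χ (formRep b σ) c z) (y : Fin b → W) :
    ∑ j, z (Function.update y j (Y (y j))) = 0 := by
  obtain ⟨Δ, hΔ, h⟩ := hz
  refine hY b c z ⟨Δ, hΔ, fun s hs u => ?_⟩ y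
  have h1 := congrArg (fun φ : MultilinearMap k (fun _ : Fin b => W) k => φ fun i => σ s (u i))
    (h s hs)
  have h2 : ∀ j, σ s⁻¹ (σ s (u j)) = u j := by
    intro j
    rw [← Module.End.mul_apply, ← map_mul, inv_mul_cancel, map_one]
    rfl
  have h3 : (χ s ^ c • formRep b σ s z) (fun i => σ s (u i)) =
      χ s ^ c * z (fun i => σ s⁻¹ (σ s (u i))) := rfl
  simp only [h3, h2] at h1
  exact h1.symm

end

end TensX

open TensX

theorem t_TENS (hALT : S_ALT) (hLEIB : S_LEIB) : S_TENS := by
  intro k _ _ V W G _ _ _ _ _ ρ σ χ hP X Y hX hY a b c f hf x y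
  obtain ⟨m, hm | hm⟩ := Nat.even_or_odd' a
  · subst hm
    set e : Fin m × Fin 2 ≃ Fin (2 * m) := finProdFinEquiv.trans (finCongr (mul_comm m 2)) with he
    obtain ⟨F, hF1, hF2⟩ := hALT k V (MultilinearMap k (fun _ : Fin b => W) k) (2 * m)
      (Fin m × Fin 2) e f
    have hT := isTateMap hf e F hF1
    have hspan := (hP b (2 * m) m c).1 F hT
    -- the two functionals
    have h1 : ∀ v : Fin m × Fin 2 → Fin (2 * m) → V,
        ∑ i, F (Function.update v i (dg (2 * m) X (v i))) = 0 := by
      clear hF1 hF2 hT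
      intro v
      induction hspan using Submodule.span_induction with
      | mem g hg =>
        obtain ⟨B, z, hB, hz, hg⟩ := hg
        exact hLEIB k V _ (2 * m) m B z g hg (dg (2 * m) X)
          (fun l u w => deg2 hX (B l) (hB l) u w) v
      | zero => simp
      | add g g' _ _ ih ih' =>
        simp only [AlternatingMap.add_apply, Finset.sum_add_distrib, ih, ih', add_zero]
      | smul t g _ ih =>
        simp only [AlternatingMap.smul_apply, ← Finset.smul_sum, ih, smul_zero]
    have h2 : ∀ v : Fin m × Fin 2 → Fin (2 * m) → V,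
        ∑ j, (F v) (Function.update y j (Y (y j))) = 0 := by
      clear hF1 hF2 hT h1
      intro v
      induction hspan using Submodule.span_induction with
      | mem g hg =>
        obtain ⟨B, z, hB, hz, hg⟩ := hg
        rw [hg v]
        simp only [MultilinearMap.smul_apply, ← Finset.smul_sum, zero_of_tateVector hY hz,
          smul_zero]
      | zero => simp
      | add g g' _ _ ih ih' =>
        simp only [AlternatingMap.add_apply, MultilinearMap.add_apply, Finset.sum_add_distrib, ih,
          ih', add_zero]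
      | smul t g _ ih =>
        simp only [AlternatingMap.smul_apply, MultilinearMap.smul_apply, ← Finset.smul_sum, ih,
          smul_zero]
    have h3 := h1 fun l => Pi.single (e l) (x (e l))
    have h4 := h2 fun l => Pi.single (e l) (x (e l))
    rw [hF2] at h4
    have h5 : ∀ l, F (Function.update (fun l => Pi.single (e l) (x (e l))) l
        (dg (2 * m) X (Pi.single (e l) (x (e l))))) =
        f (Function.update x (e l) (X (x (e l)))) := by
      intro l
      rw [← hF2]
      congr 1
      funext l'
      by_cases hl : l' = l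
      · subst hl
        rw [Function.update_self, Function.update_self]
        funext i
        show X ((Pi.single (e l') (x (e l')) : Fin (2 * m) → V) i) = _
        by_cases hi : i = e l'
        · subst hi; rw [Pi.single_eq_same, Pi.single_eq_same]
        · rw [Pi.single_eq_of_ne hi, Pi.single_eq_of_ne hi, map_zero]
      · rw [Function.update_of_ne hl, Function.update_of_ne (fun h => hl (e.injective h))]
    simp only [h5] at h3
    rw [Equiv.sum_comp e fun i => f (Function.update x i (X (x i)))] at h3
    have h6 := congrArg (fun φ : MultilinearMap k (fun _ : Fin b => W) k => φ y) h3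
    simp only [MultilinearMap.sum_apply, MultilinearMap.zero_apply] at h6
    rw [h6, h4, add_zero]
  · subst hm
    obtain ⟨F, hF1, hF2⟩ := hALT k V (MultilinearMap k (fun _ : Fin b => W) k) (2 * m + 1)
      (Fin (2 * m + 1)) (Equiv.refl _) f
    have hT := isTateMap hf (Equiv.refl _) F hF1
    have hF0 := (hP b (2 * m + 1) m c).2 F hT
    have hf0 : ∀ x, f x = 0 := by
      intro x
      rw [← hF2, hF0]
      rfl
    simp [hf0]

end Pool.Agent.N197.QF
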