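import Pool.Agent.N197.QF.Stm3

/-!
# Project QF, task TR: transport of the Lie algebra of the Tate tensors (helper67)
-/

set_option autoImplicit false

open Module Matrix Filter Topology

namespace Pool.Agent.N197.QF

namespace TRx

theorem one_dir {k U U' G : Type} [Field k] [AddCommGroup U] [Module k U] [AddCommGroup U']
    [Module k U'] [Group G] (ρ : Representation k G U) (ρ' : Representation k G U') (χ : G →* k)
    (E : U ≃ₗ[k] U') (hE : ∀ g u, E (ρ g u) = ρ' g (E u)) (T : Module.End k U)
    (T' : Module.End k U') (hT : ∀ u, E (T u) = T' (E u)) (h : InLie ρ χ T) : InLie ρ' χ T' := by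
  rintro a c f' ⟨Δ, hΔ, hf⟩ u'
  have h1 := h a c (f'.compLinearMap (fun _ => (E : U →ₗ[k] U'))) ⟨Δ, hΔ, ?_⟩
    (fun i => E.symm (u' i))
  · rw [← h1]
    apply Finset.sum_congr rfl
    intro i _
    rw [MultilinearMap.compLinearMap_apply]
    congr 1
    funext j
    by_cases hj : j = i
    · subst hj
      simp [hT]
    · simp [Function.update_of_ne hj]
  · intro s hs u
    rw [MultilinearMap.compLinearMap_apply, MultilinearMap.compLinearMap_apply]
    have h2 := hf s hs (fun i => E (u i))
    have h3 : (fun i => (E : U →ₗ[k] U') (ρ s (u i))) = fun i => ρ' s (E (u i)) := by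
      funext i
      exact hE s (u i)
    rw [h3, h2]
    rfl

end TRx

theorem t_TR : S_TR := by
  intro k _ U U' G _ _ _ _ _ ρ ρ' χ E hE T T' hT
  constructor
  · exact TRx.one_dir ρ ρ' χ E hE T T' hT
  · refine TRx.one_dir ρ' ρ χ E.symm ?_ T' T ?_
    · intro g u
      apply E.injective
      rw [E.apply_symm_apply, hE, E.apply_symm_apply]
    · intro u
      apply E.injective
      rw [E.apply_symm_apply, hT, E.apply_symm_apply]

end Pool.Agent.N197.QF
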