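import Pool.Agent.N197.QF.Stm2

/-!
# Project QF (helper197): statements of the tasks, third part
-/

set_option autoImplicit false

open Module Matrix Filter Topology

namespace Pool.Agent.N197.QF

/-- task TR: transport of the Lie algebra of the Tate tensors by an isomorphism -/
def S_TR : Prop := ∀ (k : Type) [Field k] (U U' G : Type) [AddCommGroup U] [Module k U]
  [AddCommGroup U'] [Module k U'] [Group G] (ρ : Representation k G U) (ρ' : Representation k G U')
  (χ : G →* k) (E : U ≃ₗ[k] U'), (∀ g u, E (ρ g u) = ρ' g (E u)) →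
  ∀ (T : Module.End k U) (T' : Module.End k U'), (∀ u, E (T u) = T' (E u)) →
    (InLie ρ χ T ↔ InLie ρ' χ T')

/-- task SCAL: matrices which commute with a subgroup of finite index are scalars if all elements of the
symplectic Lie algebra are tangent vectors -/
def S_SCAL : Prop := ∀ (n : ℕ) (J : Matrix (Fin n) (Fin n) ℚ_[2]), Jᵀ = -J → J.det ≠ 0 →
  ∀ (G : Type) [Group G] (r : G →* Matrix (Fin n) (Fin n) ℚ_[2]),
  (∀ X : Matrix (Fin n) (Fin n) ℚ_[2], Xᵀ * J + J * X = 0 → ∃ σ : ℕ → G,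
    Tendsto (fun m : ℕ => (((2 : ℕ) : ℚ_[2]) ^ m)⁻¹ • (r (σ m) - 1)) atTop (𝓝 X)) →
  ∀ (T : Matrix (Fin n) (Fin n) ℚ_[2]) (Δ : Subgroup G), Δ.FiniteIndex →
    (∀ g ∈ Δ, T * r g = r g * T) → ∃ c : ℚ_[2], T = c • 1

end Pool.Agent.N197.QF
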