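import Pool.Agent.N197.QF.Prod
import Pool.Agent.N197.QF.Stm3
import Pool.Agent.N197.QF.L_ALT
import Pool.Agent.N197.QF.L_LEIB
import Pool.Agent.N197.QF.L_TENS
import Pool.Agent.N197.QF.L_DEC
import Pool.Agent.N197.QF.L_CONV
import Pool.Agent.N197.QF.L_SPX
import Pool.Agent.N197.QF.L_BC
import Pool.Agent.N197.QF.L_TR
import Pool.Agent.N197.QF.L_SCAL

/-!
# Project QF: the Lie algebra of the Tate tensors of a product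
-/

set_option autoImplicit false

open Polynomial Filter Topology NumberField IsDedekindDomain Module Matrix
open Pool.Agent.Y142.ZO Pool.Agent.Y142.ZI Pool.Agent.Y142.ZS
open Pool.Agent.N166.CZ (IsTateModule ProductsWith)
open Pool.Agent.H204R3.GP (FiniteIndexSemisimple)
open Pool.Agent.N197.AP

namespace Pool.Agent.N197.QF

/-- forms of degree two are multiples of the polarization if the commutant consists of scalars -/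
theorem form_of_scal {k G : Type} [Field k] [Group G] {n : ℕ} (J : Matrix (Fin n) (Fin n) k)
    (hdet : J.det ≠ 0) (r : G →* Matrix (Fin n) (Fin n) k) (χ : G →* k)
    (h : ∀ g, (r g)ᵀ * J * r g = χ g • J)
    (hs : ∀ T : Matrix (Fin n) (Fin n) k,
      (∃ Δ : Subgroup G, Δ.FiniteIndex ∧ ∀ g ∈ Δ, T * r g = r g * T) → ∃ c : k, T = c • 1)
    (B : (Fin n → k) →ₗ[k] (Fin n → k) →ₗ[k] k) (hB : TateTwo (matRep r) (matRep r) χ B) :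
    ∃ c : k, ∀ x y, B x y = c * (x ⬝ᵥ J *ᵥ y) := by
  obtain ⟨Δ, hΔ, hB⟩ := hB
  obtain ⟨M, hM⟩ : ∃ M : Matrix (Fin n) (Fin n) k, ∀ x y, B x y = x ⬝ᵥ M *ᵥ y := by
    exact ⟨LinearMap.toMatrix₂' k B, fun x y => by
      rw [← Matrix.toLinearMap₂'_apply', Matrix.toLinearMap₂'_toMatrix']⟩
  have hunit : IsUnit J.det := Ne.isUnit hdet
  suffices hcomm : ∀ g ∈ Δ, (J⁻¹ * M) * r g = r g * (J⁻¹ * M) by
    obtain ⟨c, hc⟩ := hs (J⁻¹ * M) ⟨Δ, hΔ, hcomm⟩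
    refine ⟨c, fun x y => ?_⟩
    have h1 : M = c • J := by
      calc M = J * (J⁻¹ * M) := by rw [← Matrix.mul_assoc, Matrix.mul_nonsing_inv _ hunit,
              Matrix.one_mul]
        _ = c • J := by rw [hc, Matrix.mul_smul, Matrix.mul_one]
    rw [hM, h1, Matrix.smul_mulVec, dotProduct_smul, smul_eq_mul]
  · intro g hg
    have h1 : (r g)ᵀ * M * r g = χ g • M := by
      refine Matrix.ext fun i j => ?_
      have h2 := hB g hg (Pi.single i 1) (Pi.single j 1)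
      rw [hM, hM] at h2
      change (r g *ᵥ Pi.single i 1) ⬝ᵥ M *ᵥ (r g *ᵥ Pi.single j 1) = _ at h2
      have h3 : (r g *ᵥ Pi.single i 1) ⬝ᵥ M *ᵥ (r g *ᵥ Pi.single j 1) =
          (Pi.single i 1 : Fin n → k) ⬝ᵥ (((r g)ᵀ * M * r g) *ᵥ Pi.single j 1) := by
        rw [← Matrix.mulVec_mulVec, ← Matrix.mulVec_mulVec,
          Matrix.dotProduct_mulVec (Pi.single i 1 : Fin n → k), Matrix.vecMul_transpose]
      rw [h3] at h2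
      simpa using h2
    have h4 : IsUnit (((r g)ᵀ * J).det) := by
      have h5 : IsUnit (r g).det := by
        have h6 : r g * r g⁻¹ = 1 := by rw [← map_mul, mul_inv_cancel, map_one]
        exact (Matrix.isUnit_iff_isUnit_det _).1 (IsUnit.of_mul_eq_one _ h6)
      rw [Matrix.det_mul, Matrix.det_transpose]
      exact h5.mul hunit
    have h7 : (r g)ᵀ * J * (J⁻¹ * M * r g) = (r g)ᵀ * J * (r g * (J⁻¹ * M)) := by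
      calc (r g)ᵀ * J * (J⁻¹ * M * r g) = (r g)ᵀ * (J * J⁻¹) * M * r g := by
            simp only [Matrix.mul_assoc]
        _ = χ g • M := by rw [Matrix.mul_nonsing_inv _ hunit, Matrix.mul_one, h1]
        _ = χ g • ((J * J⁻¹) * M) := by rw [Matrix.mul_nonsing_inv _ hunit, Matrix.one_mul]
        _ = ((r g)ᵀ * J * r g) * (J⁻¹ * M) := by
            rw [h, Matrix.smul_mul, Matrix.mul_assoc]
        _ = (r g)ᵀ * J * (r g * (J⁻¹ * M)) := by simp only [Matrix.mul_assoc]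
    have h8 := congrArg (fun A => (((r g)ᵀ * J)⁻¹) * A) h7
    rwa [← Matrix.mul_assoc, ← Matrix.mul_assoc (((r g)ᵀ * J)⁻¹) ((r g)ᵀ * J) (r g * (J⁻¹ * M)),
      Matrix.nonsing_inv_mul _ h4, Matrix.one_mul, Matrix.one_mul] at h8

/-- **the Lie algebra of the Tate tensors of a product** -/
theorem lie_prod {K : Type} [Field K] [NumberField K] {ι : Type} [Fintype ι] [Nonempty ι]
    [DecidableEq ι] {N : ι → ℕ} {d m : ℕ} {w : ℤ}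
    (S : Set (HeightOneSpectrum (𝓞 K))) (hS : S.Finite)
    (P : ι → HeightOneSpectrum (𝓞 K) → ℚ[X]) (Q : HeightOneSpectrum (𝓞 K) → ℚ[X])
    (hP : ∀ v ∉ S, ∀ i, ∀ z : ℂ, aeval z (P i v) = 0 →
      ‖z‖ ^ 2 = (Ideal.absNorm v.asIdeal : ℝ) ∧ IsIntegral ℤ ((Ideal.absNorm v.asIdeal : ℂ) ^ m * z))
    (hQ : ∀ v ∉ S, ∀ z : ℂ, aeval z (Q v) = 0 →
      ‖z‖ ^ 2 = (Ideal.absNorm v.asIdeal : ℝ) ^ w ∧
        IsIntegral ℤ ((Ideal.absNorm v.asIdeal : ℂ) ^ m * z))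
    (χ : ∀ (ℓ : ℕ) [Fact ℓ.Prime], GK K →* ℚ_[ℓ])
    (J : ∀ (i : ι) (ℓ : ℕ) [Fact ℓ.Prime], Matrix (Fin (N i)) (Fin (N i)) ℚ_[ℓ])
    (r : ∀ (i : ι) (ℓ : ℕ) [Fact ℓ.Prime], GK K →* Matrix (Fin (N i)) (Fin (N i)) ℚ_[ℓ])
    (hr : ∀ (i : ι) (ℓ : ℕ) [Fact ℓ.Prime], Continuous (r i ℓ))
    (hJ : ∀ (i : ι) (ℓ : ℕ) [Fact ℓ.Prime], (J i ℓ)ᵀ = -J i ℓ)
    (hdet : ∀ (i : ι) (ℓ : ℕ) [Fact ℓ.Prime], (J i ℓ).det ≠ 0)
    (hsim : ∀ (i : ι) (ℓ : ℕ) [Fact ℓ.Prime] (g : GK K),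
      (r i ℓ g)ᵀ * J i ℓ * r i ℓ g = χ ℓ g • J i ℓ)
    (hχ : ∀ (ℓ : ℕ) [Fact ℓ.Prime], ∀ v ∉ S, (ℓ : 𝓞 K) ∉ v.asIdeal → ∀ σ : GK K,
      IsFrobenius v σ → χ ℓ σ = (Ideal.absNorm v.asIdeal : ℚ_[ℓ]))
    (hfrob : ∀ (i : ι) (ℓ : ℕ) [Fact ℓ.Prime], ∀ v ∉ S, (ℓ : 𝓞 K) ∉ v.asIdeal → ∀ σ : GK K,
      IsFrobenius v σ → (r i ℓ σ).charpoly = (P i v).map (Rat.castHom ℚ_[ℓ]))
    (e : ∀ i, Fin (N i + 1) → Fin (N i) → ℚ_[2]) (h6 : ∀ i, 6 ≤ N i)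
    (hint : ∀ i g a b, ‖r i 2 g a b‖ ≤ 1) (hJint : ∀ i a b, ‖J i 2 a b‖ ≤ 1)
    (heint : ∀ i a b, ‖e i a b‖ ≤ 1)
    (he : ∀ i a b, a ≠ b → ‖e i a ⬝ᵥ J i 2 *ᵥ e i b‖ = 1)
    (hbig : ∀ i (π : Equiv.Perm (Fin (N i + 1))), Equiv.Perm.sign π = 1 → ∃ g,
      (∀ a b, ‖(r i 2 g *ᵥ e i a - e i (π a)) b‖ < 1) ∧
      ∀ j, j ≠ i → ∀ a b, ‖(r j 2 g - 1) a b‖ < 1)
    (R : ∀ (ℓ : ℕ) [Fact ℓ.Prime], GK K →* Matrix (Fin d) (Fin d) ℚ_[ℓ]) (hR : Continuous (R 2))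
    (htint : ∀ g a b, ‖R 2 g a b‖ ≤ 1)
    (ht : ∀ i, 2 ^ (d ^ 2 + 1) < (N i + 1).factorial ∨
      ∃ (g : GK K) (π : ∀ j, Equiv.Perm (Fin (N j + 1))), (∀ a b, ‖(R 2 g - 1) a b‖ < 1) ∧ π i ≠ 1 ∧
        ∀ j a b, ‖(r j 2 g *ᵥ e j a - e j (π j a)) b‖ < 1)
    (hRQ : ∀ (ℓ : ℕ) [Fact ℓ.Prime], ∀ v ∉ S, (ℓ : 𝓞 K) ∉ v.asIdeal → ∀ σ : GK K,
      IsFrobenius v σ → (R ℓ σ).charpoly = (Q v).map (Rat.castHom ℚ_[ℓ]))
    (ℓ : ℕ) [hℓ : Fact ℓ.Prime] (hss : ∀ i, FiniteIndexSemisimple (matRep (r i ℓ)))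
    (hsc : ∀ i, ∀ T : Matrix (Fin (N i)) (Fin (N i)) ℚ_[ℓ],
      (∃ Δ : Subgroup (GK K), Δ.FiniteIndex ∧ ∀ g ∈ Δ, T * r i ℓ g = r i ℓ g * T) →
        ∃ c : ℚ_[ℓ], T = c • 1)
    (φ : (Fin d → ℚ_[ℓ]) →ₗ[ℚ_[ℓ]] (Fin d → ℚ_[ℓ]) →ₗ[ℚ_[ℓ]] ℚ_[ℓ]) (c : ℤ)
    (hφ : ∀ u, (∀ v, φ u v = 0) → u = 0)
    (hφ' : ∀ s u v, φ (matRep (R ℓ) s u) (matRep (R ℓ) s v) = χ ℓ s ^ c * φ u v)
    (T : Module.End ℚ_[ℓ] ((∀ i, Fin (N i) → ℚ_[ℓ]) × (Fin d → ℚ_[ℓ]))) :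
    InLie (prodRep (piRepr fun i => matRep (r i ℓ)) (matRep (R ℓ))) (χ ℓ) T ↔
      ∃ (Z : ∀ i, Matrix (Fin (N i)) (Fin (N i)) ℚ_[ℓ]) (Y : Module.End ℚ_[ℓ] (Fin d → ℚ_[ℓ])),
        (∀ i, (Z i)ᵀ * J i ℓ + J i ℓ * Z i = 0) ∧ InLie (matRep (R ℓ)) (χ ℓ) Y ∧
        ∀ x y, T (x, y) = (fun i => Z i *ᵥ x i, Y y) := by
  obtain ⟨-, ⟨ω, hω1, hω2, hω3⟩, -⟩ := t_PI t_SUM ι N ℚ_[ℓ] (GK K) (fun i => r i ℓ)
    (fun i => J i ℓ) (χ ℓ) (fun i => hJ i ℓ) (fun i => hdet i ℓ) (fun i g => hsim i ℓ g)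
  have hω4 : ∀ u v, ω u v = -ω v u := by
    intro u v
    have h := hω1 (u + v)
    simp only [map_add, LinearMap.add_apply] at h
    rw [hω1 u, hω1 v, zero_add, add_zero] at h
    exact eq_neg_of_add_eq_zero_right h
  have hcross : ∀ i j, i ≠ j → ∀ B : (Fin (N i) → ℚ_[ℓ]) →ₗ[ℚ_[ℓ]] (Fin (N j) → ℚ_[ℓ]) →ₗ[ℚ_[ℓ]]
      ℚ_[ℓ], TateTwo (matRep (r i ℓ)) (matRep (r j ℓ)) (χ ℓ) B → B = 0 := by
    intro i j hij B hB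
    obtain ⟨Δ, hΔ, hB'⟩ := hB
    refine fin3x (d := 0) (w := 0) S hS P (fun _ => 1) hP (fun v hv z hz => ?_) χ J r hr hJ hdet
      hsim hχ hfrob e h6 hint hJint heint he hbig 1 continuous_const (fun _ a => a.elim0)
      (fun i => Or.inl ?_) (fun v hv hv2 σ hσ => ?_) ℓ hij B Δ hΔ hB'
    · rw [map_one] at hz
      exact absurd hz one_ne_zero
    · have h1 : 7 ≤ N i + 1 := by have := h6 i; omega
      calc 2 ^ (0 ^ 2 + 1) = 2 := by norm_num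
        _ < Nat.factorial 7 := by decide
        _ ≤ (N i + 1).factorial := Nat.factorial_le h1
    · rw [Polynomial.map_one]
      exact Matrix.charpoly_isEmpty
  have hspx := t_SPX ℚ_[ℓ] (GK K) ι N (fun i => matRep (r i ℓ)) (fun i => J i ℓ) (χ ℓ)
    (piRepr fun i => matRep (r i ℓ)) (fun g x i => rfl) (fun i => hJ i ℓ) (fun i => hdet i ℓ)
    (fun i g x y => by
      have h1 : ((r i ℓ g)ᵀ * J i ℓ * r i ℓ g) *ᵥ y = χ ℓ g • J i ℓ *ᵥ y := by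
        rw [hsim, Matrix.smul_mulVec]
      calc (r i ℓ g *ᵥ x) ⬝ᵥ J i ℓ *ᵥ (r i ℓ g *ᵥ y) =
          x ⬝ᵥ (((r i ℓ g)ᵀ * J i ℓ * r i ℓ g) *ᵥ y) := by
            rw [← Matrix.mulVec_mulVec, ← Matrix.mulVec_mulVec, Matrix.dotProduct_mulVec x,
              Matrix.vecMul_transpose]
        _ = χ ℓ g * (x ⬝ᵥ J i ℓ *ᵥ y) := by rw [h1, dotProduct_smul, smul_eq_mul])
    (fun i B hB => form_of_scal (J i ℓ) (hdet i ℓ) (r i ℓ) (χ ℓ) (fun g => hsim i ℓ g) (hsc i) B hB)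
    hcross
  constructor
  · intro hT
    obtain ⟨X, Y, hXY, hX, hY⟩ := t_CONV ℚ_[ℓ] _ _ (GK K) (piRepr fun i => matRep (r i ℓ))
      (matRep (R ℓ)) (χ ℓ) ω φ c (fun u hu => hω2 u fun v => by rw [hω4, hu, neg_zero]) hω3 hφ hφ'
      T hT
    obtain ⟨Z, hZ, hZ'⟩ := (hspx X).1 hX
    refine ⟨Z, Y, hZ, hY, fun x y => ?_⟩
    rw [hXY]
    refine Prod.ext (funext fun i => hZ' x i) rfl
  · rintro ⟨Z, Y, hZ, hY, hT⟩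
    let X : Module.End ℚ_[ℓ] (∀ i, Fin (N i) → ℚ_[ℓ]) :=
      LinearMap.pi fun i => (Matrix.toLin' (Z i)).comp (LinearMap.proj i)
    have hX : Kills2 (piRepr fun i => matRep (r i ℓ)) (χ ℓ) X :=
      (hspx X).2 ⟨Z, hZ, fun x i => rfl⟩
    have hTX : T = LinearMap.prodMap X Y := by
      refine LinearMap.ext fun u => ?_
      obtain ⟨x, y⟩ := u
      rw [hT]
      rfl
    rw [hTX]
    exact t_DEC ℚ_[ℓ] _ _ (GK K) _ _ (χ ℓ) X Y (t_TENS t_ALT t_LEIB ℚ_[ℓ] _ _ (GK K) _ _ (χ ℓ)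
      (fun b => prodW S hS P Q hP hQ χ J r hr hJ hdet hsim hχ hfrob e h6 hint hJint heint he hbig
        R hR htint ht hRQ ℓ hss b) X Y hX hY)

end Pool.Agent.N197.QF
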