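import Pool.Agent.N197.QF.Mat

/-!
# Project QF: the final theorems
-/

set_option autoImplicit false

open Polynomial Filter Topology NumberField IsDedekindDomain Module Matrix
open Pool.Agent.Y142.ZO Pool.Agent.Y142.ZI Pool.Agent.Y142.ZS
open Pool.Agent.H204R3.GP (FiniteIndexSemisimple)
open Pool.Agent.N197.AP

namespace Pool.Agent.N197.QF

/-- endomorphisms over the rational numbers which are scalars at two are scalars at all primes -/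
theorem scal_all {n : ℕ} (hn : 0 < n) {G : Type} [Group G] (E : Set (Matrix (Fin n) (Fin n) ℚ))
    (r : ∀ (ℓ : ℕ) [Fact ℓ.Prime], G →* Matrix (Fin n) (Fin n) ℚ_[ℓ])
    (hE : ∀ (ℓ : ℕ) [Fact ℓ.Prime] (T : Matrix (Fin n) (Fin n) ℚ_[ℓ]),
      (∃ Δ : Subgroup G, Δ.FiniteIndex ∧ ∀ g ∈ Δ, T * r ℓ g = r ℓ g * T) ↔
        T ∈ Submodule.span ℚ_[ℓ] ((fun t : Matrix (Fin n) (Fin n) ℚ =>
          t.map (Rat.castHom ℚ_[ℓ])) '' E))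
    (h2 : ∀ T : Matrix (Fin n) (Fin n) ℚ_[2],
      (∃ Δ : Subgroup G, Δ.FiniteIndex ∧ ∀ g ∈ Δ, T * r 2 g = r 2 g * T) → ∃ c : ℚ_[2], T = c • 1)
    (ℓ : ℕ) [Fact ℓ.Prime] (T : Matrix (Fin n) (Fin n) ℚ_[ℓ])
    (hT : ∃ Δ : Subgroup G, Δ.FiniteIndex ∧ ∀ g ∈ Δ, T * r ℓ g = r ℓ g * T) :
    ∃ c : ℚ_[ℓ], T = c • 1 := by
  have h3 : ∀ z ∈ E, ∃ q : ℚ, z = q • 1 := by
    intro z hz
    obtain ⟨c, hc⟩ := h2 _ ((hE 2 (z.map (Rat.castHom ℚ_[2]))).2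
      (Submodule.subset_span ⟨z, hz, rfl⟩))
    have h4 : ∀ a b, ((z a b : ℚ) : ℚ_[2]) = (c • (1 : Matrix (Fin n) (Fin n) ℚ_[2])) a b := by
      intro a b
      rw [← hc]
      rfl
    refine ⟨z ⟨0, hn⟩ ⟨0, hn⟩, Matrix.ext fun a b => ?_⟩
    by_cases hab : a = b
    · subst hab
      have h5 : ((z a a : ℚ) : ℚ_[2]) = ((z ⟨0, hn⟩ ⟨0, hn⟩ : ℚ) : ℚ_[2]) := by
        rw [h4, h4]
        simp
      have h6 : z a a = z ⟨0, hn⟩ ⟨0, hn⟩ := by exact_mod_cast h5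
      simp [h6]
    · have h5 : ((z a b : ℚ) : ℚ_[2]) = 0 := by
        rw [h4]
        simp [Matrix.one_apply_ne hab]
      have h6 : z a b = 0 := by exact_mod_cast h5
      simp [h6, Matrix.one_apply_ne hab]
  have h4 := (hE ℓ T).1 hT
  have h5 : T ∈ Submodule.span ℚ_[ℓ] {(1 : Matrix (Fin n) (Fin n) ℚ_[ℓ])} := by
    refine Submodule.span_le.2 ?_ h4
    rintro _ ⟨z, hz, rfl⟩
    obtain ⟨q, rfl⟩ := h3 z hz
    refine Submodule.mem_span_singleton.2 ⟨(q : ℚ_[ℓ]), ?_⟩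
    refine Matrix.ext fun a b => ?_
    by_cases hab : a = b
    · subst hab
      simp
    · simp [Matrix.one_apply_ne hab]
  obtain ⟨c, hc⟩ := Submodule.mem_span_singleton.1 h5
  exact ⟨c, hc.symm⟩

/-- the bilinear form of a matrix -/
theorem polar {k G : Type} [Field k] [Group G] {d : ℕ} (J : Matrix (Fin d) (Fin d) k)
    (hJ : J.det ≠ 0) (r : G →* Matrix (Fin d) (Fin d) k) (χ : G →* k) (c : ℤ)
    (h : ∀ g, (r g)ᵀ * J * r g = χ g ^ c • J) :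
    ∃ φ : (Fin d → k) →ₗ[k] (Fin d → k) →ₗ[k] k, (∀ u, (∀ v, φ u v = 0) → u = 0) ∧
      ∀ s u v, φ (matRep r s u) (matRep r s v) = χ s ^ c * φ u v := by
  refine ⟨Matrix.toLinearMap₂' k J, fun u hu => ?_, fun s u v => ?_⟩
  · have h1 : ∀ v, (u ᵥ* J) ⬝ᵥ v = 0 := fun v => by
      rw [← Matrix.dotProduct_mulVec, ← Matrix.toLinearMap₂'_apply']
      exact hu v
    have h2 : u ᵥ* J = 0 := dotProduct_eq_zero _ h1
    exact Matrix.eq_zero_of_vecMul_eq_zero hJ h2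
  · rw [Matrix.toLinearMap₂'_apply', Matrix.toLinearMap₂'_apply']
    calc (r s *ᵥ u) ⬝ᵥ J *ᵥ (r s *ᵥ v) = u ⬝ᵥ (((r s)ᵀ * J * r s) *ᵥ v) := by
            rw [← Matrix.mulVec_mulVec, ← Matrix.mulVec_mulVec, Matrix.dotProduct_mulVec u,
              Matrix.vecMul_transpose]
      _ = χ s ^ c * (u ⬝ᵥ J *ᵥ v) := by
            rw [h, Matrix.smul_mulVec, dotProduct_smul, smul_eq_mul]

/-- at the prime number two the endomorphisms are scalars -/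
theorem scal_two {Γ : Type} [Group Γ] {ι : Type} [Fintype ι] [DecidableEq ι] {N : ι → ℕ} {d : ℕ}
    (J : ∀ i, Matrix (Fin (N i)) (Fin (N i)) ℚ_[2])
    (r : ∀ i, Γ →* Matrix (Fin (N i)) (Fin (N i)) ℚ_[2]) (χ : Γ →* ℚ_[2])
    (hJ : ∀ i, (J i)ᵀ = -J i) (hdet : ∀ i, (J i).det ≠ 0)
    (hsim : ∀ i g, (r i g)ᵀ * J i * r i g = χ g • J i)
    (e : ∀ i, Fin (N i + 1) → Fin (N i) → ℚ_[2]) (h6 : ∀ i, 6 ≤ N i)
    (hint : ∀ i g a b, ‖r i g a b‖ ≤ 1) (hJint : ∀ i a b, ‖J i a b‖ ≤ 1)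
    (heint : ∀ i a b, ‖e i a b‖ ≤ 1)
    (he : ∀ i a b, a ≠ b → ‖e i a ⬝ᵥ J i *ᵥ e i b‖ = 1)
    (hbig : ∀ i (π : Equiv.Perm (Fin (N i + 1))), Equiv.Perm.sign π = 1 → ∃ g,
      (∀ a b, ‖(r i g *ᵥ e i a - e i (π a)) b‖ < 1) ∧
      ∀ j, j ≠ i → ∀ a b, ‖(r j g - 1) a b‖ < 1)
    (t : Γ →* Matrix (Fin d) (Fin d) ℚ_[2]) (htint : ∀ g a b, ‖t g a b‖ ≤ 1)
    (ht : ∀ i, 2 ^ (d ^ 2 + 1) < (N i + 1).factorial ∨
      ∃ (g : Γ) (π : ∀ j, Equiv.Perm (Fin (N j + 1))), (∀ a b, ‖(t g - 1) a b‖ < 1) ∧ π i ≠ 1 ∧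
        ∀ j a b, ‖(r j g *ᵥ e j a - e j (π j a)) b‖ < 1)
    (i : ι) (T : Matrix (Fin (N i)) (Fin (N i)) ℚ_[2])
    (hT : ∃ Δ : Subgroup Γ, Δ.FiniteIndex ∧ ∀ g ∈ Δ, T * r i g = r i g * T) :
    ∃ c : ℚ_[2], T = c • 1 := by
  obtain ⟨Δ, hΔ, hT⟩ := hT
  refine t_SCAL (N i) (J i) (hJ i) (hdet i) Γ (r i) (fun X hX => ?_) T Δ hΔ hT
  obtain ⟨σ, h1, -⟩ := Pool.Agent.N171.TG.wtan_of_large r J (fun _ => χ)
    (fun i => Pool.Agent.R932.OP.even_of_alt (hJ i) (hdet i)) h6 hJ hint hJint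
    (fun i g => hsim i g) e heint he hbig t htint ht (Function.update (fun _ => 0) i X) (fun j => by
      by_cases hj : j = i
      · subst hj
        rw [Function.update_self]
        exact hX
      · rw [Function.update_of_ne hj]
        show (0 : Matrix _ _ ℚ_[2])ᵀ * J j + J j * 0 = 0
        simp)
  have h2 := h1 i
  rw [Function.update_self] at h2
  exact ⟨σ, h2⟩

end Pool.Agent.N197.QF
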