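import Pool.Agent.N197.QF.Stm

/-!
# Project QF (helper197), task G2: the core, with light imports (helper519)
-/

set_option autoImplicit false

open Module Matrix Filter Topology Polynomial

namespace Pool.Agent.N197.QF

namespace G2aux

variable {k : Type} [Field k] {d : ℕ}

/-- the matrix `Yᵀ * J`, as a vector -/
def L (J : Matrix (Fin d) (Fin d) k) : Matrix (Fin d) (Fin d) k →ₗ[k] ((Fin 2 → Fin d) → k) where
  toFun Y := fun u => (Yᵀ * J) (u 0) (u 1)
  map_add' Y Z := by
    funext u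
    rw [Matrix.transpose_add, Matrix.add_mul]
    rfl
  map_smul' c Y := by
    funext u
    rw [Matrix.transpose_smul, Matrix.smul_mul]
    rfl

theorem L_inj {J : Matrix (Fin d) (Fin d) k} (hJ : J.det ≠ 0) {Y : Matrix (Fin d) (Fin d) k}
    (h : L J Y = 0) : Y = 0 := by
  have h1 : Yᵀ * J = 0 := by
    ext i j
    have h2 := congrFun h ![i, j]
    exact h2
  have hu : IsUnit J := (Matrix.isUnit_iff_isUnit_det J).2 (isUnit_iff_ne_zero.2 hJ)
  have h3 : Yᵀ = 0 := by
    obtain ⟨P, hP⟩ := hu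
    have h4 : Yᵀ * J * ((P⁻¹ : (Matrix (Fin d) (Fin d) k)ˣ) : Matrix (Fin d) (Fin d) k) = 0 := by
      rw [h1, Matrix.zero_mul]
    rw [← hP, Matrix.mul_assoc, Units.mul_inv, Matrix.mul_one] at h4
    exact h4
  rw [← Matrix.transpose_transpose Y, h3, Matrix.transpose_zero]

/-- the action on the vectors -/
theorem kp_mulVec (A M : Matrix (Fin d) (Fin d) k) (v : Fin 2 → Fin d) :
    ((kp 2 A)ᵀ *ᵥ fun u => M (u 0) (u 1)) v = (Aᵀ * M * A) (v 0) (v 1) := by
  rw [Matrix.mulVec, dotProduct]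
  have h1 : ∀ u : Fin 2 → Fin d, (kp 2 A)ᵀ v u * M (u 0) (u 1) =
      A (u 0) (v 0) * A (u 1) (v 1) * M (u 0) (u 1) := by
    intro u
    rw [Matrix.transpose_apply]
    change (∏ k, A (u k) (v k)) * _ = _
    rw [Fin.prod_univ_two]
  rw [Finset.sum_congr rfl fun u _ => h1 u]
  rw [Fintype.sum_equiv (finTwoArrowEquiv (Fin d))
    (fun u => A (u 0) (v 0) * A (u 1) (v 1) * M (u 0) (u 1))
    (fun p => A p.1 (v 0) * A p.2 (v 1) * M p.1 p.2) (fun u => rfl), Fintype.sum_prod_type]
  simp only [Matrix.mul_apply, Matrix.transpose_apply, Finset.sum_mul]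
  rw [Finset.sum_comm]
  refine Finset.sum_congr rfl fun j _ => Finset.sum_congr rfl fun i _ => ?_
  ring

theorem main {k : Type} [Field k] [CharZero k] {d : ℕ} {A A' J : Matrix (Fin d) (Fin d) k}
    {c : k} {Q Q' : ℚ[X]} (D : Module.End k (Matrix (Fin d) (Fin d) k))
    (hD : ∀ Y, D Y = c • (A' * Y * A)) (hA : A' * A = 1) (hJ : Aᵀ * J * A = c • J)
    (hdet : J.det ≠ 0) (hQ : IsPower 2 d Q Q') (hch : A.charpoly = Q.map (Rat.castHom k)) :
    aeval D (Q'.map (Rat.castHom k)) = 0 := by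
  classical
  have hA2 : A * A' = 1 := mul_eq_one_comm.1 hA
  -- the relation of `J * A` and `J`
  have hJA : J * A = c • (A'ᵀ * J) := by
    have h1 : A'ᵀ * Aᵀ = 1 := by
      rw [← Matrix.transpose_mul, hA2, Matrix.transpose_one]
    calc J * A = (A'ᵀ * Aᵀ) * (J * A) := by rw [h1, Matrix.one_mul]
      _ = A'ᵀ * (Aᵀ * J * A) := by simp only [Matrix.mul_assoc]
      _ = c • (A'ᵀ * J) := by rw [hJ, Matrix.mul_smul]
  obtain ⟨T, hT⟩ : ∃ T : Module.End k ((Fin 2 → Fin d) → k), T = Matrix.toLin' (kp 2 A)ᵀ :=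
    ⟨_, rfl⟩
  have hcomm : ∀ Y, L J (D Y) = T (L J Y) := by
    intro Y
    funext v
    rw [hT, Matrix.toLin'_apply]
    change ((D Y)ᵀ * J) (v 0) (v 1) =
      ((kp 2 A)ᵀ *ᵥ fun u => (Yᵀ * J) (u 0) (u 1)) v
    rw [kp_mulVec]
    have h1 : (D Y)ᵀ * J = Aᵀ * (Yᵀ * J) * A := by
      rw [hD Y, Matrix.mul_assoc Aᵀ, Matrix.mul_assoc Yᵀ, hJA]
      simp only [Matrix.transpose_smul, Matrix.transpose_mul, Matrix.smul_mul, Matrix.mul_smul,
        Matrix.mul_assoc]
    rw [h1]
  have hpow : ∀ (p : k[X]) (Y : Matrix (Fin d) (Fin d) k),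
      L J (aeval (D) p Y) = aeval T p (L J Y) := by
    intro p
    induction p using Polynomial.induction_on' with
    | add p q hp hq =>
      intro Y
      rw [map_add, map_add, LinearMap.add_apply, LinearMap.add_apply, map_add, hp, hq]
    | monomial n a =>
      intro Y
      rw [aeval_monomial, aeval_monomial, Module.End.mul_apply, Module.End.mul_apply,
        Module.algebraMap_end_apply, Module.algebraMap_end_apply, map_smul]
      congr 1
      induction n with
      | zero => rfl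
      | succ n ih =>
        rw [pow_succ', pow_succ', Module.End.mul_apply, Module.End.mul_apply, hcomm, ih]
  have hT0 : aeval T (Q'.map (Rat.castHom k)) = 0 := by
    have h1 : T.charpoly = Q'.map (Rat.castHom k) := by
      rw [hT, Matrix.charpoly_toLin', Matrix.charpoly_transpose, hQ.charpoly k A hch]
    rw [← h1]
    exact LinearMap.aeval_self_charpoly T
  refine LinearMap.ext fun Y => ?_
  apply L_inj hdet
  rw [hpow, hT0]
  rfl

end G2aux

end Pool.Agent.N197.QF
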