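import Pool.Agent.N197.QF.Stm4

/-!
# Project QF (helper197), task G1 (helper399)

Joint tangent vectors: either the tangent vectors of the component `i` lift with zero values, or the
polynomials which annihilate the conjugations on the values annihilate them on the Lie algebra of the
form `J i`.  The first alternative is the argument of `Pool.Agent.N171.TG.So.wtan_small` (helper171).
-/

set_option autoImplicit false
set_option linter.unusedSectionVars false

open Matrix Polynomial Filter Topology Module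
open Pool.Agent.Y142.ZS (SpLie)
open Pool.Agent.R932.PO (IsForm spSub ideal_all)
open Pool.Agent.N171.TG (Tan3)
open Pool.Agent.N171.TG.So (T2 Z2)

namespace Pool.Agent.N197.QF

namespace G1x

/-- intertwining and polynomials -/
theorem aeval_inter {k V W : Type} [Field k] [AddCommGroup V] [Module k V] [AddCommGroup W]
    [Module k W] (f : V →ₗ[k] W) (U : Module.End k V) (U' : Module.End k W)
    (h : ∀ v, f (U v) = U' (f v)) (F : k[X]) (v : V) : f (aeval U F v) = aeval U' F (f v) := by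
  have hp : ∀ (n : ℕ) (v : V), f ((U ^ n) v) = (U' ^ n) (f v) := by
    intro n
    induction n with
    | zero => intro v; rfl
    | succ n ih =>
      intro v
      rw [pow_succ, pow_succ, Module.End.mul_apply, Module.End.mul_apply, ih, h]
  induction F using Polynomial.induction_on' with
  | add p q hp hq =>
    rw [map_add, map_add, LinearMap.add_apply, LinearMap.add_apply, map_add, hp, hq]
  | monomial n c =>
    rw [aeval_monomial, aeval_monomial, Module.End.mul_apply, Module.End.mul_apply,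
      Module.algebraMap_end_apply, Module.algebraMap_end_apply, map_smul, hp]

/-- conjugation preserves the Lie algebra of a form -/
theorem spLie_conj {k : Type} [Field k] {n : ℕ} {J A R R' : Matrix (Fin n) (Fin n) k} {c : k}
    (h1 : R' * R = 1) (h : R'ᵀ * J * R' = c • J) (hA : SpLie J A) :
    SpLie J (R' * A * R) := by
  unfold SpLie at *
  have e1 : J * R' = c • (Rᵀ * J) := by
    have h2 : Rᵀ * (R'ᵀ * J * R') = J * R' := by
      rw [← Matrix.mul_assoc, ← Matrix.mul_assoc, ← Matrix.transpose_mul, h1,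
        Matrix.transpose_one, Matrix.one_mul]
    rw [← h2, h, Matrix.mul_smul]
  have e2 : R'ᵀ * J = c • (J * R) := by
    have h2 : R'ᵀ * J * R' * R = R'ᵀ * J := by
      rw [Matrix.mul_assoc (R'ᵀ * J), h1, Matrix.mul_one]
    rw [← h2, h, Matrix.smul_mul]
  have e3 : (R' * A * R)ᵀ * J = c • (Rᵀ * (Aᵀ * J) * R) := by
    rw [Matrix.transpose_mul, Matrix.transpose_mul, Matrix.mul_assoc, Matrix.mul_assoc, e2,
      Matrix.mul_smul, Matrix.mul_smul, Matrix.mul_assoc, Matrix.mul_assoc]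
  have e4 : J * (R' * A * R) = c • (Rᵀ * (J * A) * R) := by
    rw [← Matrix.mul_assoc, ← Matrix.mul_assoc, e1, Matrix.smul_mul, Matrix.smul_mul,
      Matrix.mul_assoc Rᵀ]
  rw [e3, e4, ← smul_add, ← Matrix.add_mul, ← Matrix.mul_add, hA, Matrix.mul_zero,
    Matrix.zero_mul, smul_zero]

/-- the limit of the conjugated sequence -/
theorem lim_conj {ℓ : ℕ} [Fact ℓ.Prime] {n : ℕ} {G : Type} [Group G]
    (r : G →* Matrix (Fin n) (Fin n) ℚ_[ℓ]) (g : G) {σ : ℕ → G} {X : Matrix (Fin n) (Fin n) ℚ_[ℓ]}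
    (h : Tendsto (fun m : ℕ => ((ℓ : ℚ_[ℓ]) ^ m)⁻¹ • (r (σ m) - 1)) atTop (𝓝 X)) :
    Tendsto (fun m : ℕ => ((ℓ : ℚ_[ℓ]) ^ m)⁻¹ • (r (g⁻¹ * σ m * g) - 1)) atTop
      (𝓝 (r g⁻¹ * X * r g)) := by
  have hc : Continuous fun M : Matrix (Fin n) (Fin n) ℚ_[ℓ] => r g⁻¹ * M * r g :=
    (continuous_const.matrix_mul continuous_id).matrix_mul continuous_const
  refine ((hc.tendsto X).comp h).congr fun m => ?_
  have h1 : r g⁻¹ * r g = 1 := by rw [← map_mul, inv_mul_cancel, map_one]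
  change r g⁻¹ * (((ℓ : ℚ_[ℓ]) ^ m)⁻¹ • (r (σ m) - 1)) * r g = _
  rw [Matrix.mul_smul, Matrix.smul_mul, Matrix.mul_sub, Matrix.sub_mul, Matrix.mul_one, h1,
    map_mul, map_mul]

theorem T2_conj {ℓ : ℕ} [Fact ℓ.Prime] {ι : Type} [Fintype ι] [DecidableEq ι] {N : ι → ℕ} {d : ℕ}
    {G : Type} [Group G] {ρ : ∀ i, G →* Matrix (Fin (N i)) (Fin (N i)) ℚ_[ℓ]}
    {τ : G →* Matrix (Fin d) (Fin d) ℚ_[ℓ]} (i : ι) {A : Matrix (Fin (N i)) (Fin (N i)) ℚ_[ℓ]}
    {Y : Matrix (Fin d) (Fin d) ℚ_[ℓ]} (g : G) (h : T2 ρ τ (Pi.single i A) Y) :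
    T2 ρ τ (Pi.single i (ρ i g⁻¹ * A * ρ i g)) (τ g⁻¹ * Y * τ g) := by
  obtain ⟨σ, h1, h2, -⟩ := h
  refine ⟨fun m => g⁻¹ * σ m * g, fun j => ?_, lim_conj τ g h2, ?_⟩
  · have h3 := lim_conj (ρ j) g (h1 j)
    have h4 : ρ j g⁻¹ * (Pi.single i A : ∀ j, Matrix (Fin (N j)) (Fin (N j)) ℚ_[ℓ]) j * ρ j g =
        (Pi.single i (ρ i g⁻¹ * A * ρ i g) :
          ∀ j, Matrix (Fin (N j)) (Fin (N j)) ℚ_[ℓ]) j := by
      by_cases hj : j = i
      · subst hj
        rw [Pi.single_eq_same, Pi.single_eq_same]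
      · rw [Pi.single_eq_of_ne hj, Pi.single_eq_of_ne hj, Matrix.mul_zero, Matrix.zero_mul]
    rw [h4] at h3
    exact h3
  · have h3 : (fun n : ℕ => ((ℓ : ℚ_[ℓ]) ^ n)⁻¹ *
        ((1 : G →* ℚ_[ℓ]) (g⁻¹ * σ n * g) - 1)) = fun _ => 0 := by
      funext n
      rw [MonoidHom.one_apply, sub_self, mul_zero]
    rw [h3]
    exact tendsto_const_nhds

theorem main : S_G1 := by
  classical
  intro ℓ _ ι _ _ N d G _ ρ τ J hJ hdet hsim i hlift
  have hform : IsForm (J i) := ⟨Or.inr (hJ i), hdet i⟩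
  -- the pairs
  let P : Submodule ℚ_[ℓ] (Matrix (Fin (N i)) (Fin (N i)) ℚ_[ℓ] ×
      Matrix (Fin d) (Fin d) ℚ_[ℓ]) :=
    { carrier := {p | SpLie (J i) p.1 ∧ T2 ρ τ (Pi.single i p.1) p.2}
      add_mem' := fun {p q} hp hq => by
        refine ⟨(spSub (J i)).add_mem hp.1 hq.1, ?_⟩
        have h1 := Pool.Agent.N171.TG.So.T2.add hp.2 hq.2
        rw [← Pi.single_add] at h1
        exact h1
      zero_mem' := by
        refine ⟨(spSub (J i)).zero_mem, ?_⟩
        show T2 ρ τ (Pi.single i 0) 0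
        rw [Pi.single_zero]
        exact Pool.Agent.N171.TG.Tan3.zero
      smul_mem' := fun c p hp => by
        refine ⟨(spSub (J i)).smul_mem c hp.1, ?_⟩
        have h1 := Pool.Agent.N171.TG.So.T2.smul c hp.2
        rw [← Pi.single_smul] at h1
        exact h1 }
  have hP : ∀ p, p ∈ P ↔ SpLie (J i) p.1 ∧ T2 ρ τ (Pi.single i p.1) p.2 := fun _ => Iff.rfl
  let p1 : P →ₗ[ℚ_[ℓ]] Matrix (Fin (N i)) (Fin (N i)) ℚ_[ℓ] :=
    (LinearMap.fst ℚ_[ℓ] _ _).comp P.subtype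
  let p2 : P →ₗ[ℚ_[ℓ]] Matrix (Fin d) (Fin d) ℚ_[ℓ] :=
    (LinearMap.snd ℚ_[ℓ] _ _).comp P.subtype
  by_cases hinj : Function.Injective p2
  · right
    intro g a F hF Z hZ
    have hE : ∀ p ∈ P, LinearMap.prodMap (adm (ρ i g⁻¹) (ρ i g) a) (adm (τ g⁻¹) (τ g) a) p ∈
        P := by
      intro p hp
      obtain ⟨c, hc⟩ := hsim i g⁻¹
      have h1 : ρ i g⁻¹ * ρ i g = 1 := by rw [← map_mul, inv_mul_cancel, map_one]
      refine (hP _).2 ⟨?_, ?_⟩
      · exact (spSub (J i)).smul_mem a (spLie_conj h1 hc ((hP p).1 hp).1)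
      · have h2 := Pool.Agent.N171.TG.So.T2.smul a (T2_conj i g ((hP p).1 hp).2)
        rw [← Pi.single_smul] at h2
        exact h2
    let U : Module.End ℚ_[ℓ] P := (LinearMap.prodMap (adm (ρ i g⁻¹) (ρ i g) a)
      (adm (τ g⁻¹) (τ g) a)).restrict hE
    obtain ⟨Y, hY⟩ := hlift Z hZ
    let p : P := ⟨(Z, Y), (hP _).2 ⟨hZ, hY⟩⟩
    have h1 : aeval U F p = 0 := by
      apply hinj
      rw [aeval_inter p2 U (adm (τ g⁻¹) (τ g) a) (fun _ => rfl), hF, map_zero]
      rfl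
    have h2 := aeval_inter p1 U (adm (ρ i g⁻¹) (ρ i g) a) (fun _ => rfl) F p
    rw [h1, map_zero] at h2
    exact h2.symm
  · left
    intro X hX
    obtain ⟨p, hp2, hp0⟩ : ∃ p : P, p2 p = 0 ∧ p ≠ 0 := by
      by_contra hcon
      push Not at hcon
      exact hinj ((injective_iff_map_eq_zero p2).2 hcon)
    have hZ : T2 ρ τ (Pi.single i p.1.1) 0 := by
      have h1 := ((hP p.1).1 p.2).2
      have h2 : p.1.2 = 0 := hp2
      rwa [h2] at h1
    have hZ0 : p.1.1 ≠ 0 := by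
      intro h
      exact hp0 (Subtype.ext (Prod.ext h hp2))
    let I : Submodule ℚ_[ℓ] (Matrix (Fin (N i)) (Fin (N i)) ℚ_[ℓ]) :=
      (Z2 ρ τ).comap (LinearMap.single ℚ_[ℓ] (fun j => Matrix (Fin (N j)) (Fin (N j)) ℚ_[ℓ]) i)
    have hI : ∀ A, SpLie (J i) A → ∀ Z ∈ I, A * Z - Z * A ∈ I := by
      intro A hA Z hZ
      obtain ⟨Y, hY⟩ := hlift A hA
      have h1 : Pool.Agent.N171.TG.Tan3 ρ τ 1 (Pi.single i Z) 0 0 := hZ
      have h2 := Pool.Agent.N171.TG.Tan3.bracket hY h1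
      rw [mul_zero, zero_mul, sub_zero] at h2
      have h5 : (fun j => (Pi.single i A : ∀ j, Matrix (Fin (N j)) (Fin (N j)) ℚ_[ℓ]) j *
            (Pi.single i Z : ∀ j, Matrix (Fin (N j)) (Fin (N j)) ℚ_[ℓ]) j -
          (Pi.single i Z : ∀ j, Matrix (Fin (N j)) (Fin (N j)) ℚ_[ℓ]) j *
            (Pi.single i A : ∀ j, Matrix (Fin (N j)) (Fin (N j)) ℚ_[ℓ]) j) =
          Pi.single i (A * Z - Z * A) := by
        funext j
        by_cases hj : j = i
        · subst hj; simp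
        · simp [Pi.single_eq_of_ne hj]
      rw [h5] at h2
      exact h2
    exact ideal_all hform I hI (show p.1.1 ∈ I from hZ) ((hP p.1).1 p.2).1 hZ0 hX

end G1x

/-- **G1** -/
theorem t_G1 : S_G1 := G1x.main

end Pool.Agent.N197.QF
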