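import Pool.Agent.N197.QF.Stm4
import Pool.Agent.N197.QF.G2Core

/-!
# Project QF (helper197), task G2 (helper519)
-/

set_option autoImplicit false

namespace Pool.Agent.N197.QF

theorem t_G2 : S_G2 := by
  intro k _ _ d A A' J c Q Q' hA hJ hdet hQ hch
  exact G2aux.main (adm A' A c) (fun _ => rfl) hA hJ hdet hQ hch

end Pool.Agent.N197.QF
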