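import Pool.Agent.N197.QF.Stm4
import Pool.Agent.N42.QF.G3a

set_option autoImplicit false

/-!
# Project QF (helper197): leaf QG/G3
-/

namespace Pool.Agent.N197.QF

theorem t_G3 : S_G3 := by
  intro k _ _ G _ ι _ _ N r J χ i w h0 hJ hd hr hT M _ _ s emb hinj hemb hs
  exact Pool.Agent.N42.QF.G3a.G3a k G ι N r J χ i w h0 hJ hd hr hT M s emb hinj hemb hs
    (Pool.Agent.N197.AP.piRepr fun i => Pool.Agent.N197.AP.matRep (r i))
    (fun _ _ _ => rfl)

end Pool.Agent.N197.QF
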