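import Pool.Agent.N197.QF.Stm4

/-!
# Project QF (helper197), part G5 (helper353)
-/

set_option autoImplicit false

open Module Matrix Filter Topology
open Pool.Agent.H204R3.GP (FiniteIndexSemisimple)
open Pool.Agent.N197.AP (matRep)

namespace Pool.Agent.N197.QF

namespace G5aux

variable {ℓ : ℕ} [Fact ℓ.Prime]

lemma pow_mem {G : Type} [Group G] (Δ : Subgroup G) (h : Δ.FiniteIndex) (g : G) :
    g ^ (Δ.index).factorial ∈ Δ := by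
  obtain ⟨n, hn0, hn, hg⟩ := Subgroup.exists_pow_mem_of_index_ne_zero h.index_ne_zero g
  obtain ⟨k, hk⟩ := Nat.dvd_factorial hn0 hn
  rw [hk, pow_mul]
  exact Δ.pow_mem hg k

lemma ell_pow : Tendsto (fun m : ℕ => (ℓ : ℚ_[ℓ]) ^ m) atTop (𝓝 0) := by
  refine tendsto_pow_atTop_nhds_zero_of_norm_lt_one ?_
  rw [Padic.norm_p]
  exact inv_lt_one_of_one_lt₀ (by exact_mod_cast (Fact.out : ℓ.Prime).one_lt)

/-- a subspace which is stable under a subgroup of finite index is stable under the tangent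
directions -/
lemma stab_X {n : ℕ} {G : Type} [Group G] (r : G →* Matrix (Fin n) (Fin n) ℚ_[ℓ])
    (X : Matrix (Fin n) (Fin n) ℚ_[ℓ]) (σ : ℕ → G)
    (hσ : Tendsto (fun m : ℕ => ((ℓ : ℚ_[ℓ]) ^ m)⁻¹ • (r (σ m) - 1)) atTop (𝓝 X))
    (Δ : Subgroup G) (hΔ : Δ.FiniteIndex) (W : Submodule ℚ_[ℓ] (Fin n → ℚ_[ℓ]))
    (hW : ∀ g ∈ Δ, ∀ u ∈ W, r g *ᵥ u ∈ W) : ∀ u ∈ W, X *ᵥ u ∈ W := by
  set k := (Δ.index).factorial with hk
  have hk0 : (k : ℚ_[ℓ]) ≠ 0 := by exact_mod_cast Nat.factorial_ne_zero _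
  have hl : ∀ m : ℕ, (ℓ : ℚ_[ℓ]) ^ m ≠ 0 := fun m =>
    pow_ne_zero _ (by exact_mod_cast (Fact.out : ℓ.Prime).ne_zero)
  have hA : Tendsto (fun m : ℕ => r (σ m)) atTop (𝓝 1) := by
    have h3 := ((ell_pow (ℓ := ℓ)).smul hσ).add_const (1 : Matrix (Fin n) (Fin n) ℚ_[ℓ])
    rw [zero_smul, zero_add] at h3
    refine h3.congr fun m => ?_
    rw [smul_smul, mul_inv_cancel₀ (hl m), one_smul, sub_add_cancel]
  have hS : Tendsto (fun m : ℕ => ∑ i ∈ Finset.range k, r (σ m) ^ i) atTop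
      (𝓝 (∑ i ∈ Finset.range k, (1 : Matrix (Fin n) (Fin n) ℚ_[ℓ]) ^ i)) :=
    tendsto_finsetSum _ fun i _ => hA.pow i
  have hE : Tendsto (fun m : ℕ => ((ℓ : ℚ_[ℓ]) ^ m)⁻¹ • (r (σ m) ^ k - 1)) atTop
      (𝓝 ((k : ℚ_[ℓ]) • X)) := by
    have h3 := hS.mul hσ
    have h4 : (∑ i ∈ Finset.range k, (1 : Matrix (Fin n) (Fin n) ℚ_[ℓ]) ^ i) * X =
        (k : ℚ_[ℓ]) • X := by
      simp only [one_pow, Finset.sum_const, Finset.card_range, nsmul_eq_mul, mul_one]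
      rw [← nsmul_eq_mul, Nat.cast_smul_eq_nsmul]
    rw [h4] at h3
    refine h3.congr fun m => ?_
    rw [mul_smul_comm, geom_sum_mul]
  intro u hu
  have hc : IsClosed (W : Set (Fin n → ℚ_[ℓ])) := Submodule.closed_of_finiteDimensional W
  have hcont : Continuous (fun A : Matrix (Fin n) (Fin n) ℚ_[ℓ] => A *ᵥ u) :=
    Continuous.matrix_mulVec continuous_id continuous_const
  have hE2 : Tendsto (fun m : ℕ => (((ℓ : ℚ_[ℓ]) ^ m)⁻¹ • (r (σ m) ^ k - 1)) *ᵥ u) atTop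
      (𝓝 (((k : ℚ_[ℓ]) • X) *ᵥ u)) := (hcont.tendsto _).comp hE
  have h3 : ((k : ℚ_[ℓ]) • X) *ᵥ u ∈ W := by
    refine hc.mem_of_tendsto hE2 (Eventually.of_forall fun m => ?_)
    show (((ℓ : ℚ_[ℓ]) ^ m)⁻¹ • (r (σ m) ^ k - 1)) *ᵥ u ∈ W
    rw [smul_mulVec, sub_mulVec, one_mulVec]
    refine W.smul_mem _ (W.sub_mem ?_ hu)
    rw [← map_pow]
    exact hW _ (pow_mem Δ hΔ (σ m)) u hu
  rw [smul_mulVec] at h3
  exact (W.smul_mem_iff hk0).1 h3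

lemma skew {n : ℕ} (J : Matrix (Fin n) (Fin n) ℚ_[ℓ]) (hJ : Jᵀ = -J) (u : Fin n → ℚ_[ℓ]) :
    (vecMulVec u (u ᵥ* J))ᵀ * J + J * vecMulVec u (u ᵥ* J) = 0 := by
  have h1 : J *ᵥ u = -(u ᵥ* J) := by
    rw [← vecMul_transpose, hJ, vecMul_neg]
  rw [transpose_vecMulVec, vecMulVec_mul, mul_vecMulVec, h1, neg_vecMulVec, add_neg_cancel]

/-- the irreducibility -/
lemma top_of_stab {n : ℕ} (J : Matrix (Fin n) (Fin n) ℚ_[ℓ]) (hJ0 : J.det ≠ 0)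
    (W : Submodule ℚ_[ℓ] (Fin n → ℚ_[ℓ])) (hW0 : W ≠ ⊥)
    (hW : ∀ u w : Fin n → ℚ_[ℓ], w ∈ W → vecMulVec u (u ᵥ* J) *ᵥ w ∈ W) : W = ⊤ := by
  obtain ⟨w, hw, hw0⟩ := (Submodule.ne_bot_iff W).1 hW0
  have h1 : J *ᵥ w ≠ 0 := fun h => hw0 (eq_zero_of_mulVec_eq_zero hJ0 h)
  obtain ⟨j, hj⟩ : ∃ j, (J *ᵥ w) j ≠ 0 := Function.ne_iff.1 h1
  have h2 : ∀ u : Fin n → ℚ_[ℓ], u ⬝ᵥ (J *ᵥ w) ≠ 0 → u ∈ W := by
    intro u hu
    have h3 := hW u w hw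
    have h4 : vecMulVec u (u ᵥ* J) *ᵥ w = (u ⬝ᵥ (J *ᵥ w)) • u := by
      funext i
      rw [Pi.smul_apply, smul_eq_mul, dotProduct_mulVec]
      simp only [mulVec, dotProduct, vecMulVec_apply, Finset.sum_mul]
      exact Finset.sum_congr rfl fun x _ => by ring
    rw [h4] at h3
    exact (W.smul_mem_iff hu).1 h3
  have h5 : (Pi.single j 1 : Fin n → ℚ_[ℓ]) ⬝ᵥ (J *ᵥ w) ≠ 0 := by
    rw [single_one_dotProduct]
    exact hj
  rw [eq_top_iff]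
  intro u _
  by_cases hu : u ⬝ᵥ (J *ᵥ w) = 0
  · have h6 : (u + Pi.single j 1) ⬝ᵥ (J *ᵥ w) ≠ 0 := by
      rw [add_dotProduct, hu, zero_add]
      exact h5
    have h7 := W.sub_mem (h2 _ h6) (h2 _ h5)
    rwa [add_sub_cancel_right] at h7
  · exact h2 u hu

end G5aux

open G5aux in
theorem t_G5 : S_G5 := by
  intro ℓ _ n J hJ hJ0 G _ r hX Δ hΔ U hU
  by_cases hU0 : U = ⊥
  · refine ⟨⊤, fun _ _ _ _ => Submodule.mem_top, ?_⟩
    rw [hU0]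
    exact isCompl_bot_top
  · have h1 : U = ⊤ := by
      refine top_of_stab J hJ0 U hU0 fun u w hw => ?_
      obtain ⟨σ, hσ⟩ := hX _ (skew J hJ u)
      exact stab_X r _ σ hσ Δ hΔ U (fun g hg v hv => hU g hg v hv) w hw
    refine ⟨⊥, ?_, ?_⟩
    · intro s _ u hu
      rw [Submodule.mem_bot] at hu ⊢
      rw [hu, map_zero]
    · rw [h1]
      exact isCompl_top_bot

end Pool.Agent.N197.QF
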