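import Pool.Agent.N197.QF.Stm4

/-!
# Project QF (helper197), part G8
-/

set_option autoImplicit false

open Module Matrix Filter Topology

namespace Pool.Agent.N197.QF

namespace G8aux

variable {ℓ : ℕ} [hℓ : Fact ℓ.Prime]

lemma two_pow : Tendsto (fun m : ℕ => (ℓ : ℚ_[ℓ]) ^ m) atTop (𝓝 0) :=
  tendsto_pow_atTop_nhds_zero_of_norm_lt_one Padic.norm_p_lt_one

/-- one direction, for a general factor -/
theorem dir {n : ℕ} (hn : 0 < n) (J : Matrix (Fin n) (Fin n) ℚ_[ℓ]) (hJ : J.det ≠ 0)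
    {G : Type} [Group G] (r ρ : G →* Matrix (Fin n) (Fin n) ℚ_[ℓ]) (χ ψ : G →* ℚ_[ℓ])
    (h : ∀ g, (r g)ᵀ * J * r g = χ g • J) (hχ : ∀ g, ψ g * χ g = 1) (hρ : ∀ g, ρ g = ψ g • r g)
    (σ : ℕ → G) (X : Matrix (Fin n) (Fin n) ℚ_[ℓ]) (hX : Xᵀ * J + J * X = 0)
    (hσ : Tendsto (fun m : ℕ => ((ℓ : ℚ_[ℓ]) ^ m)⁻¹ • (r (σ m) - 1)) atTop (𝓝 X)) :
    Tendsto (fun m : ℕ => ((ℓ : ℚ_[ℓ]) ^ m)⁻¹ • (ρ (σ m) - 1)) atTop (𝓝 X) := by
  have h2 : ∀ m : ℕ, (ℓ : ℚ_[ℓ]) ^ m ≠ 0 := fun m =>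
    pow_ne_zero _ (Nat.cast_ne_zero.2 hℓ.out.ne_zero)
  have hA : Tendsto (fun m : ℕ => r (σ m)) atTop (𝓝 1) := by
    have h3 := ((two_pow (ℓ := ℓ)).smul hσ).add_const (1 : Matrix (Fin n) (Fin n) ℚ_[ℓ])
    rw [zero_smul, zero_add] at h3
    refine h3.congr fun m => ?_
    rw [smul_smul, mul_inv_cancel₀ (h2 m), one_smul, sub_add_cancel]
  obtain ⟨a, b, hab⟩ : ∃ a b, J a b ≠ 0 := by
    by_contra hcon
    push Not at hcon
    haveI : Nonempty (Fin n) := ⟨⟨0, hn⟩⟩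
    exact hJ (by rw [show J = 0 from Matrix.ext hcon, Matrix.det_zero])
  -- the difference quotients of the multiplier
  have hmat : Tendsto (fun m : ℕ => ((ℓ : ℚ_[ℓ]) ^ m)⁻¹ •
      ((r (σ m))ᵀ * J * r (σ m) - J)) atTop (𝓝 0) := by
    have h3 : Tendsto (fun m : ℕ => (((ℓ : ℚ_[ℓ]) ^ m)⁻¹ • (r (σ m) - 1))ᵀ * J * r (σ m) +
        J * (((ℓ : ℚ_[ℓ]) ^ m)⁻¹ • (r (σ m) - 1))) atTop (𝓝 (Xᵀ * J * 1 + J * X)) :=
      ((((((continuous_id (X := Matrix (Fin n) (Fin n) ℚ_[ℓ])).matrix_transpose).tendsto X).comp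
        hσ).mul_const J).mul hA).add (hσ.const_mul J)
    rw [Matrix.mul_one, hX] at h3
    refine h3.congr fun m => ?_
    rw [Matrix.transpose_smul, Matrix.smul_mul, Matrix.smul_mul, Matrix.mul_smul, ← smul_add,
      Matrix.transpose_sub, Matrix.transpose_one]
    congr 1
    noncomm_ring
  have hc : Tendsto (fun m : ℕ => ((ℓ : ℚ_[ℓ]) ^ m)⁻¹ * (χ (σ m) - 1)) atTop (𝓝 0) := by
    have h3 : Tendsto (fun m : ℕ => (((ℓ : ℚ_[ℓ]) ^ m)⁻¹ •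
        ((r (σ m))ᵀ * J * r (σ m) - J)) a b) atTop (𝓝 ((0 : Matrix (Fin n) (Fin n) ℚ_[ℓ]) a b)) :=
      tendsto_pi_nhds.1 (tendsto_pi_nhds.1 hmat a) b
    have h4 := h3.mul_const ((J a b)⁻¹)
    rw [Matrix.zero_apply, zero_mul] at h4
    refine h4.congr fun m => ?_
    rw [h, Matrix.smul_apply, Matrix.sub_apply, Matrix.smul_apply, smul_eq_mul, smul_eq_mul]
    field_simp
  have hχ1 : Tendsto (fun m : ℕ => χ (σ m)) atTop (𝓝 1) := by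
    have h3 := ((two_pow (ℓ := ℓ)).mul hc).add_const (1 : ℚ_[ℓ])
    rw [zero_mul, zero_add] at h3
    refine h3.congr fun m => ?_
    rw [← mul_assoc, mul_inv_cancel₀ (h2 m), one_mul, sub_add_cancel]
  have hψ : ∀ m, ψ (σ m) = (χ (σ m))⁻¹ := fun m => eq_inv_of_mul_eq_one_left (hχ (σ m))
  have hψ1 : Tendsto (fun m : ℕ => ψ (σ m)) atTop (𝓝 1) := by
    have h3 := hχ1.inv₀ one_ne_zero
    rw [inv_one] at h3
    exact h3.congr fun m => (hψ m).symm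
  have hψ2 : Tendsto (fun m : ℕ => ((ℓ : ℚ_[ℓ]) ^ m)⁻¹ * (ψ (σ m) - 1)) atTop (𝓝 0) := by
    have h3 := (hc.mul hψ1).neg
    rw [zero_mul, neg_zero] at h3
    refine h3.congr fun m => ?_
    have h4 := hχ (σ m)
    have h5 : ψ (σ m) - 1 = -((χ (σ m) - 1) * ψ (σ m)) := by
      rw [sub_mul, one_mul, mul_comm (χ (σ m)), h4]
      ring
    rw [h5]
    ring
  have h3 : Tendsto (fun m : ℕ => ψ (σ m) • (((ℓ : ℚ_[ℓ]) ^ m)⁻¹ • (r (σ m) - 1)) +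
      (((ℓ : ℚ_[ℓ]) ^ m)⁻¹ * (ψ (σ m) - 1)) • (1 : Matrix (Fin n) (Fin n) ℚ_[ℓ])) atTop
      (𝓝 ((1 : ℚ_[ℓ]) • X + (0 : ℚ_[ℓ]) • 1)) :=
    (hψ1.smul hσ).add (hψ2.smul_const _)
  rw [one_smul, zero_smul, add_zero] at h3
  refine h3.congr fun m => ?_
  rw [hρ, smul_smul, mul_smul (((ℓ : ℚ_[ℓ]) ^ m)⁻¹), mul_comm (ψ (σ m)), mul_smul, ← smul_add]
  congr 1
  rw [smul_sub, sub_smul, one_smul]
  abel

end G8aux

open G8aux

theorem t_G8 : S_G8 := by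
  intro ℓ hℓ n J hn hJ G _ r ρ χ hr hρ σ X hX
  have hχ : ∀ g, χ g⁻¹ * χ g = 1 := fun g => by rw [← map_mul, inv_mul_cancel, map_one]
  let ψ : G →* ℚ_[ℓ] :=
    { toFun := fun g => χ g⁻¹
      map_one' := by rw [inv_one, map_one]
      map_mul' := fun g h => by rw [_root_.mul_inv_rev, map_mul, mul_comm] }
  constructor
  · exact dir hn J hJ r ρ χ ψ hr hχ hρ σ X hX
  · refine dir hn J hJ ρ r ψ χ (fun g => ?_) (fun g => by rw [mul_comm]; exact hχ g) (fun g => ?_) σ X hX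
    · rw [hρ, Matrix.transpose_smul, Matrix.smul_mul, Matrix.smul_mul, Matrix.mul_smul, hr, smul_smul,
        smul_smul, mul_assoc, hχ, mul_one]
      rfl
    · rw [hρ, smul_smul, mul_comm, hχ, one_smul]

end Pool.Agent.N197.QF
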