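import Pool.Agent.N197.QF.Stm4

set_option autoImplicit false

/-! QG/G9: the similitude characteristic polynomial (helper574) -/

open Module Matrix Filter Topology Polynomial

namespace Pool.Agent.N197.QF

theorem t_G9 : S_G9 := by
  intro k _ n J A A' c h1 h2 h3
  have h1' : A * A' = 1 := mul_eq_one_comm.1 h1
  have hJ : IsUnit J.det := isUnit_iff_ne_zero.2 h3
  have h4 : Aᵀ * J = c • (J * A') := by
    calc Aᵀ * J = Aᵀ * J * (A * A') := by rw [h1', mul_one]
      _ = Aᵀ * J * A * A' := by rw [mul_assoc, mul_assoc, mul_assoc]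
      _ = c • (J * A') := by rw [h2, Matrix.smul_mul]
  have h5 : J⁻¹ * Aᵀ * J = c • A' := by
    rw [mul_assoc, h4, Matrix.mul_smul, ← mul_assoc, Matrix.nonsing_inv_mul J hJ, one_mul]
  have h6 : (J⁻¹ * Aᵀ * J).charpoly = Aᵀ.charpoly :=
    Matrix.charpoly_units_conj' (Matrix.nonsingInvUnit J hJ) Aᵀ
  rw [h5, Matrix.charpoly_transpose] at h6
  exact h6

end Pool.Agent.N197.QF
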