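import Pool.Agent.N197.QF.Prod2
import Pool.Agent.N197.QF.L_G1
import Pool.Agent.N197.QF.L_G2
import Pool.Agent.N197.QF.L_G3
import Pool.Agent.N197.QF.L_G5
import Pool.Agent.N197.QF.L_G6
import Pool.Agent.N197.QF.L_G8
import Pool.Agent.N197.QF.L_G9
import Pool.Agent.N171.TG.So9

/-!
# Project QF: the kernel on an arbitrary pure motive is open in the product of the symplectic groups
-/

set_option autoImplicit false

open Polynomial Filter Topology NumberField IsDedekindDomain Module Matrix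
open Pool.Agent.Y142.ZO Pool.Agent.Y142.ZI Pool.Agent.Y142.ZS
open Pool.Agent.N166.CZ (IsTateModule ProductsWith)
open Pool.Agent.H204R3.GP (FiniteIndexSemisimple)
open Pool.Agent.N197.AP
open Pool.Agent.N171.TG.So (T2 WTanL Z2)
open Pool.Agent.R932.PO (JTan spSub)

namespace Pool.Agent.N197.QF

section spRep

variable {k G : Type} [Field k] [Group G] {n : ℕ}

theorem sp_stable {J : Matrix (Fin n) (Fin n) k} {A A' : Matrix (Fin n) (Fin n) k} {c : k}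
    (h1 : A' * A = 1) (hc : Aᵀ * J * A = c • J) (_hc0 : c ≠ 0) (a : k) {Z : Matrix (Fin n) (Fin n) k}
    (hZ : Zᵀ * J + J * Z = 0) : (a • (A * Z * A'))ᵀ * J + J * (a • (A * Z * A')) = 0 := by
  have h2 : A * A' = 1 := _root_.mul_eq_one_comm.1 h1
  have h1t : Aᵀ * A'ᵀ = 1 := by rw [← Matrix.transpose_mul, h1, Matrix.transpose_one]
  have h2t : A'ᵀ * Aᵀ = 1 := by rw [← Matrix.transpose_mul, h2, Matrix.transpose_one]
  have h3 : Aᵀ * J = c • (J * A') := by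
    calc Aᵀ * J = Aᵀ * J * (A * A') := by rw [h2, Matrix.mul_one]
      _ = (Aᵀ * J * A) * A' := by simp only [Matrix.mul_assoc]
      _ = c • (J * A') := by rw [hc, Matrix.smul_mul]
  have h4 : J * A = c • (A'ᵀ * J) := by
    calc J * A = (A'ᵀ * Aᵀ) * (J * A) := by rw [h2t, Matrix.one_mul]
      _ = A'ᵀ * (Aᵀ * J * A) := by simp only [Matrix.mul_assoc]
      _ = c • (A'ᵀ * J) := by rw [hc, Matrix.mul_smul]
  rw [Matrix.transpose_smul, Matrix.smul_mul, Matrix.mul_smul, ← smul_add, Matrix.transpose_mul,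
    Matrix.transpose_mul]
  have h5 : A'ᵀ * (Zᵀ * Aᵀ) * J + J * (A * Z * A') = c • (A'ᵀ * (Zᵀ * J + J * Z) * A') := by
    calc A'ᵀ * (Zᵀ * Aᵀ) * J + J * (A * Z * A') = A'ᵀ * Zᵀ * (Aᵀ * J) + (J * A) * Z * A' := by
            simp only [Matrix.mul_assoc]
      _ = c • (A'ᵀ * (Zᵀ * J + J * Z) * A') := by
            rw [h3, h4, Matrix.mul_smul, Matrix.smul_mul, Matrix.smul_mul, ← smul_add,
              Matrix.mul_add, Matrix.add_mul]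
            simp only [Matrix.mul_assoc]
  rw [h5, hZ]
  simp

/-- the representation on the symplectic Lie algebra -/
noncomputable def spRep (r : G →* Matrix (Fin n) (Fin n) k) (χ : G →* k) (J : Matrix (Fin n) (Fin n) k)
    (h : ∀ g, (r g)ᵀ * J * r g = χ g • J) (w : ℤ) : Representation k G (spSub J) where
  toFun g := (adm (r g) (r g⁻¹) (χ g ^ (-w))).restrict fun Z hZ =>
    sp_stable (by rw [← map_mul, inv_mul_cancel, map_one]) (h g)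
      (((Group.isUnit g).map χ).ne_zero) _ hZ
  map_one' := by
    refine LinearMap.ext fun Z => Subtype.ext ?_
    show χ 1 ^ (-w) • (r 1 * Z.1 * r 1⁻¹) = Z.1
    rw [inv_one, map_one, map_one, Matrix.one_mul, Matrix.mul_one, _root_.one_zpow, one_smul]
  map_mul' g g' := by
    refine LinearMap.ext fun Z => Subtype.ext ?_
    show χ (g * g') ^ (-w) • (r (g * g') * Z.1 * r (g * g')⁻¹) =
      χ g ^ (-w) • (r g * (χ g' ^ (-w) • (r g' * Z.1 * r g'⁻¹)) * r g⁻¹)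
    rw [_root_.mul_inv_rev, map_mul, map_mul, map_mul, _root_.mul_zpow, Matrix.mul_smul, Matrix.smul_mul,
      smul_smul]
    simp only [Matrix.mul_assoc]

theorem spRep_val (r : G →* Matrix (Fin n) (Fin n) k) (χ : G →* k) (J : Matrix (Fin n) (Fin n) k)
    (h : ∀ g, (r g)ᵀ * J * r g = χ g • J) (w : ℤ) (g : G) (Z : spSub J) :
    (spRep r χ J h w g Z).1 = adm (r g) (r g⁻¹) (χ g ^ (-w)) Z.1 := rfl

/-- polynomials of intertwined maps -/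
theorem aeval_inter {V W : Type} [AddCommGroup V] [Module k V] [AddCommGroup W] [Module k W]
    (f : V →ₗ[k] W) (A : Module.End k V) (B : Module.End k W) (h : ∀ v, f (A v) = B (f v))
    (p : k[X]) (v : V) : f (aeval A p v) = aeval B p (f v) := by
  induction p using Polynomial.induction_on' with
  | add p q hp hq =>
    rw [map_add, map_add, LinearMap.add_apply, LinearMap.add_apply, map_add, hp, hq]
  | monomial j c =>
    have h1 : ∀ j v, f ((A ^ j) v) = (B ^ j) (f v) := by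
      intro j
      induction j with
      | zero => intro v; rfl
      | succ j ih =>
        intro v
        rw [pow_succ, pow_succ, Module.End.mul_apply, Module.End.mul_apply, ih, h]
    rw [aeval_monomial, aeval_monomial, Module.End.mul_apply, Module.End.mul_apply,
      Module.algebraMap_end_apply, Module.algebraMap_end_apply, map_smul, h1]

end spRep

theorem wtanL_all {K : Type} [Field K] [NumberField K] {ι : Type} [Fintype ι] [Nonempty ι]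
    [DecidableEq ι] {N : ι → ℕ} {d m : ℕ} {w : ℤ}
    (S : Set (HeightOneSpectrum (𝓞 K))) (hS : S.Finite)
    (P : ι → HeightOneSpectrum (𝓞 K) → ℚ[X]) (Q : HeightOneSpectrum (𝓞 K) → ℚ[X])
    (hP : ∀ v ∉ S, ∀ i, ∀ z : ℂ, aeval z (P i v) = 0 →
      ‖z‖ ^ 2 = (Ideal.absNorm v.asIdeal : ℝ) ∧ IsIntegral ℤ ((Ideal.absNorm v.asIdeal : ℂ) ^ m * z))
    (hQ : ∀ v ∉ S, ∀ z : ℂ, aeval z (Q v) = 0 →
      ‖z‖ ^ 2 = (Ideal.absNorm v.asIdeal : ℝ) ^ w ∧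
        IsIntegral ℤ ((Ideal.absNorm v.asIdeal : ℂ) ^ m * z))
    (χ : ∀ (ℓ : ℕ) [Fact ℓ.Prime], GK K →* ℚ_[ℓ])
    (J : ∀ (i : ι) (ℓ : ℕ) [Fact ℓ.Prime], Matrix (Fin (N i)) (Fin (N i)) ℚ_[ℓ])
    (r : ∀ (i : ι) (ℓ : ℕ) [Fact ℓ.Prime], GK K →* Matrix (Fin (N i)) (Fin (N i)) ℚ_[ℓ])
    (hr : ∀ (i : ι) (ℓ : ℕ) [Fact ℓ.Prime], Continuous (r i ℓ))
    (hJ : ∀ (i : ι) (ℓ : ℕ) [Fact ℓ.Prime], (J i ℓ)ᵀ = -J i ℓ)
    (hdet : ∀ (i : ι) (ℓ : ℕ) [Fact ℓ.Prime], (J i ℓ).det ≠ 0)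
    (hsim : ∀ (i : ι) (ℓ : ℕ) [Fact ℓ.Prime] (g : GK K),
      (r i ℓ g)ᵀ * J i ℓ * r i ℓ g = χ ℓ g • J i ℓ)
    (hχ : ∀ (ℓ : ℕ) [Fact ℓ.Prime], ∀ v ∉ S, (ℓ : 𝓞 K) ∉ v.asIdeal → ∀ σ : GK K,
      IsFrobenius v σ → χ ℓ σ = (Ideal.absNorm v.asIdeal : ℚ_[ℓ]))
    (hfrob : ∀ (i : ι) (ℓ : ℕ) [Fact ℓ.Prime], ∀ v ∉ S, (ℓ : 𝓞 K) ∉ v.asIdeal → ∀ σ : GK K,
      IsFrobenius v σ → (r i ℓ σ).charpoly = (P i v).map (Rat.castHom ℚ_[ℓ]))
    (e : ∀ i, Fin (N i + 1) → Fin (N i) → ℚ_[2]) (h6 : ∀ i, 6 ≤ N i)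
    (hint : ∀ i g a b, ‖r i 2 g a b‖ ≤ 1) (hJint : ∀ i a b, ‖J i 2 a b‖ ≤ 1)
    (heint : ∀ i a b, ‖e i a b‖ ≤ 1)
    (he : ∀ i a b, a ≠ b → ‖e i a ⬝ᵥ J i 2 *ᵥ e i b‖ = 1)
    (hbig : ∀ i (π : Equiv.Perm (Fin (N i + 1))), Equiv.Perm.sign π = 1 → ∃ g,
      (∀ a b, ‖(r i 2 g *ᵥ e i a - e i (π a)) b‖ < 1) ∧
      ∀ j, j ≠ i → ∀ a b, ‖(r j 2 g - 1) a b‖ < 1)
    (R : ∀ (ℓ : ℕ) [Fact ℓ.Prime], GK K →* Matrix (Fin d) (Fin d) ℚ_[ℓ])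
    (hR : ∀ (ℓ : ℕ) [Fact ℓ.Prime], Continuous (R ℓ))
    (htint : ∀ g a b, ‖R 2 g a b‖ ≤ 1)
    (ht : ∀ i, 2 ^ (d ^ 2 + 1) < (N i + 1).factorial ∨
      ∃ (g : GK K) (π : ∀ j, Equiv.Perm (Fin (N j + 1))), (∀ a b, ‖(R 2 g - 1) a b‖ < 1) ∧ π i ≠ 1 ∧
        ∀ j a b, ‖(r j 2 g *ᵥ e j a - e j (π j a)) b‖ < 1)
    (hRQ : ∀ (ℓ : ℕ) [Fact ℓ.Prime], ∀ v ∉ S, (ℓ : 𝓞 K) ∉ v.asIdeal → ∀ σ : GK K,
      IsFrobenius v σ → (R ℓ σ).charpoly = (Q v).map (Rat.castHom ℚ_[ℓ]))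
    (ℓ : ℕ) [hℓ : Fact ℓ.Prime] (J' : Matrix (Fin d) (Fin d) ℚ_[ℓ]) (hJ' : J'.det ≠ 0)
    (hsimR : ∀ g, (R ℓ g)ᵀ * J' * R ℓ g = χ ℓ g ^ w • J')
    (hF : ∀ X : ∀ i, Matrix (Fin (N i)) (Fin (N i)) ℚ_[ℓ], (∀ i, SpLie (J i ℓ) (X i)) →
      JTan ℓ (fun i => r i ℓ) X)
    (X : ∀ i, Matrix (Fin (N i)) (Fin (N i)) ℚ_[ℓ]) (hX : ∀ i, SpLie (J i ℓ) (X i)) :
    WTanL (fun i => r i ℓ) (R ℓ) X := by
  have hs : ∀ i (A : Matrix (Fin (N i)) (Fin (N i)) ℚ_[ℓ]), SpLie (J i ℓ) A →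
      ∀ j, SpLie (J j ℓ) ((Pi.single i A : ∀ j, Matrix (Fin (N j)) (Fin (N j)) ℚ_[ℓ]) j) := by
    intro i A hA j
    by_cases hj : j = i
    · subst hj; rw [Pi.single_eq_same]; exact hA
    · rw [Pi.single_eq_of_ne hj]
      unfold SpLie
      simp
  have hone : ∀ i, ∀ X : Matrix (Fin (N i)) (Fin (N i)) ℚ_[ℓ], Xᵀ * J i ℓ + J i ℓ * X = 0 →
      ∃ σ : ℕ → GK K,
        Tendsto (fun m : ℕ => ((ℓ : ℚ_[ℓ]) ^ m)⁻¹ • (r i ℓ (σ m) - 1)) atTop (𝓝 X) := by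
    intro i A hA
    obtain ⟨σ, hσ⟩ := hF _ (hs i A hA)
    have h1 := hσ i
    rw [Pi.single_eq_same] at h1
    exact ⟨σ, h1⟩
  have hss : ∀ i, FiniteIndexSemisimple (matRep (r i ℓ)) := fun i =>
    t_G5 ℓ (N i) (J i ℓ) (hJ i ℓ) (hdet i ℓ) (GK K) (r i ℓ) (hone i)
  have key : ∀ i, T2 (fun i => r i ℓ) (R ℓ) (Pi.single i (X i)) 0 := by
    intro i
    rcases t_G1 ℓ ι N d (GK K) (fun i => r i ℓ) (R ℓ) (fun i => J i ℓ) (fun i => hJ i ℓ)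
      (fun i => hdet i ℓ) (fun i g => ⟨_, hsim i ℓ g⟩) i
      (fun A hA => T2.lift (fun i => hr i ℓ) (hR ℓ) (hF _ (hs i A hA))) with h | h
    · exact h (X i) (hX i)
    · exfalso
      refine t_G3 ℚ_[ℓ] (GK K) ι N (fun i => r i ℓ) (fun i => J i ℓ) (χ ℓ) i w
        (lt_of_lt_of_le (by norm_num) (h6 i)) (hJ i ℓ) (hdet i ℓ) (fun g => hsim i ℓ g)
        (fun T hT => by
          obtain ⟨Δ, hΔ, hT⟩ := hT
          exact t_G6 ℓ (N i) (J i ℓ) (hJ i ℓ) (hdet i ℓ) (GK K) (r i ℓ) (hone i) T Δ hΔ hT)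
        (spSub (J i ℓ)) (spRep (r i ℓ) (χ ℓ) (J i ℓ) (fun g => hsim i ℓ g) w)
        (spSub (J i ℓ)).subtype (Submodule.injective_subtype _)
        (fun Z => ⟨fun ⟨m, hm⟩ => hm ▸ m.2, fun hZ => ⟨⟨Z, hZ⟩, rfl⟩⟩) (fun g Z => rfl) ?_
      refine prodM S hS P Q hP hQ χ J r hr hJ hdet hsim hχ hfrob e h6 hint hJint heint he hbig
        R (hR 2) htint ht hRQ ℓ hss 2 _ fun v hv hvℓ σ hσ Q' hQ' => ?_
      refine LinearMap.ext fun Z => Subtype.ext ?_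
      have h1 := aeval_inter (spSub (J i ℓ)).subtype
        (spRep (r i ℓ) (χ ℓ) (J i ℓ) (fun g => hsim i ℓ g) w σ⁻¹)
        (adm (r i ℓ σ⁻¹) (r i ℓ σ⁻¹⁻¹) (χ ℓ σ⁻¹ ^ (-w))) (fun Z => rfl)
        (Q'.map (Rat.castHom ℚ_[ℓ])) Z
      refine h1.trans ?_
      have hχσ : χ ℓ σ⁻¹ ^ (-w) = χ ℓ σ ^ w := by
        have h2 : χ ℓ σ⁻¹ = (χ ℓ σ)⁻¹ := by
          refine eq_inv_of_mul_eq_one_left ?_
          rw [← map_mul, inv_mul_cancel, map_one]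
        rw [h2, _root_.zpow_neg, _root_.inv_zpow, inv_inv]
      rw [inv_inv, hχσ]
      refine h σ (χ ℓ σ ^ w) _ ?_ Z.1 Z.2
      exact t_G2 ℚ_[ℓ] d (R ℓ σ) (R ℓ σ⁻¹) J' (χ ℓ σ ^ w) (Q v) Q'
        (by rw [← map_mul, inv_mul_cancel, map_one]) (hsimR σ) hJ' hQ' (hRQ ℓ v hv hvℓ σ hσ)
  have h3 : X = ∑ i, Pi.single i (X i) := by
    funext j
    rw [Finset.sum_apply, Finset.sum_eq_single j]
    · rw [Pi.single_eq_same]
    · intro i _ hij; rw [Pi.single_eq_of_ne hij.symm]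
    · intro h; exact absurd (Finset.mem_univ j) h
  have h4 : X ∈ Z2 (fun i => r i ℓ) (R ℓ) := by
    rw [h3]
    exact Submodule.sum_mem _ fun i _ => key i
  exact T2.toW h4

end Pool.Agent.N197.QF
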