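import Pool.Agent.N197.QF.Grp

/-!
# Project QF: the fibre products at all prime numbers
-/

set_option autoImplicit false

open Polynomial Filter Topology NumberField IsDedekindDomain Module Matrix
open Pool.Agent.Y142.ZO Pool.Agent.Y142.ZI Pool.Agent.Y142.ZS
open Pool.Agent.H204R3.GP (FiniteIndexSemisimple)
open Pool.Agent.N197.AP
open Pool.Agent.N171.TG.So (T2 WTanL Z2)
open Pool.Agent.R932.PO (JTan spSub JL)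
open Pool.Agent.R932.EV (SS SC)

namespace Pool.Agent.N197.QF

section twist

variable {k G : Type} [Field k] [Group G] {n : ℕ}

/-- the inverse of a character -/
def invChar (χ : G →* k) : G →* k where
  toFun g := χ g⁻¹
  map_one' := by rw [inv_one, map_one]
  map_mul' g h := by rw [_root_.mul_inv_rev, map_mul, mul_comm]

theorem invChar_mul (χ : G →* k) (g : G) : invChar χ g * χ g = 1 := by
  show χ g⁻¹ * χ g = 1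
  rw [← map_mul, inv_mul_cancel, map_one]

/-- the twist -/
def tw (χ : G →* k) (j : ℕ) (r : G →* Matrix (Fin n) (Fin n) k) : G →* Matrix (Fin n) (Fin n) k where
  toFun g := invChar χ g ^ (j + 1) • r g
  map_one' := by rw [map_one, map_one, one_pow, one_smul]
  map_mul' g h := by rw [map_mul, map_mul, mul_pow, smul_mul_smul_comm]

theorem tw_sim {χ : G →* k} {r : G →* Matrix (Fin n) (Fin n) k} {J : Matrix (Fin n) (Fin n) k}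
    (h : ∀ g, (r g)ᵀ * J * r g = χ g • J) (j : ℕ) (g : G) :
    (tw χ j r g)ᵀ * J * tw χ j r g = invChar χ g ^ (2 * j + 1) • J := by
  show (invChar χ g ^ (j + 1) • r g)ᵀ * J * (invChar χ g ^ (j + 1) • r g) = _
  rw [Matrix.transpose_smul, Matrix.smul_mul, Matrix.smul_mul, Matrix.mul_smul, h, smul_smul,
    smul_smul]
  congr 1
  have h1 := invChar_mul χ g
  calc invChar χ g ^ (j + 1) * invChar χ g ^ (j + 1) * χ g =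
      invChar χ g ^ (2 * j + 1) * (invChar χ g * χ g) := by ring
    _ = invChar χ g ^ (2 * j + 1) := by rw [h1, mul_one]

theorem ne_zero_char (χ : G →* k) (g : G) : χ g ≠ 0 := ((Group.isUnit g).map χ).ne_zero

theorem tw_ss {χ : G →* k} {r : G →* Matrix (Fin n) (Fin n) k} (h : SS r) (j : ℕ) :
    SS (tw χ j r) := by
  have h0 : ∀ (W : Submodule k (Fin n → k)), (∀ σ, ∀ w ∈ W, tw χ j r σ *ᵥ w ∈ W) ↔
      ∀ σ, ∀ w ∈ W, r σ *ᵥ w ∈ W := by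
    intro W
    have h1 : ∀ σ w, tw χ j r σ *ᵥ w ∈ W ↔ r σ *ᵥ w ∈ W := fun σ w => by
      show (invChar χ σ ^ (j + 1) • r σ) *ᵥ w ∈ W ↔ _
      rw [Matrix.smul_mulVec]
      exact Submodule.smul_mem_iff W (pow_ne_zero _ (ne_zero_char _ σ))
    exact ⟨fun h σ w hw => (h1 σ w).1 (h σ w hw), fun h σ w hw => (h1 σ w).2 (h σ w hw)⟩
  intro W hW
  obtain ⟨W', h1, h2⟩ := h W ((h0 W).1 hW)
  exact ⟨W', h1, (h0 W').2 h2⟩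

theorem tw_sc [TopologicalSpace G] {χ : G →* k} {r : G →* Matrix (Fin n) (Fin n) k} (h : SC r)
    (j : ℕ) : SC (tw χ j r) := by
  intro A U hU hA
  refine h A U hU fun σ hσ => ?_
  have h1 : A * (invChar χ σ ^ (j + 1) • r σ) = (invChar χ σ ^ (j + 1) • r σ) * A := hA σ hσ
  rw [Matrix.mul_smul, Matrix.smul_mul] at h1
  exact smul_right_injective _ (pow_ne_zero (j + 1) (ne_zero_char (invChar χ) σ)) h1

end twist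

theorem JL_eq {ι : Type} {N : ι → ℕ} (J : ∀ i, Matrix (Fin (N i)) (Fin (N i)) ℚ) (ℓ : ℕ)
    [Fact ℓ.Prime] (i : ι) : JL J ℓ i = (J i).map (Rat.castHom ℚ_[ℓ]) := by
  have h1 : algebraMap ℚ ℚ_[ℓ] = Rat.castHom ℚ_[ℓ] := Subsingleton.elim _ _
  show (J i).map (algebraMap ℚ ℚ_[ℓ]) = _
  rw [h1]

/-- **open kernels** -/
theorem open_all {K : Type} [Field K] [NumberField K] {ι : Type} [Fintype ι] [Nonempty ι]
    [DecidableEq ι] {N : ι → ℕ} {d m : ℕ} {w : ℤ}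
    (S : Set (HeightOneSpectrum (𝓞 K))) (hS : S.Finite)
    (P : ι → HeightOneSpectrum (𝓞 K) → ℚ[X]) (Q : HeightOneSpectrum (𝓞 K) → ℚ[X])
    (hP : ∀ v ∉ S, ∀ i, ∀ z : ℂ, aeval z (P i v) = 0 →
      ‖z‖ ^ 2 = (Ideal.absNorm v.asIdeal : ℝ) ∧ IsIntegral ℤ ((Ideal.absNorm v.asIdeal : ℂ) ^ m * z))
    (hQ : ∀ v ∉ S, ∀ z : ℂ, aeval z (Q v) = 0 →
      ‖z‖ ^ 2 = (Ideal.absNorm v.asIdeal : ℝ) ^ w ∧
        IsIntegral ℤ ((Ideal.absNorm v.asIdeal : ℂ) ^ m * z))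
    (χ : ∀ (ℓ : ℕ) [Fact ℓ.Prime], GK K →* ℚ_[ℓ])
    (hχc : ∀ (ℓ : ℕ) [Fact ℓ.Prime], Continuous (χ ℓ))
    (J : ∀ i : ι, Matrix (Fin (N i)) (Fin (N i)) ℚ)
    (r : ∀ (i : ι) (ℓ : ℕ) [Fact ℓ.Prime], GK K →* Matrix (Fin (N i)) (Fin (N i)) ℚ_[ℓ])
    (hr : ∀ (i : ι) (ℓ : ℕ) [Fact ℓ.Prime], Continuous (r i ℓ))
    (hJ : ∀ i : ι, (J i)ᵀ = -J i) (hdet : ∀ i : ι, (J i).det ≠ 0)
    (hsim : ∀ (i : ι) (ℓ : ℕ) [Fact ℓ.Prime] (g : GK K),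
      (r i ℓ g)ᵀ * (J i).map (Rat.castHom ℚ_[ℓ]) * r i ℓ g =
        χ ℓ g • (J i).map (Rat.castHom ℚ_[ℓ]))
    (hχ : ∀ (ℓ : ℕ) [Fact ℓ.Prime], ∀ v ∉ S, (ℓ : 𝓞 K) ∉ v.asIdeal → ∀ σ : GK K,
      IsFrobenius v σ → χ ℓ σ = (Ideal.absNorm v.asIdeal : ℚ_[ℓ]))
    (hfrob : ∀ (i : ι) (ℓ : ℕ) [Fact ℓ.Prime], ∀ v ∉ S, (ℓ : 𝓞 K) ∉ v.asIdeal → ∀ σ : GK K,
      IsFrobenius v σ → (r i ℓ σ).charpoly = (P i v).map (Rat.castHom ℚ_[ℓ]))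
    (e : ∀ i, Fin (N i + 1) → Fin (N i) → ℚ_[2]) (h6 : ∀ i, 6 ≤ N i)
    (hint : ∀ i g a b, ‖r i 2 g a b‖ ≤ 1)
    (hJint : ∀ i a b, ‖(J i).map (Rat.castHom ℚ_[2]) a b‖ ≤ 1)
    (heint : ∀ i a b, ‖e i a b‖ ≤ 1)
    (he : ∀ i a b, a ≠ b → ‖e i a ⬝ᵥ (J i).map (Rat.castHom ℚ_[2]) *ᵥ e i b‖ = 1)
    (hbig : ∀ i (π : Equiv.Perm (Fin (N i + 1))), Equiv.Perm.sign π = 1 → ∃ g,
      (∀ a b, ‖(r i 2 g *ᵥ e i a - e i (π a)) b‖ < 1) ∧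
      ∀ j, j ≠ i → ∀ a b, ‖(r j 2 g - 1) a b‖ < 1)
    (R : ∀ (ℓ : ℕ) [Fact ℓ.Prime], GK K →* Matrix (Fin d) (Fin d) ℚ_[ℓ])
    (hR : ∀ (ℓ : ℕ) [Fact ℓ.Prime], Continuous (R ℓ))
    (htint : ∀ g a b, ‖R 2 g a b‖ ≤ 1)
    (ht : ∀ i, 2 ^ (d ^ 2 + 1) < (N i + 1).factorial ∨
      ∃ (g : GK K) (π : ∀ j, Equiv.Perm (Fin (N j + 1))), (∀ a b, ‖(R 2 g - 1) a b‖ < 1) ∧ π i ≠ 1 ∧
        ∀ j a b, ‖(r j 2 g *ᵥ e j a - e j (π j a)) b‖ < 1)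
    (hRQ : ∀ (ℓ : ℕ) [Fact ℓ.Prime], ∀ v ∉ S, (ℓ : 𝓞 K) ∉ v.asIdeal → ∀ σ : GK K,
      IsFrobenius v σ → (R ℓ σ).charpoly = (Q v).map (Rat.castHom ℚ_[ℓ]))
    (J' : Matrix (Fin d) (Fin d) ℚ) (hJ' : J'.det ≠ 0)
    (hsimR : ∀ (ℓ : ℕ) [Fact ℓ.Prime] (g : GK K),
      (R ℓ g)ᵀ * J'.map (Rat.castHom ℚ_[ℓ]) * R ℓ g = χ ℓ g ^ w • J'.map (Rat.castHom ℚ_[ℓ])) :
    Pool.Agent.Y142.ZI.DensityZero {ℓ | ∃ _ : Fact ℓ.Prime, ¬ Pool.Agent.N171.TG.Zd.OpenK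
      (fun i => (J i).map (Rat.castHom ℚ_[ℓ])) (fun i => r i ℓ) (R ℓ) (χ ℓ)} ∧
    ∀ (ℓ : ℕ) [Fact ℓ.Prime], ((∀ i, SS (r i ℓ)) ∨ finrank ℚ K = 1) → (∀ i, SC (r i ℓ)) →
      Pool.Agent.N171.TG.Zd.OpenK
      (fun i => (J i).map (Rat.castHom ℚ_[ℓ])) (fun i => r i ℓ) (R ℓ) (χ ℓ) := by
  have hdet' : ∀ (ℓ : ℕ) [Fact ℓ.Prime] {n : ℕ} (M : Matrix (Fin n) (Fin n) ℚ), M.det ≠ 0 →
      (M.map (Rat.castHom ℚ_[ℓ])).det ≠ 0 := fun ℓ _ n M hM => by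
    have h1 : (M.map (Rat.castHom ℚ_[ℓ])).det = Rat.castHom ℚ_[ℓ] M.det :=
      (RingHom.map_det (Rat.castHom ℚ_[ℓ]) M).symm
    rw [h1]
    exact (_root_.map_ne_zero _).2 hM
  have halt : ∀ (ℓ : ℕ) [Fact ℓ.Prime] {n : ℕ} (M : Matrix (Fin n) (Fin n) ℚ), Mᵀ = -M →
      (M.map (Rat.castHom ℚ_[ℓ]))ᵀ = -M.map (Rat.castHom ℚ_[ℓ]) := fun ℓ _ n M hM => by
    have h1 : (M.map (Rat.castHom ℚ_[ℓ]))ᵀ = Mᵀ.map (Rat.castHom ℚ_[ℓ]) := rfl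
    rw [h1, hM]
    exact Matrix.ext fun i j => map_neg (Rat.castHom ℚ_[ℓ]) (M i j)
  have hpos : ∀ i, 0 < N i := fun i => lt_of_lt_of_le (by norm_num) (h6 i)
  -- tangent vectors of the twists
  have htan : ∀ (ℓ : ℕ) [Fact ℓ.Prime] (X : ∀ i, Matrix (Fin (N i)) (Fin (N i)) ℚ_[ℓ]),
      (∀ i, SpLie ((J i).map (Rat.castHom ℚ_[ℓ])) (X i)) →
      (JTan ℓ (fun i => r i ℓ) X ↔ JTan ℓ (fun i => tw (χ ℓ) 0 (r i ℓ)) X) := by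
    intro ℓ _ X hX
    have h1 : ∀ i (σ : ℕ → GK K), Tendsto (fun m : ℕ => ((ℓ : ℚ_[ℓ]) ^ m)⁻¹ •
        (r i ℓ (σ m) - 1)) atTop (𝓝 (X i)) ↔ Tendsto (fun m : ℕ => ((ℓ : ℚ_[ℓ]) ^ m)⁻¹ •
        (tw (χ ℓ) 0 (r i ℓ) (σ m) - 1)) atTop (𝓝 (X i)) := fun i σ =>
      t_G8 ℓ (N i) ((J i).map (Rat.castHom ℚ_[ℓ])) (hpos i) (hdet' ℓ _ (hdet i)) (GK K) (r i ℓ)
        (tw (χ ℓ) 0 (r i ℓ)) (χ ℓ) (hsim i ℓ) (fun g => by
          show invChar (χ ℓ) g ^ (0 + 1) • r i ℓ g = _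
          rw [zero_add, pow_one]
          rfl) σ (X i) (hX i)
    exact ⟨fun ⟨σ, hσ⟩ => ⟨σ, fun i => (h1 i σ).1 (hσ i)⟩,
      fun ⟨σ, hσ⟩ => ⟨σ, fun i => (h1 i σ).2 (hσ i)⟩⟩
  have h2full : ∀ X, (∀ i, SpLie (JL J 2 i) (X i)) →
      JTan 2 (fun i => tw (χ 2) 0 (r i 2)) X := by
    intro X hX
    have hX' : ∀ i, SpLie ((J i).map (Rat.castHom ℚ_[2])) (X i) := fun i => by
      rw [← JL_eq J 2 i]
      exact hX i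
    obtain ⟨σ, h1, -⟩ := Pool.Agent.N171.TG.wtan_of_large (fun i => r i 2)
      (fun i => (J i).map (Rat.castHom ℚ_[2])) (fun _ => χ 2)
      (fun i => Pool.Agent.R932.OP.even_of_alt (halt 2 _ (hJ i)) (hdet' 2 _ (hdet i))) h6
      (fun i => halt 2 _ (hJ i)) hint hJint (fun i g => hsim i 2 g) e heint he hbig (R 2) htint ht
      X hX'
    exact (htan 2 X hX').1 ⟨σ, h1⟩
  obtain ⟨-, r1, r2, -, -⟩ := Pool.Agent.N171.TG.mt_all (w := fun _ => 1) (P := P) hS J hJ hpos hdet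
    (fun ℓ _ => invChar (χ ℓ)) (fun ℓ _ => (hχc ℓ).comp continuous_inv)
    (fun ℓ _ v hv hvℓ σ hσ => by
      show χ ℓ σ⁻¹⁻¹ = _
      rw [inv_inv]
      exact hχ ℓ v hv hvℓ σ hσ)
    (fun i ℓ _ => tw (χ ℓ) 0 (r i ℓ))
    (fun i ℓ _ => ((((hχc ℓ).comp continuous_inv).pow 1).smul (hr i ℓ)))
    (fun i ℓ _ g => by
      have h1 := tw_sim (χ := χ ℓ) (hsim i ℓ) 0 g
      rw [← JL_eq J ℓ i] at h1
      exact h1)
    (fun i ℓ _ v hv hvℓ σ hσ => by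
      have h1 : algebraMap ℚ ℚ_[ℓ] = Rat.castHom ℚ_[ℓ] := Subsingleton.elim _ _
      rw [h1, ← hfrob i ℓ v hv hvℓ σ hσ]
      have h2 : tw (χ ℓ) 0 (r i ℓ) σ⁻¹ = χ ℓ σ • r i ℓ σ⁻¹ := by
        show (χ ℓ σ⁻¹⁻¹) ^ (0 + 1) • r i ℓ σ⁻¹ = _
        rw [inv_inv, zero_add, pow_one]
      rw [h2]
      exact t_G9 ℚ_[ℓ] (N i) ((J i).map (Rat.castHom ℚ_[ℓ])) (r i ℓ σ) (r i ℓ σ⁻¹) (χ ℓ σ)
        (by rw [← map_mul, inv_mul_cancel, map_one]) (hsim i ℓ σ) (hdet' ℓ _ (hdet i)))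
    2 h2full
  have key : ∀ (ℓ : ℕ) [Fact ℓ.Prime],
      Pool.Agent.N171.TG.MTAt ℓ (fun _ => 1) (JL J ℓ) (fun i => tw (χ ℓ) 0 (r i ℓ))
        (invChar (χ ℓ)) → Pool.Agent.N171.TG.Zd.OpenK
      (fun i => (J i).map (Rat.castHom ℚ_[ℓ])) (fun i => r i ℓ) (R ℓ) (χ ℓ) := by
    intro ℓ hℓ hmt
    have hF : ∀ X : ∀ i, Matrix (Fin (N i)) (Fin (N i)) ℚ_[ℓ],
        (∀ i, SpLie ((J i).map (Rat.castHom ℚ_[ℓ])) (X i)) → JTan ℓ (fun i => r i ℓ) X := by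
      intro X hX
      refine (htan ℓ X hX).2 (Pool.Agent.N171.TG.So.jtan_of_mt hmt X fun i => ?_)
      rw [JL_eq J ℓ i]
      exact hX i
    refine Pool.Agent.N171.TG.So.open_of_wtan (w := fun _ => 1) (fun i => hr i ℓ) (hR ℓ) (hχc ℓ)
      (fun i => halt ℓ _ (hJ i)) (fun i => hdet' ℓ _ (hdet i)) (fun i g => by
        show _ = χ ℓ g ^ 1 • _
        rw [pow_one]
        exact hsim i ℓ g) fun X hX => ?_
    exact wtanL_all S hS P Q hP hQ χ (fun i ℓ _ => (J i).map (Rat.castHom ℚ_[ℓ])) r hr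
      (fun i ℓ _ => halt ℓ _ (hJ i)) (fun i ℓ _ => hdet' ℓ _ (hdet i)) hsim hχ hfrob e h6 hint hJint
      heint he hbig R hR htint ht hRQ ℓ (J'.map (Rat.castHom ℚ_[ℓ])) (hdet' ℓ _ hJ') (hsimR ℓ) hF
      X hX
  refine ⟨?_, fun ℓ _ hss hsc => ?_⟩
  · refine Pool.Agent.Y142.ZI.DensityZero.mono r1 ?_
    rintro ℓ ⟨hℓ, hn⟩
    exact ⟨hℓ, fun hm => hn (key ℓ hm.1)⟩
  · refine key ℓ (r2 ℓ (fun i => tw_ss ?_ 0) (fun i => tw_sc (hsc i) 0)).1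
    rcases hss with hss | hK
    · exact hss i
    · intro W hW
      obtain ⟨W', h1, h2⟩ := t_SS2 t_SS K hK (N i) m S hS (P i) (fun v hv => hP v hv i)
        (fun ℓ _ => r i ℓ) (fun ℓ _ => (J i).map (Rat.castHom ℚ_[ℓ])) χ
        (fun ℓ _ => ⟨hr i ℓ, hχc ℓ, halt ℓ _ (hJ i), hdet' ℓ _ (hdet i), hsim i ℓ⟩)
        (fun ℓ _ v hv hvℓ σ hσ => ⟨hfrob i ℓ v hv hvℓ σ hσ, hχ ℓ v hv hvℓ σ hσ⟩) (fun X hX => by
          have hX' : ∀ j, SpLie ((J j).map (Rat.castHom ℚ_[2]))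
              ((Function.update 0 i X : ∀ j, Matrix (Fin (N j)) (Fin (N j)) ℚ_[2]) j) := fun j => by
            by_cases hj : j = i
            · subst hj
              rw [Function.update_self]
              exact hX
            · rw [Function.update_of_ne hj]
              show (0 : Matrix _ _ ℚ_[2])ᵀ * _ + _ * 0 = 0
              simp
          obtain ⟨σ, hσ⟩ := (htan 2 _ hX').2 (h2full _ fun j => by
            rw [JL_eq J 2 j]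
            exact hX' j)
          have h1 := hσ i
          rw [Function.update_self] at h1
          exact ⟨σ, h1⟩) ℓ ⊤ inferInstance W (fun g _ => hW g)
      exact ⟨W', h2, fun g => h1 g trivial⟩

end Pool.Agent.N197.QF
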