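import Pool.Agent.N197.QF.Stm

/-!
# Project QF, task KP1: the characteristic polynomial of a Kronecker power
-/

set_option autoImplicit false

open Polynomial Module

namespace Pool.Agent.N197.QF

namespace KP1aux

open Finset in
theorem exists_flag_basis {E : Type} [Field E] [IsAlgClosed E] (n : ℕ) : ∀ (V : Type) [AddCommGroup V] [Module E V]
    [FiniteDimensional E V], finrank E V = n → ∀ f : Module.End E V,
    ∃ b : Basis (Fin n) E V, ∀ i j, j < i → b.repr (f (b j)) i = 0 := by
  induction n with
  | zero =>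
    intro V _ _ _ hV f
    exact ⟨finBasisOfFinrankEq E V hV, fun i => Fin.elim0 i⟩
  | succ n ih =>
    intro V _ _ _ hV f
    have : Nontrivial V := by
      apply Module.nontrivial_of_finrank_pos (R := E)
      omega
    obtain ⟨μ, hμ⟩ := f.exists_eigenvalue
    set h : Module.End E V := f - μ • (1 : Module.End E V) with hh
    have hker : LinearMap.ker h ≠ ⊥ := by
      obtain ⟨x, hx⟩ := hμ.exists_hasEigenvector
      intro hbot
      apply hx.2
      have : x ∈ LinearMap.ker h := by
        rw [LinearMap.mem_ker, hh]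
        simp [hx.apply_eq_smul]
      rw [hbot, Submodule.mem_bot] at this
      exact this
    have hrange : LinearMap.range h < ⊤ := by
      rw [lt_top_iff_ne_top]
      intro htop
      exact hker (LinearMap.ker_eq_bot_iff_range_eq_top.2 htop)
    obtain ⟨φ, hφ0, hφ⟩ := Submodule.exists_le_ker_of_lt_top _ hrange
    set W := LinearMap.ker φ with hW
    obtain ⟨y, hy⟩ : ∃ y, φ y ≠ 0 := by
      by_contra hcon
      push Not at hcon
      exact hφ0 (LinearMap.ext hcon)
    have hWf : ∀ w ∈ W, f w ∈ W := by
      intro w hw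
      have e : f w = μ • w + h w := by
        rw [hh]; simp
      rw [e]
      exact W.add_mem (W.smul_mem _ hw) (hφ ⟨w, rfl⟩)
    have hfin : finrank E W = n := by
      have h1 := LinearMap.finrank_range_add_finrank_ker φ
      have h2 : LinearMap.range φ = ⊤ := by
        rw [eq_top_iff]
        intro c _
        refine ⟨(c / φ y) • y, ?_⟩
        rw [map_smul, smul_eq_mul, div_mul_cancel₀ _ hy]
      rw [h2, finrank_top, finrank_self, hV] at h1
      rw [hW]
      omega
    obtain ⟨b', hb'⟩ := ih W hfin (f.restrict hWf)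
    have hli : ∀ (c : E), ∀ x ∈ W, c • y + x = 0 → c = 0 := by
      intro c x hx hc
      have := congrArg φ hc
      rw [map_add, map_smul, LinearMap.mem_ker.1 hx, add_zero, map_zero, smul_eq_mul] at this
      exact (mul_eq_zero.1 this).resolve_right hy
    have hsp : ∀ z : V, ∃ c : E, z + c • y ∈ W := by
      intro z
      refine ⟨-(φ z / φ y), ?_⟩
      rw [hW, LinearMap.mem_ker, map_add, map_smul, smul_eq_mul, neg_mul, div_mul_cancel₀ _ hy]
      ring
    set b := Basis.mkFinSnoc b' y hli hsp with hb
    have bcast : ∀ k : Fin n, b (Fin.castSucc k) = (b' k : V) := by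
      intro k
      rw [hb, Basis.coe_mkFinSnoc, Fin.snoc_castSucc]
      rfl
    refine ⟨b, ?_⟩
    intro i j hij
    obtain ⟨j', rfl⟩ : ∃ j' : Fin n, j = Fin.castSucc j' := by
      refine ⟨⟨j.val, ?_⟩, ?_⟩
      · have h1 := i.isLt
        have h2 : j.val < i.val := hij
        omega
      · ext; rfl
    have e1 : f (b (Fin.castSucc j')) = ∑ k, b'.repr (f.restrict hWf (b' j')) k •
        b (Fin.castSucc k) := by
      have e2 := congrArg (Submodule.subtype W) (b'.sum_repr (f.restrict hWf (b' j')))
      rw [map_sum] at e2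
      rw [bcast]
      have e3 : (Submodule.subtype W) (f.restrict hWf (b' j')) = f (b' j' : V) := rfl
      rw [← e3, ← e2]
      apply Finset.sum_congr rfl
      intro k _
      rw [map_smul, bcast]
      rfl
    rw [e1, map_sum, Finsupp.finsetSum_apply]
    apply Finset.sum_eq_zero
    intro k _
    rw [map_smul, Basis.repr_self, Finsupp.smul_apply, smul_eq_mul]
    by_cases hk : Fin.castSucc k = i
    · have : j' < k := by
        rw [← hk] at hij
        exact hij
      rw [hb' k j' this, zero_mul]
    · rw [Finsupp.single_eq_of_ne (Ne.symm hk), mul_zero]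

open Finset in
/-- every matrix over an algebraically closed field is similar to an upper triangular one -/
theorem exists_triangular {E : Type} [Field E] [IsAlgClosed E] {n : ℕ} (L : Matrix (Fin n) (Fin n) E) :
    ∃ U R : Matrix (Fin n) (Fin n) E, IsUnit U ∧ L * U = U * R ∧ ∀ i j, j < i → R i j = 0 := by
  obtain ⟨b, hb⟩ := exists_flag_basis n (Fin n → E) (by simp) (Matrix.toLin' L)
  refine ⟨Matrix.of (fun i j => b j i), Matrix.of (fun i j => b.repr (Matrix.toLin' L (b j)) i),
    ?_, ?_, ?_⟩
  · have e : Matrix.of (fun i j => b j i) = (Pi.basisFun E (Fin n)).toMatrix b := by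
      ext i j
      simp [Basis.toMatrix_apply]
    rw [e]
    have := (Pi.basisFun E (Fin n)).invertibleToMatrix b
    exact isUnit_of_invertible _
  · ext i j
    rw [Matrix.mul_apply, Matrix.mul_apply]
    simp only [Matrix.of_apply]
    have e := congrFun (b.sum_repr (Matrix.toLin' L (b j))) i
    rw [Finset.sum_apply] at e
    have e2 : (Matrix.toLin' L (b j)) i = ∑ k, L i k * b j k := by
      rw [Matrix.toLin'_apply]
      rfl
    rw [← e2, ← e]
    apply Finset.sum_congr rfl
    intro k _
    rw [Pi.smul_apply, smul_eq_mul, mul_comm]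
  · intro i j hij
    rw [Matrix.of_apply]
    exact hb i j hij

/-! ### Kronecker powers -/

section kp

variable {R R' : Type} [CommRing R] [CommRing R'] {b d : ℕ}

lemma kp_apply (g : Matrix (Fin d) (Fin d) R) (i j : Fin b → Fin d) :
    kp b g i j = ∏ k, g (i k) (j k) := rfl

lemma kp_one : kp b (1 : Matrix (Fin d) (Fin d) R) = 1 := by
  ext i j
  rw [kp_apply]
  by_cases h : i = j
  · subst h; simp
  · rw [Matrix.one_apply_ne h]
    obtain ⟨k, hk⟩ := Function.ne_iff.1 h
    exact Finset.prod_eq_zero (Finset.mem_univ k) (Matrix.one_apply_ne hk)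

lemma kp_mul (g h : Matrix (Fin d) (Fin d) R) : kp b (g * h) = kp b g * kp b h := by
  ext i j
  simp only [kp_apply, Matrix.mul_apply]
  rw [Finset.prod_univ_sum]
  refine Finset.sum_congr (by ext; simp) fun a _ => ?_
  rw [Finset.prod_mul_distrib]

lemma kp_map (f : R →+* R') (g : Matrix (Fin d) (Fin d) R) :
    kp b (g.map f) = (kp b g).map f := by
  ext i j
  simp [kp_apply]

end kp

/-- The characteristic polynomial of a matrix which is triangular for a partial order. -/
lemma charpoly_po {m : Type} [Fintype m] [DecidableEq m] [PartialOrder m] {R : Type} [CommRing R]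
    (M : Matrix m m R) (h : ∀ u v, ¬ u ≤ v → M u v = 0) : M.charpoly = ∏ u, (X - C (M u u)) := by
  let i1 : Fintype (LinearExtension m) := inferInstanceAs (Fintype m)
  let i2 : DecidableEq (LinearExtension m) := inferInstanceAs (DecidableEq m)
  refine Matrix.charpoly_of_isUpperTriangular (n := LinearExtension m) (R := R) M ?_
  intro i j hij
  refine h i j fun hle => ?_
  have h1 : (toLinearExtension i : LinearExtension m) ≤ toLinearExtension j :=
    toLinearExtension.monotone hle
  exact absurd hij (not_lt.2 h1)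

/-- The characteristic polynomials of a matrix and of its Kronecker power. -/
theorem kp_charpoly {E : Type} [Field E] [IsAlgClosed E] (b : ℕ) {d : ℕ}
    (A : Matrix (Fin d) (Fin d) E) : ∃ a : Fin d → E, A.charpoly = ∏ i, (X - C (a i)) ∧
      (kp b A).charpoly = ∏ u : Fin b → Fin d, (X - C (∏ j, a (u j))) := by
  obtain ⟨U, T, hU, hUT, hT⟩ := exists_triangular A
  obtain ⟨P, rfl⟩ := hU
  have e1 : A = (P : Matrix (Fin d) (Fin d) E) * T * ((P⁻¹ : (Matrix (Fin d) (Fin d) E)ˣ) :
      Matrix (Fin d) (Fin d) E) := by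
    rw [← hUT, mul_assoc, Units.mul_inv, mul_one]
  have h1 : A.charpoly = T.charpoly := by
    rw [e1, Matrix.charpoly_mul_comm, ← mul_assoc, Units.inv_mul, one_mul]
  have h2 : (kp b A).charpoly = (kp b T).charpoly := by
    rw [e1, kp_mul, Matrix.charpoly_mul_comm, kp_mul, ← mul_assoc, ← kp_mul, Units.inv_mul,
      kp_one, one_mul]
  refine ⟨fun i => T i i, ?_, ?_⟩
  · rw [h1]
    exact charpoly_po T fun u v huv => hT u v (not_le.1 huv)
  · rw [h2, charpoly_po (kp b T)]
    · rfl
    · intro u v huv
      rw [Pi.le_def] at huv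
      push Not at huv
      obtain ⟨k, hk⟩ := huv
      rw [kp_apply]
      exact Finset.prod_eq_zero (Finset.mem_univ k) (hT _ _ hk)

/-- The product over all words depends only on the multiset of the letters. -/
theorem prod_words {E M : Type} [CommMonoid E] [CommMonoid M] {d : ℕ} {a a' : Fin d → E}
    (h : Multiset.map a (Finset.univ : Finset (Fin d)).val =
      Multiset.map a' (Finset.univ : Finset (Fin d)).val) : ∀ (b : ℕ) (F : E → M),
    ∏ u : Fin b → Fin d, F (∏ j, a (u j)) = ∏ u : Fin b → Fin d, F (∏ j, a' (u j)) := by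
  intro b
  induction b with
  | zero =>
    intro F
    simp
  | succ b ih =>
    intro F
    have step : ∀ c : Fin d → E, ∏ u : Fin (b + 1) → Fin d, F (∏ j, c (u j)) =
        ∏ i : Fin d, ∏ u : Fin b → Fin d, F (c i * ∏ j, c (u j)) := by
      intro c
      rw [← Fintype.prod_prod_type']
      refine (Fintype.prod_equiv (Fin.consEquiv fun _ : Fin (b + 1) => Fin d) _ _ ?_).symm
      rintro ⟨i, u⟩
      simp [Fin.consEquiv, Fin.prod_univ_succ]
    have hm : ∀ (G : E → M) (c : Fin d → E), ∏ i, G (c i) =
        (Multiset.map G (Multiset.map c (Finset.univ : Finset (Fin d)).val)).prod := by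
      intro G c
      rw [Multiset.map_map]
      rfl
    rw [step, step]
    have e1 : ∀ z : E, ∏ u : Fin b → Fin d, F (z * ∏ j, a (u j)) =
        ∏ u : Fin b → Fin d, F (z * ∏ j, a' (u j)) := fun z => ih fun t => F (z * t)
    simp only [e1]
    rw [hm (fun z => ∏ u : Fin b → Fin d, F (z * ∏ j, a' (u j))) a, h, ← hm]

theorem kp_congr_closed {E : Type} [Field E] [IsAlgClosed E] (b : ℕ) {d : ℕ}
    {A A' : Matrix (Fin d) (Fin d) E} (h : A.charpoly = A'.charpoly) :
    (kp b A).charpoly = (kp b A').charpoly := by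
  obtain ⟨a, h1, h2⟩ := kp_charpoly b A
  obtain ⟨a', h1', h2'⟩ := kp_charpoly b A'
  have hr : ∀ c : Fin d → E, (∏ i, (X - C (c i))).roots =
      Multiset.map c (Finset.univ : Finset (Fin d)).val := by
    intro c
    rw [← Polynomial.roots_multiset_prod_X_sub_C
      (Multiset.map c (Finset.univ : Finset (Fin d)).val), Multiset.map_map]
    rfl
  have hm : Multiset.map a (Finset.univ : Finset (Fin d)).val =
      Multiset.map a' (Finset.univ : Finset (Fin d)).val := by
    rw [← hr, ← hr, ← h1, ← h1', h]
  rw [h2, h2']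
  exact prod_words hm b fun t => X - C t

theorem kp_congr {k : Type} [Field k] (b : ℕ) {d : ℕ}
    {A A' : Matrix (Fin d) (Fin d) k} (h : A.charpoly = A'.charpoly) :
    (kp b A).charpoly = (kp b A').charpoly := by
  have h1 := kp_congr_closed (E := AlgebraicClosure k) b
    (A := A.map (algebraMap k (AlgebraicClosure k)))
    (A' := A'.map (algebraMap k (AlgebraicClosure k)))
    (by rw [Matrix.charpoly_map, Matrix.charpoly_map, h])
  rw [kp_map, kp_map, Matrix.charpoly_map, Matrix.charpoly_map] at h1
  exact Polynomial.map_injective _ (algebraMap k (AlgebraicClosure k)).injective h1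

/-- the companion matrix -/
theorem companion (Q : ℚ[X]) (hQ : Q.Monic) :
    ∃ A : Matrix (Fin Q.natDegree) (Fin Q.natDegree) ℚ, A.charpoly = Q := by
  have h1 := charpoly_leftMulMatrix (AdjoinRoot.powerBasis' hQ)
  have h2 : minpoly ℚ (AdjoinRoot.powerBasis' hQ).gen = Q := by
    have h3 := AdjoinRoot.minpoly_root (f := Q) hQ.ne_zero
    rw [hQ.leadingCoeff, inv_one, C_1, mul_one] at h3
    exact h3
  rw [h2] at h1
  exact ⟨_, h1⟩

end KP1aux

open KP1aux in
theorem t_KP1 : S_KP1 := by
  intro b d Q hQ hd
  subst hd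
  obtain ⟨A₀, hA₀⟩ := companion Q hQ
  refine ⟨(kp b A₀).charpoly, Matrix.charpoly_monic _, ?_, ?_⟩
  · intro k _ _ A hA
    rw [← Matrix.charpoly_map, ← kp_map]
    apply kp_congr
    rw [hA, Matrix.charpoly_map, hA₀]
  · intro z hz
    obtain ⟨a, h1, h2⟩ := kp_charpoly b (A₀.map (algebraMap ℚ ℂ))
    rw [Matrix.charpoly_map, hA₀] at h1
    rw [kp_map, Matrix.charpoly_map] at h2
    rw [← Polynomial.eval_map_algebraMap, h2, Polynomial.eval_prod,
      Finset.prod_eq_zero_iff] at hz
    obtain ⟨u, -, hu⟩ := hz
    refine ⟨fun j => a (u j), fun j => ?_, ?_⟩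
    · rw [← Polynomial.eval_map_algebraMap, h1, Polynomial.eval_prod]
      refine Finset.prod_eq_zero (Finset.mem_univ (u j)) ?_
      simp
    · rw [Polynomial.eval_sub, Polynomial.eval_X, Polynomial.eval_C] at hu
      exact sub_eq_zero.1 hu

end Pool.Agent.N197.QF
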