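import Mathlib

/-!
# Project QF (helper197): the Lie algebra of the Tate tensors of a product, at every prime number.
# Statements of the tasks
-/

set_option autoImplicit false

open Polynomial Filter Topology Module

namespace Pool.Agent.N197.QF

/-- the Kronecker power of a matrix -/
def kp {F : Type} [CommRing F] (b : ℕ) {d : ℕ} (A : Matrix (Fin d) (Fin d) F) :
    Matrix (Fin b → Fin d) (Fin b → Fin d) F :=
  Matrix.of fun u v => ∏ k, A (u k) (v k)

/-- `Q'` is the polynomial whose roots are the products of `b` roots of `Q` -/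
structure IsPower (b d : ℕ) (Q Q' : ℚ[X]) : Prop where
  monic : Q'.Monic
  charpoly : ∀ (k : Type) [Field k] [CharZero k] (A : Matrix (Fin d) (Fin d) k),
    A.charpoly = Q.map (Rat.castHom k) → (kp b A).charpoly = Q'.map (Rat.castHom k)
  roots : ∀ z : ℂ, aeval z Q' = 0 → ∃ β : Fin b → ℂ, (∀ j, aeval (β j) Q = 0) ∧ z = ∏ j, β j

/-- task KP1 -/
def S_KP1 : Prop := ∀ (b d : ℕ) (Q : ℚ[X]), Q.Monic → Q.natDegree = d → ∃ Q' : ℚ[X], IsPower b d Q Q'

/-- composition with `T` in all variables -/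
def compAll {k W : Type} [Field k] [AddCommGroup W] [Module k W] (b : ℕ) (T : W →ₗ[k] W) :
    Module.End k (MultilinearMap k (fun _ : Fin b => W) k) where
  toFun φ := φ.compLinearMap fun _ => T
  map_add' _ _ := rfl
  map_smul' _ _ := rfl

/-- task KP2: the polynomial annihilates the action on the multilinear forms -/
def S_KP2 : Prop := ∀ (k : Type) [Field k] [CharZero k] (W : Type) [AddCommGroup W] [Module k W]
  [FiniteDimensional k W] (b d : ℕ) (Q Q' : ℚ[X]), finrank k W = d → IsPower b d Q Q' →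
  ∀ T : W →ₗ[k] W, LinearMap.charpoly T = Q.map (Rat.castHom k) →
    aeval (compAll b T) (Q'.map (Rat.castHom k)) = 0

/-- task KP3: limits of Kronecker powers -/
def S_KP3 : Prop := ∀ (b d : ℕ) (A B : ℕ → Matrix (Fin d) (Fin d) ℚ_[2]),
  (∀ m, A m * B m = 1) →
  Tendsto (fun m : ℕ => (((2 : ℕ) : ℚ_[2]) ^ m)⁻¹ • (A m - 1)) atTop (𝓝 0) →
  Tendsto (fun m : ℕ => (((2 : ℕ) : ℚ_[2]) ^ m)⁻¹ • (kp b (B m).transpose - 1)) atTop (𝓝 0)

end Pool.Agent.N197.QF
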