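import Mathlib
import Pool.Agent.N197.QF.Stm

/-!
# KP2: the polynomial annihilates the action on the multilinear forms
-/

set_option autoImplicit false

open Polynomial Filter Topology Module

namespace Pool.Agent.N197.QF

namespace Kp2

variable {k W : Type} [Field k] [AddCommGroup W] [Module k W] {b d : ℕ}

/-- evaluation on the basis -/
noncomputable def ev (b : ℕ) (e : Basis (Fin d) k W) :
    MultilinearMap k (fun _ : Fin b => W) k →ₗ[k] ((Fin b → Fin d) → k) where
  toFun φ := fun u => φ fun j => e (u j)
  map_add' _ _ := rfl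
  map_smul' _ _ := rfl

theorem ev_inj (e : Basis (Fin d) k W) : Function.Injective (ev b e) := by
  intro φ ψ h
  refine Basis.ext_multilinear (fun _ => e) fun v => ?_
  exact congrFun h v

theorem ev_comp (e : Basis (Fin d) k W) (T : W →ₗ[k] W)
    (φ : MultilinearMap k (fun _ : Fin b => W) k) :
    ev b e (compAll b T φ) =
      (Matrix.toLin' (kp b (LinearMap.toMatrix e e T)).transpose) (ev b e φ) := by
  classical
  funext u
  rw [Matrix.toLin'_apply]
  change φ (fun j => T (e (u j))) = ∑ r, (kp b (LinearMap.toMatrix e e T)).transpose u r *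
    φ (fun j => e (r j))
  have h1 : (fun j => T (e (u j))) =
      fun j => ∑ i, (LinearMap.toMatrix e e T) i (u j) • e i := by
    funext j
    conv_lhs => rw [← e.sum_repr (T (e (u j)))]
    exact Finset.sum_congr rfl fun i _ => by rw [LinearMap.toMatrix_apply]
  rw [h1, φ.map_sum (fun j i => (LinearMap.toMatrix e e T) i (u j) • e i)]
  refine Finset.sum_congr rfl fun r _ => ?_
  rw [φ.map_smul_univ (fun j => (LinearMap.toMatrix e e T) (r j) (u j)) (fun j => e (r j)),
    smul_eq_mul]
  rfl

theorem ev_aeval (e : Basis (Fin d) k W) (T : W →ₗ[k] W) (p : k[X])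
    (φ : MultilinearMap k (fun _ : Fin b => W) k) :
    ev b e (aeval (compAll b T) p φ) =
      (aeval (Matrix.toLin' (kp b (LinearMap.toMatrix e e T)).transpose) p) (ev b e φ) := by
  induction p using Polynomial.induction_on' generalizing φ with
  | add p q hp hq =>
    rw [map_add, map_add, LinearMap.add_apply, LinearMap.add_apply, map_add, hp, hq]
  | monomial n a =>
    rw [aeval_monomial, aeval_monomial, Module.End.mul_apply, Module.End.mul_apply,
      Module.algebraMap_end_apply, Module.algebraMap_end_apply, map_smul]
    congr 1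
    induction n generalizing φ with
    | zero => simp
    | succ n ih => rw [pow_succ, pow_succ, Module.End.mul_apply, Module.End.mul_apply, ih, ev_comp]

end Kp2

open Kp2

theorem t_KP2 : S_KP2 := by
  classical
  intro k _ _ W _ _ _ b d Q Q' hd hQ T hT
  let e : Basis (Fin d) k W := finBasisOfFinrankEq k W hd
  have h1 : (LinearMap.toMatrix e e T).charpoly = Q.map (Rat.castHom k) := by
    rw [LinearMap.charpoly_toMatrix, hT]
  have h2 := hQ.charpoly k _ h1
  have h3 : (Matrix.toLin' (kp b (LinearMap.toMatrix e e T)).transpose).charpoly =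
      Q'.map (Rat.castHom k) := by
    rw [Matrix.charpoly_toLin', Matrix.charpoly_transpose, h2]
  ext1 φ
  apply ev_inj e
  rw [ev_aeval, ← h3, LinearMap.aeval_self_charpoly]
  simp

end Pool.Agent.N197.QF
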