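import Pool.Agent.N197.QF.Stm

/-!
# Project QF (helper197), task KP3: limits of Kronecker powers (helper252)
-/

set_option autoImplicit false

open Filter Topology

namespace Pool.Agent.N197.QF

/-- differences of products -/
theorem KP3_prod {ι : Type} [DecidableEq ι] (s : Finset ι) (c : ℕ → ℚ_[2]) (x : ι → ℕ → ℚ_[2])
    (δ : ι → ℚ_[2]) (hx : ∀ k, Tendsto (x k) atTop (𝓝 (δ k)))
    (hc : ∀ k, Tendsto (fun m => c m * (x k m - δ k)) atTop (𝓝 0)) :
    Tendsto (fun m => c m * (∏ k ∈ s, x k m - ∏ k ∈ s, δ k)) atTop (𝓝 0) := by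
  induction s using Finset.induction_on with
  | empty => simp
  | insert a s ha ih =>
    have h : ∀ m, c m * (∏ k ∈ insert a s, x k m - ∏ k ∈ insert a s, δ k) =
        c m * (x a m - δ a) * ∏ k ∈ s, x k m + δ a * (c m * (∏ k ∈ s, x k m - ∏ k ∈ s, δ k)) := by
      intro m
      rw [Finset.prod_insert ha, Finset.prod_insert ha]
      ring
    simp only [h]
    have h1 := (hc a).mul (tendsto_finsetProd s fun k _ => hx k)
    have h2 := ih.const_mul (δ a)
    have h3 := h1.add h2
    rwa [zero_mul, mul_zero, add_zero] at h3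

theorem t_KP3 : S_KP3 := by
  intro b d A B hAB hA
  have h2 : Tendsto (fun m : ℕ => ((2 : ℕ) : ℚ_[2]) ^ m) atTop (𝓝 0) :=
    tendsto_pow_atTop_nhds_zero_of_norm_lt_one (Padic.norm_p_lt_one (p := 2))
  have hne : ∀ m : ℕ, ((2 : ℕ) : ℚ_[2]) ^ m ≠ 0 := fun m => pow_ne_zero _ (by norm_num)
  have hA1 : Tendsto A atTop (𝓝 1) := by
    have h := (h2.smul hA).add_const (1 : Matrix (Fin d) (Fin d) ℚ_[2])
    rw [smul_zero, zero_add] at h
    refine h.congr fun m => ?_
    rw [smul_smul, mul_inv_cancel₀ (hne m), one_smul, sub_add_cancel]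
  have hB1 : Tendsto B atTop (𝓝 1) := by
    have hdet : Tendsto (fun m => (A m).det) atTop (𝓝 1) := by
      have h := ((Continuous.matrix_det continuous_id).tendsto
        (1 : Matrix (Fin d) (Fin d) ℚ_[2])).comp hA1
      simp only [id, Matrix.det_one] at h
      exact h
    have hadj : Tendsto (fun m => (A m).adjugate) atTop (𝓝 1) := by
      have h := ((Continuous.matrix_adjugate continuous_id).tendsto
        (1 : Matrix (Fin d) (Fin d) ℚ_[2])).comp hA1
      simp only [id, Matrix.adjugate_one] at h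
      exact h
    have h := (hdet.inv₀ one_ne_zero).smul hadj
    rw [inv_one, one_smul] at h
    refine h.congr fun m => ?_
    rw [← Matrix.inv_eq_right_inv (hAB m), Matrix.inv_def, Ring.inverse_eq_inv']
  have hB : Tendsto (fun m : ℕ => (((2 : ℕ) : ℚ_[2]) ^ m)⁻¹ • (B m - 1)) atTop (𝓝 0) := by
    have h := (hA.mul hB1).neg
    rw [zero_mul, neg_zero] at h
    refine h.congr fun m => ?_
    rw [smul_mul_assoc, ← smul_neg, sub_mul, one_mul, hAB m, neg_sub]
  refine tendsto_pi_nhds.2 fun u => tendsto_pi_nhds.2 fun v => ?_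
  have hentry : ∀ m, ((((2 : ℕ) : ℚ_[2]) ^ m)⁻¹ • (kp b (B m).transpose - 1)) u v =
      (((2 : ℕ) : ℚ_[2]) ^ m)⁻¹ * (∏ k, B m (v k) (u k) -
        ∏ k, (1 : Matrix (Fin d) (Fin d) ℚ_[2]) (v k) (u k)) := by
    intro m
    rw [Matrix.smul_apply, Matrix.sub_apply, smul_eq_mul]
    congr 2
    rw [Matrix.one_apply]
    by_cases huv : u = v
    · rw [if_pos huv, huv]
      symm
      exact Finset.prod_eq_one fun k _ => Matrix.one_apply_eq _
    · rw [if_neg huv]
      obtain ⟨k, hk⟩ := Function.ne_iff.1 huv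
      symm
      exact Finset.prod_eq_zero (Finset.mem_univ k) (Matrix.one_apply_ne (Ne.symm hk))
  have h0 : (0 : Matrix (Fin b → Fin d) (Fin b → Fin d) ℚ_[2]) u v = 0 := rfl
  rw [h0]
  refine Tendsto.congr (fun m => (hentry m).symm) ?_
  refine KP3_prod Finset.univ _ (fun k m => B m (v k) (u k)) _ (fun k => ?_) (fun k => ?_)
  · exact tendsto_pi_nhds.1 (tendsto_pi_nhds.1 hB1 (v k)) (u k)
  · exact tendsto_pi_nhds.1 (tendsto_pi_nhds.1 hB (v k)) (u k)

end Pool.Agent.N197.QF
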