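import Pool.Agent.N197.QF.Fin

/-!
# Project QF: matrices
-/

set_option autoImplicit false

open Polynomial Filter Topology NumberField IsDedekindDomain Module Matrix
open Pool.Agent.Y142.ZO Pool.Agent.Y142.ZI Pool.Agent.Y142.ZS
open Pool.Agent.H204R3.GP (FiniteIndexSemisimple)
open Pool.Agent.N197.AP

namespace Pool.Agent.N197.QF

section defs

variable {k I G : Type} [Field k] [Fintype I] [DecidableEq I] [Group G]

/-- The matrix `T` kills all Tate tensors of the representation `ρ` -/
def InLieM (ρ : G →* Matrix I I k) (χ : G →* k) (T : Matrix I I k) : Prop :=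
  ∀ (a : ℕ) (c : ℤ) (f : MultilinearMap k (fun _ : Fin a => I → k) k),
    (∃ Δ : Subgroup G, Δ.FiniteIndex ∧ ∀ s ∈ Δ, ∀ u, f (fun i => ρ s *ᵥ u i) = χ s ^ c * f u) →
    ∀ u, ∑ i, f (Function.update u i (T *ᵥ u i)) = 0

/-- the representation on the column vectors -/
noncomputable def matRepI (r : G →* Matrix I I k) : Representation k G (I → k) :=
  ((Matrix.toLinAlgEquiv' (R := k) (n := I)).toAlgHom.toRingHom.toMonoidHom).comp r

theorem inLieM_iff (ρ : G →* Matrix I I k) (χ : G →* k) (T : Matrix I I k) :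
    InLieM ρ χ T ↔ InLie (matRepI ρ) χ (Matrix.toLin' T) := Iff.rfl

theorem inLieM_zero (ρ : G →* Matrix I I k) (χ : G →* k) : InLieM ρ χ 0 := by
  intro a c f _ u
  refine Finset.sum_eq_zero fun i _ => ?_
  rw [Matrix.zero_mulVec]
  exact f.map_update_zero u i

theorem inLieM_add (ρ : G →* Matrix I I k) (χ : G →* k) {T T' : Matrix I I k} (h : InLieM ρ χ T)
    (h' : InLieM ρ χ T') : InLieM ρ χ (T + T') := by
  intro a c f hf u
  have h1 := h a c f hf u
  have h2 := h' a c f hf u
  have h3 : ∀ i, f (Function.update u i ((T + T') *ᵥ u i)) =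
      f (Function.update u i (T *ᵥ u i)) + f (Function.update u i (T' *ᵥ u i)) := fun i => by
    rw [Matrix.add_mulVec, f.map_update_add]
  rw [Finset.sum_congr rfl fun i _ => h3 i, Finset.sum_add_distrib, h1, h2, add_zero]

theorem inLieM_smul (ρ : G →* Matrix I I k) (χ : G →* k) (c : k) {T : Matrix I I k}
    (h : InLieM ρ χ T) : InLieM ρ χ (c • T) := by
  intro a b f hf u
  have h1 := h a b f hf u
  have h3 : ∀ i, f (Function.update u i ((c • T) *ᵥ u i)) =
      c • f (Function.update u i (T *ᵥ u i)) := fun i => by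
    rw [Matrix.smul_mulVec, f.map_update_smul]
  rw [Finset.sum_congr rfl fun i _ => h3 i, ← Finset.smul_sum, h1, smul_zero]

theorem inLieM_span (ρ : G →* Matrix I I k) (χ : G →* k) {s : Set (Matrix I I k)}
    (h : ∀ T ∈ s, InLieM ρ χ T) {T : Matrix I I k} (hT : T ∈ Submodule.span k s) :
    InLieM ρ χ T := by
  induction hT using Submodule.span_induction with
  | mem x hx => exact h x hx
  | zero => exact inLieM_zero ρ χ
  | add x y _ _ hx hy => exact inLieM_add ρ χ hx hy
  | smul c x _ hx => exact inLieM_smul ρ χ c hx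

end defs

section blocks

variable {k G : Type} [Field k] [Group G] {ι : Type} [Fintype ι] [DecidableEq ι] {N : ι → ℕ} {d : ℕ}

/-- block matrices -/
def blk (Z : ∀ i, Matrix (Fin (N i)) (Fin (N i)) k) (Y : Matrix (Fin d) (Fin d) k) :
    Matrix ((Σ i, Fin (N i)) ⊕ Fin d) ((Σ i, Fin (N i)) ⊕ Fin d) k :=
  Matrix.fromBlocks (Matrix.blockDiagonal' Z) 0 0 Y

theorem blk_one : blk (fun i => (1 : Matrix (Fin (N i)) (Fin (N i)) k))
    (1 : Matrix (Fin d) (Fin d) k) = 1 := by
  show Matrix.fromBlocks (Matrix.blockDiagonal' (1 : ∀ i, Matrix (Fin (N i)) (Fin (N i)) k)) 0 0 1 = 1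
  rw [Matrix.blockDiagonal'_one, Matrix.fromBlocks_one]

theorem blk_mul (Z Z' : ∀ i, Matrix (Fin (N i)) (Fin (N i)) k) (Y Y' : Matrix (Fin d) (Fin d) k) :
    blk (fun i => Z i * Z' i) (Y * Y') = blk Z Y * blk Z' Y' := by
  unfold blk
  rw [Matrix.fromBlocks_multiply, Matrix.blockDiagonal'_mul]
  simp

theorem blk_add (Z Z' : ∀ i, Matrix (Fin (N i)) (Fin (N i)) k) (Y Y' : Matrix (Fin d) (Fin d) k) :
    blk (Z + Z') (Y + Y') = blk Z Y + blk Z' Y' := by
  unfold blk
  rw [Matrix.blockDiagonal'_add, Matrix.fromBlocks_add]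
  simp

theorem blk_smul (c : k) (Z : ∀ i, Matrix (Fin (N i)) (Fin (N i)) k) (Y : Matrix (Fin d) (Fin d) k) :
    blk (c • Z) (c • Y) = c • blk Z Y := by
  unfold blk
  rw [Matrix.blockDiagonal'_smul, Matrix.fromBlocks_smul]
  simp

theorem blk_mulVec (Z : ∀ i, Matrix (Fin (N i)) (Fin (N i)) k) (Y : Matrix (Fin d) (Fin d) k)
    (x : ∀ i, Fin (N i) → k) (y : Fin d → k) :
    blk Z Y *ᵥ (Sum.elim (fun p : Σ i, Fin (N i) => x p.1 p.2) y) =
      Sum.elim (fun p : Σ i, Fin (N i) => (Z p.1 *ᵥ x p.1) p.2) (Y *ᵥ y) := by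
  unfold blk
  rw [Matrix.fromBlocks_mulVec]
  simp only [Sum.elim_comp_inl, Sum.elim_comp_inr, Matrix.zero_mulVec, add_zero, zero_add]
  congr 1
  funext ⟨i, a⟩
  show ∑ p : Σ i, Fin (N i), Matrix.blockDiagonal' Z ⟨i, a⟩ p * x p.1 p.2 =
    ∑ b, Z i a b * x i b
  rw [← Finset.univ_sigma_univ, Finset.sum_sigma, Finset.sum_eq_single i]
  · exact Finset.sum_congr rfl fun b _ => by rw [Matrix.blockDiagonal'_apply_eq]
  · intro j _ hj
    exact Finset.sum_eq_zero fun b _ => by
      rw [Matrix.blockDiagonal'_apply_ne Z _ _ hj.symm, zero_mul]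
  · intro h
    exact absurd (Finset.mem_univ i) h

/-- the direct sum of representations by matrices -/
def blkHom (r : ∀ i, G →* Matrix (Fin (N i)) (Fin (N i)) k) (R : G →* Matrix (Fin d) (Fin d) k) :
    G →* Matrix ((Σ i, Fin (N i)) ⊕ Fin d) ((Σ i, Fin (N i)) ⊕ Fin d) k where
  toFun g := blk (fun i => r i g) (R g)
  map_one' := by
    simp only [map_one]
    exact blk_one
  map_mul' g h := by
    simp only [map_mul]
    exact blk_mul _ _ _ _

/-- the isomorphism of the vector spaces -/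
def blkEquiv (k : Type) [Field k] {ι : Type} (N : ι → ℕ) (d : ℕ) :
    ((∀ i, Fin (N i) → k) × (Fin d → k)) ≃ₗ[k] ((Σ i, Fin (N i)) ⊕ Fin d → k) where
  toFun u := Sum.elim (fun p => u.1 p.1 p.2) u.2
  map_add' u v := by
    funext p
    rcases p with p | p <;> rfl
  map_smul' c u := by
    funext p
    rcases p with p | p <;> rfl
  invFun f := (fun i a => f (Sum.inl ⟨i, a⟩), fun b => f (Sum.inr b))
  left_inv u := rfl
  right_inv f := by
    funext p
    rcases p with p | p <;> rfl

theorem lie_transport (J : ∀ i, Matrix (Fin (N i)) (Fin (N i)) k)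
    (r : ∀ i, G →* Matrix (Fin (N i)) (Fin (N i)) k)
    (R : G →* Matrix (Fin d) (Fin d) k) (χ : G →* k)
    (h : ∀ T' : Module.End k ((∀ i, Fin (N i) → k) × (Fin d → k)),
      InLie (prodRep (piRepr fun i => matRep (r i)) (matRep R)) χ T' ↔
      ∃ (Z : ∀ i, Matrix (Fin (N i)) (Fin (N i)) k) (Y : Module.End k (Fin d → k)),
        (∀ i, (Z i)ᵀ * J i + J i * Z i = 0) ∧ InLie (matRep R) χ Y ∧
        ∀ x y, T' (x, y) = (fun i => Z i *ᵥ x i, Y y))
    (T : Matrix ((Σ i, Fin (N i)) ⊕ Fin d) ((Σ i, Fin (N i)) ⊕ Fin d) k) :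
    InLieM (blkHom r R) χ T ↔
      ∃ (Z : ∀ i, Matrix (Fin (N i)) (Fin (N i)) k) (Y : Matrix (Fin d) (Fin d) k),
        (∀ i, (Z i)ᵀ * J i + J i * Z i = 0) ∧ InLieM R χ Y ∧ T = blk Z Y := by
  let E := blkEquiv k N d
  let T' : Module.End k ((∀ i, Fin (N i) → k) × (Fin d → k)) :=
    (E.symm.toLinearMap.comp (Matrix.toLin' T)).comp E.toLinearMap
  have hT' : ∀ u, E (T' u) = Matrix.toLin' T (E u) := fun u => E.apply_symm_apply _
  have h1 : InLieM (blkHom r R) χ T ↔
      InLie (prodRep (piRepr fun i => matRep (r i)) (matRep R)) χ T' := by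
    rw [inLieM_iff]
    refine (t_TR k _ _ G (prodRep (piRepr fun i => matRep (r i)) (matRep R))
      (matRepI (blkHom r R)) χ E (fun g u => ?_) T' (Matrix.toLin' T) hT').symm
    exact (blk_mulVec (fun i => r i g) (R g) u.1 u.2).symm
  rw [h1, h]
  constructor
  · rintro ⟨Z, Y, hZ, hY, hZY⟩
    refine ⟨Z, LinearMap.toMatrix' Y, hZ, ?_, ?_⟩
    · show InLie (matRep R) χ (Matrix.toLin' (LinearMap.toMatrix' Y))
      rw [Matrix.toLin'_toMatrix']
      exact hY
    · apply Matrix.toLin'.injective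
      refine LinearMap.ext fun f => ?_
      obtain ⟨⟨x, y⟩, rfl⟩ := E.surjective f
      have h2 := hT' (x, y)
      rw [hZY] at h2
      rw [← h2]
      show _ = blk Z (LinearMap.toMatrix' Y) *ᵥ (Sum.elim (fun p : Σ i, Fin (N i) => x p.1 p.2) y)
      rw [blk_mulVec, LinearMap.toMatrix'_mulVec]
      rfl
  · rintro ⟨Z, Y, hZ, hY, rfl⟩
    refine ⟨Z, Matrix.toLin' Y, hZ, hY, fun x y => ?_⟩
    show E.symm (blk Z Y *ᵥ (Sum.elim (fun p : Σ i, Fin (N i) => x p.1 p.2) y)) = _
    rw [blk_mulVec]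
    rfl

/-- **the common form** -/
theorem common_form {S : Type} {kk : S → Type} [∀ s, Field (kk s)] [∀ s, CharZero (kk s)]
    (J : ∀ i, Matrix (Fin (N i)) (Fin (N i)) ℚ)
    (A : ∀ s, Set (Matrix ((Σ i, Fin (N i)) ⊕ Fin d) ((Σ i, Fin (N i)) ⊕ Fin d) (kk s)))
    (B : ∀ s, Submodule (kk s) (Matrix (Fin d) (Fin d) (kk s)))
    (h : ∀ s T, T ∈ A s ↔ ∃ (Z : ∀ i, Matrix (Fin (N i)) (Fin (N i)) (kk s))
      (Y : Matrix (Fin d) (Fin d) (kk s)),
        (∀ i, (Z i)ᵀ * (J i).map (Rat.castHom (kk s)) + (J i).map (Rat.castHom (kk s)) * Z i = 0) ∧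
        Y ∈ B s ∧ T = blk Z Y) :
    (∃ 𝔫 : Set (Matrix ((Σ i, Fin (N i)) ⊕ Fin d) ((Σ i, Fin (N i)) ⊕ Fin d) ℚ), ∀ s T, T ∈ A s ↔
      T ∈ Submodule.span (kk s) ((fun t : Matrix _ _ ℚ => t.map (Rat.castHom (kk s))) '' 𝔫)) ↔
    ∃ 𝔫 : Set (Matrix (Fin d) (Fin d) ℚ), ∀ s T, T ∈ B s ↔
      T ∈ Submodule.span (kk s) ((fun t : Matrix _ _ ℚ => t.map (Rat.castHom (kk s))) '' 𝔫) := by
  constructor
  · rintro ⟨𝔫, h𝔫⟩
    refine ⟨(fun t => t.toBlocks₂₂) '' 𝔫, fun s T => ?_⟩
    let p : Matrix ((Σ i, Fin (N i)) ⊕ Fin d) ((Σ i, Fin (N i)) ⊕ Fin d) (kk s) →ₗ[kk s]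
        Matrix (Fin d) (Fin d) (kk s) :=
      { toFun := fun t => t.toBlocks₂₂
        map_add' := fun _ _ => rfl
        map_smul' := fun _ _ => rfl }
    constructor
    · intro hT
      have h1 : blk 0 T ∈ A s := (h s _).2 ⟨0, T, fun i => by simp, hT, rfl⟩
      have h2 := Submodule.mem_map_of_mem (f := p) ((h𝔫 s _).1 h1)
      rw [Submodule.map_span] at h2
      have h3 : p (blk 0 T) = T := by
        show (Matrix.fromBlocks _ 0 0 T).toBlocks₂₂ = T
        exact Matrix.toBlocks_fromBlocks₂₂ _ _ _ _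
      rw [h3] at h2
      refine Submodule.span_mono ?_ h2
      rintro _ ⟨_, ⟨t, ht, rfl⟩, rfl⟩
      exact ⟨_, ⟨t, ht, rfl⟩, rfl⟩
    · intro hT
      refine Submodule.span_le.2 ?_ hT
      rintro _ ⟨_, ⟨t, ht, rfl⟩, rfl⟩
      have h1 : t.map (Rat.castHom (kk s)) ∈ A s :=
        (h𝔫 s _).2 (Submodule.subset_span ⟨t, ht, rfl⟩)
      obtain ⟨Z, Y, -, hY, hZY⟩ := (h s _).1 h1
      have h2 : (t.toBlocks₂₂).map (Rat.castHom (kk s)) = Y := by
        have h3 : (t.map (Rat.castHom (kk s))).toBlocks₂₂ = (blk Z Y).toBlocks₂₂ := by rw [hZY]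
        have h4 : (blk Z Y).toBlocks₂₂ = Y := Matrix.toBlocks_fromBlocks₂₂ _ _ _ _
        rw [h4] at h3
        exact h3
      show (t.toBlocks₂₂).map (Rat.castHom (kk s)) ∈ B s
      rw [h2]
      exact hY
  · rintro ⟨𝔫, h𝔫⟩
    refine ⟨{t | ∃ (i : ι) (z : Matrix (Fin (N i)) (Fin (N i)) ℚ), zᵀ * J i + J i * z = 0 ∧
      t = blk (Pi.single i z) 0} ∪ (fun y => blk 0 y) '' 𝔫, fun s T => ?_⟩
    constructor
    · intro hT
      obtain ⟨Z, Y, hZ, hY, rfl⟩ := (h s _).1 hT
      have h1 : blk Z Y = ∑ i, blk (Pi.single i (Z i)) (0 : Matrix (Fin d) (Fin d) (kk s)) +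
          blk 0 Y := by
        have h2 : blk Z Y = blk Z 0 + blk 0 Y := by
          rw [← blk_add, add_zero, zero_add]
        let q : (∀ i, Matrix (Fin (N i)) (Fin (N i)) (kk s)) →+
            Matrix ((Σ i, Fin (N i)) ⊕ Fin d) ((Σ i, Fin (N i)) ⊕ Fin d) (kk s) :=
          { toFun := fun z => blk z 0
            map_zero' := by
              unfold blk
              rw [Matrix.blockDiagonal'_zero, Matrix.fromBlocks_zero]
            map_add' := fun z z' => by rw [← blk_add, add_zero] }
        have h3 : blk Z 0 = ∑ i, blk (Pi.single i (Z i)) (0 : Matrix (Fin d) (Fin d) (kk s)) := by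
          calc blk Z 0 = q Z := rfl
            _ = q (∑ i, Pi.single i (Z i)) := by rw [Finset.univ_sum_single]
            _ = ∑ i, q (Pi.single i (Z i)) := map_sum q _ _
        rw [h2, h3]
      rw [h1]
      refine Submodule.add_mem _ (Submodule.sum_mem _ fun i _ => ?_) ?_
      · let q : Matrix (Fin (N i)) (Fin (N i)) (kk s) →ₗ[kk s]
            Matrix ((Σ i, Fin (N i)) ⊕ Fin d) ((Σ i, Fin (N i)) ⊕ Fin d) (kk s) :=
          { toFun := fun z => blk (Pi.single i z) 0
            map_add' := fun z z' => by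
              rw [Pi.single_add, ← blk_add, add_zero]
            map_smul' := fun c z => by
              rw [RingHom.id_apply, ← blk_smul, smul_zero, Pi.single_smul] }
        have h2 := Submodule.mem_map_of_mem (f := q) (t_BC (kk s) (N i) (J i) (Z i) (hZ i))
        rw [Submodule.map_span] at h2
        refine Submodule.span_mono ?_ h2
        rintro _ ⟨_, ⟨z, hz, rfl⟩, rfl⟩
        refine ⟨blk (Pi.single i z) 0, Or.inl ⟨i, z, hz, rfl⟩, ?_⟩
        show (blk (Pi.single i z) 0).map _ = blk (Pi.single i (z.map _)) 0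
        unfold blk
        rw [Matrix.fromBlocks_map, Matrix.blockDiagonal'_map _ _ (map_zero _)]
        congr 1
        · congr 1
          funext j
          by_cases hj : j = i
          · subst hj
            simp
          · rw [Pi.single_eq_of_ne hj, Pi.single_eq_of_ne hj]
            exact Matrix.map_zero _ (map_zero _)
        · exact Matrix.map_zero _ (map_zero _)
        · exact Matrix.map_zero _ (map_zero _)
        · exact Matrix.map_zero _ (map_zero _)
      · let q : Matrix (Fin d) (Fin d) (kk s) →ₗ[kk s]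
            Matrix ((Σ i, Fin (N i)) ⊕ Fin d) ((Σ i, Fin (N i)) ⊕ Fin d) (kk s) :=
          { toFun := fun z => blk 0 z
            map_add' := fun z z' => by
              rw [← blk_add, add_zero]
            map_smul' := fun c z => by
              rw [RingHom.id_apply, ← blk_smul, smul_zero] }
        have h2 := Submodule.mem_map_of_mem (f := q) ((h𝔫 s _).1 hY)
        rw [Submodule.map_span] at h2
        refine Submodule.span_mono ?_ h2
        rintro _ ⟨_, ⟨z, hz, rfl⟩, rfl⟩
        refine ⟨blk 0 z, Or.inr ⟨z, hz, rfl⟩, ?_⟩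
        show (blk 0 z).map _ = blk 0 (z.map _)
        unfold blk
        rw [Matrix.fromBlocks_map, Matrix.blockDiagonal'_map _ _ (map_zero _)]
        congr 1
        · congr 1
          funext j
          exact Matrix.map_zero _ (map_zero _)
        · exact Matrix.map_zero _ (map_zero _)
        · exact Matrix.map_zero _ (map_zero _)
    · intro hT
      rw [h]
      induction hT using Submodule.span_induction with
      | mem x hx =>
        obtain ⟨t, ht, rfl⟩ := hx
        rcases ht with ⟨i, z, hz, rfl⟩ | ⟨y, hy, rfl⟩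
        · refine ⟨Pi.single i (z.map (Rat.castHom (kk s))), 0, fun j => ?_, Submodule.zero_mem _, ?_⟩
          · by_cases hj : j = i
            · subst hj
              rw [Pi.single_eq_same]
              have h5 : (zᵀ * J j + J j * z).map (Rat.castHom (kk s)) =
                  (0 : Matrix (Fin (N j)) (Fin (N j)) ℚ).map (Rat.castHom (kk s)) := by rw [hz]
              rw [Matrix.map_add _ (map_add _), Matrix.map_mul, Matrix.map_mul,
                Matrix.map_zero _ (map_zero _)] at h5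
              exact h5
            · rw [Pi.single_eq_of_ne hj]
              simp
          · show (blk (Pi.single i z) 0).map _ = blk (Pi.single i (z.map _)) 0
            unfold blk
            rw [Matrix.fromBlocks_map, Matrix.blockDiagonal'_map _ _ (map_zero _)]
            congr 1
            · congr 1
              funext j
              by_cases hj : j = i
              · subst hj
                simp
              · rw [Pi.single_eq_of_ne hj, Pi.single_eq_of_ne hj]
                exact Matrix.map_zero _ (map_zero _)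
            · exact Matrix.map_zero _ (map_zero _)
            · exact Matrix.map_zero _ (map_zero _)
            · exact Matrix.map_zero _ (map_zero _)
        · refine ⟨0, y.map (Rat.castHom (kk s)), fun j => by simp,
            (h𝔫 s _).2 (Submodule.subset_span ⟨y, hy, rfl⟩), ?_⟩
          show (blk 0 y).map _ = blk 0 (y.map _)
          unfold blk
          rw [Matrix.fromBlocks_map, Matrix.blockDiagonal'_map _ _ (map_zero _)]
          congr 1
          · congr 1
            funext j
            exact Matrix.map_zero _ (map_zero _)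
          · exact Matrix.map_zero _ (map_zero _)
          · exact Matrix.map_zero _ (map_zero _)
      | zero =>
        refine ⟨0, 0, fun i => by simp, Submodule.zero_mem _, ?_⟩
        unfold blk
        rw [Matrix.blockDiagonal'_zero, Matrix.fromBlocks_zero]
      | add x y _ _ hx hy =>
        obtain ⟨Z, Y, hZ, hY, rfl⟩ := hx
        obtain ⟨Z', Y', hZ', hY', rfl⟩ := hy
        refine ⟨Z + Z', Y + Y', fun i => ?_, Submodule.add_mem _ hY hY', (blk_add _ _ _ _).symm⟩
        rw [Pi.add_apply, Matrix.transpose_add, Matrix.add_mul, Matrix.mul_add,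
          add_add_add_comm, hZ, hZ', add_zero]
      | smul c x _ hx =>
        obtain ⟨Z, Y, hZ, hY, rfl⟩ := hx
        refine ⟨c • Z, c • Y, fun i => ?_, Submodule.smul_mem _ c hY, (blk_smul _ _ _).symm⟩
        rw [Pi.smul_apply, Matrix.transpose_smul, Matrix.smul_mul, Matrix.mul_smul, ← smul_add,
          hZ, smul_zero]

end blocks

end Pool.Agent.N197.QF
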