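import Pool.Agent.N166.CZ.Stm
import Pool.Agent.N197.QF.Stm

/-!
# Project QF (helper197): statements of the tasks, second part
-/

set_option autoImplicit false

open Module Matrix
open Pool.Agent.N166.CZ (ProductsWith IsTateMap IsTateVector IsProduct)
open Pool.Agent.H204R3.GP (IsTateClass)

namespace Pool.Agent.N197.QF

section defs

variable {k V W G : Type} [Field k] [AddCommGroup V] [Module k V] [AddCommGroup W] [Module k W]
  [Group G]

theorem compAll_one (b : ℕ) : compAll (k := k) b (LinearMap.id : W →ₗ[k] W) = 1 := by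
  ext φ y
  rfl

/-- the representation on the multilinear forms -/
def formRep (b : ℕ) (σ : Representation k G W) :
    Representation k G (MultilinearMap k (fun _ : Fin b => W) k) where
  toFun g := compAll b (σ g⁻¹)
  map_one' := by
    rw [inv_one, map_one]
    exact compAll_one b
  map_mul' g h := by
    rw [_root_.mul_inv_rev, map_mul]
    ext φ y
    rfl

/-- a Tate form in `a` variables of `V` and `b` variables of `W` -/
def TateForm (ρ : Representation k G V) (σ : Representation k G W) (χ : G →* k) (c : ℤ) {a b : ℕ}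
    (f : MultilinearMap k (fun _ : Fin a => V) (MultilinearMap k (fun _ : Fin b => W) k)) : Prop :=
  ∃ Δ : Subgroup G, Δ.FiniteIndex ∧ ∀ s ∈ Δ, ∀ x y,
    f (fun i => ρ s (x i)) (fun j => σ s (y j)) = χ s ^ c * f x y

/-- a bilinear form of degree two (with the factor `χ`) on `V × V'` -/
def TateTwo {V' : Type} [AddCommGroup V'] [Module k V'] (ρ : Representation k G V)
    (ρ' : Representation k G V') (χ : G →* k) (B : V →ₗ[k] V' →ₗ[k] k) : Prop :=
  ∃ Δ : Subgroup G, Δ.FiniteIndex ∧ ∀ s ∈ Δ, ∀ x y, B (ρ s x) (ρ' s y) = χ s * B x y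

/-- `X` kills the Tate forms of degree two -/
def Kills2 (ρ : Representation k G V) (χ : G →* k) (X : Module.End k V) : Prop :=
  ∀ B : V →ₗ[k] V →ₗ[k] k, TateTwo ρ ρ χ B → ∀ x y, B (X x) y + B x (X y) = 0

/-- `T` kills all Tate tensors: the multilinear forms `f` with `f (s u) = χ(s) ^ c f(u)` for `s` in a
subgroup of finite index -/
def InLie (ρ : Representation k G V) (χ : G →* k) (T : Module.End k V) : Prop :=
  ∀ (a : ℕ) (c : ℤ) (f : MultilinearMap k (fun _ : Fin a => V) k),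
    (∃ Δ : Subgroup G, Δ.FiniteIndex ∧ ∀ s ∈ Δ, ∀ u, f (fun i => ρ s (u i)) = χ s ^ c * f u) →
    ∀ u, ∑ i, f (Function.update u i (T (u i))) = 0

/-- the pair `(X, Y)` kills all mixed Tate forms -/
def Kills (ρ : Representation k G V) (σ : Representation k G W) (χ : G →* k)
    (X : Module.End k V) (Y : Module.End k W) : Prop :=
  ∀ (a b : ℕ) (c : ℤ)
    (f : MultilinearMap k (fun _ : Fin a => V) (MultilinearMap k (fun _ : Fin b => W) k)),
    TateForm ρ σ χ c f → ∀ x y,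
      ∑ i, f (Function.update x i (X (x i))) y + ∑ j, f x (Function.update y j (Y (y j))) = 0

/-- the product of two representations -/
def prodRep (ρ : Representation k G V) (σ : Representation k G W) : Representation k G (V × W) where
  toFun g := LinearMap.prodMap (ρ g) (σ g)
  map_one' := by
    rw [map_one, map_one]
    rfl
  map_mul' g h := by
    rw [map_mul, map_mul]
    rfl

end defs

/-- task ALT -/
def S_ALT : Prop := ∀ (k : Type) [Field k] (V M : Type) [AddCommGroup V] [Module k V]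
  [AddCommGroup M] [Module k M] (a : ℕ) (κ : Type) [Fintype κ] [DecidableEq κ] (e : κ ≃ Fin a)
  (f : MultilinearMap k (fun _ : Fin a => V) M),
  ∃ F : (Fin a → V) [⋀^κ]→ₗ[k] M,
    (∀ v : κ → Fin a → V, F v = ∑ s : Equiv.Perm κ,
      ((Equiv.Perm.sign s : ℤ) : k) • f fun i => v (s (e.symm i)) i) ∧
    ∀ x : Fin a → V, F (fun l => Pi.single (e l) (x (e l))) = f x

/-- task LEIB -/
def S_LEIB : Prop := ∀ (k : Type) [Field k] (V M : Type) [AddCommGroup V] [Module k V]
  [AddCommGroup M] [Module k M] (n m : ℕ) (B : Fin m → (Fin n → V) [⋀^Fin 2]→ₗ[k] k) (z : M)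
  (g : (Fin n → V) [⋀^Fin m × Fin 2]→ₗ[k] M), IsProduct B z g →
  ∀ D : Module.End k (Fin n → V), (∀ l u w, B l ![D u, w] + B l ![u, D w] = 0) →
  ∀ v, ∑ i, g (Function.update v i (D (v i))) = 0

/-- task TENS -/
def S_TENS : Prop := ∀ (k : Type) [Field k] [CharZero k] (V W G : Type) [AddCommGroup V]
  [Module k V] [AddCommGroup W] [Module k W] [Group G] (ρ : Representation k G V)
  (σ : Representation k G W) (χ : G →* k), (∀ b, ProductsWith ρ χ (formRep b σ)) →
  ∀ (X : Module.End k V) (Y : Module.End k W), Kills2 ρ χ X → InLie σ χ Y → Kills ρ σ χ X Y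

/-- task DEC -/
def S_DEC : Prop := ∀ (k : Type) [Field k] (V W G : Type) [AddCommGroup V]
  [Module k V] [AddCommGroup W] [Module k W] [Group G] (ρ : Representation k G V)
  (σ : Representation k G W) (χ : G →* k) (X : Module.End k V) (Y : Module.End k W),
  Kills ρ σ χ X Y → InLie (prodRep ρ σ) χ (LinearMap.prodMap X Y)

/-- task CONV -/
def S_CONV : Prop := ∀ (k : Type) [Field k] (V W G : Type) [AddCommGroup V]
  [Module k V] [AddCommGroup W] [Module k W] [Group G] (ρ : Representation k G V)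
  (σ : Representation k G W) (χ : G →* k) (ω : V →ₗ[k] V →ₗ[k] k) (φ : W →ₗ[k] W →ₗ[k] k) (c : ℤ),
  (∀ u, (∀ v, ω u v = 0) → u = 0) → (∀ s u v, ω (ρ s u) (ρ s v) = χ s * ω u v) →
  (∀ u, (∀ v, φ u v = 0) → u = 0) → (∀ s u v, φ (σ s u) (σ s v) = χ s ^ c * φ u v) →
  ∀ T : Module.End k (V × W), InLie (prodRep ρ σ) χ T →
    ∃ (X : Module.End k V) (Y : Module.End k W), T = LinearMap.prodMap X Y ∧ Kills2 ρ χ X ∧
      InLie σ χ Y

/-- task SPX -/
def S_SPX : Prop := ∀ (k : Type) [Field k] [CharZero k] (G : Type) [Group G] (ι : Type) [Fintype ι]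
  (N : ι → ℕ) (ρ : ∀ i, Representation k G (Fin (N i) → k))
  (J : ∀ i, Matrix (Fin (N i)) (Fin (N i)) k) (χ : G →* k)
  (R : Representation k G (∀ i, Fin (N i) → k)), (∀ g x i, R g x i = ρ i g (x i)) →
  (∀ i, (J i)ᵀ = -J i) → (∀ i, (J i).det ≠ 0) →
  (∀ i g x y, ρ i g x ⬝ᵥ J i *ᵥ ρ i g y = χ g * (x ⬝ᵥ J i *ᵥ y)) →
  (∀ i, ∀ B : (Fin (N i) → k) →ₗ[k] (Fin (N i) → k) →ₗ[k] k, TateTwo (ρ i) (ρ i) χ B →
    ∃ c : k, ∀ x y, B x y = c * (x ⬝ᵥ J i *ᵥ y)) →
  (∀ i j, i ≠ j → ∀ B : (Fin (N i) → k) →ₗ[k] (Fin (N j) → k) →ₗ[k] k,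
    TateTwo (ρ i) (ρ j) χ B → B = 0) →
  ∀ X : Module.End k (∀ i, Fin (N i) → k), Kills2 R χ X ↔
    ∃ Z : ∀ i, Matrix (Fin (N i)) (Fin (N i)) k, (∀ i, (Z i)ᵀ * J i + J i * Z i = 0) ∧
      ∀ x i, X x i = Z i *ᵥ x i

/-- task BC: rational solutions -/
def S_BC : Prop := ∀ (k : Type) [Field k] [CharZero k] (n : ℕ) (J : Matrix (Fin n) (Fin n) ℚ)
  (Z : Matrix (Fin n) (Fin n) k),
  Zᵀ * J.map (Rat.castHom k) + J.map (Rat.castHom k) * Z = 0 →
  Z ∈ Submodule.span k {Y | ∃ Z' : Matrix (Fin n) (Fin n) ℚ, Z'ᵀ * J + J * Z' = 0 ∧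
    Y = Z'.map (Rat.castHom k)}

end Pool.Agent.N197.QF
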