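import Pool.Agent.N197.AP.Fin6
import Pool.Agent.N197.QF.Stm2
import Pool.Agent.N197.QF.L_KP1
import Pool.Agent.N197.QF.L_KP2
import Pool.Agent.N197.QF.L_KP3

/-!
# Project QF: values in the multilinear forms on a motive
-/

set_option autoImplicit false

open Polynomial Filter Topology NumberField IsDedekindDomain Module Matrix
open Pool.Agent.Y142.ZO Pool.Agent.Y142.ZI Pool.Agent.Y142.ZS
open Pool.Agent.N166.CZ (IsTateModule ProductsWith)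
open Pool.Agent.H204R3.GP (FiniteIndexSemisimple)
open Pool.Agent.N197.AP

namespace Pool.Agent.N197.QF

section kpHom

variable {F : Type} [Field F] {b d : ℕ}

theorem kp_one : kp b (1 : Matrix (Fin d) (Fin d) F) = 1 := by
  ext u v
  show ∏ k, (1 : Matrix (Fin d) (Fin d) F) (u k) (v k) = _
  by_cases h : u = v
  · subst h
    simp
  · rw [Matrix.one_apply_ne h]
    obtain ⟨k, hk⟩ := Function.ne_iff.1 h
    exact Finset.prod_eq_zero (Finset.mem_univ k) (Matrix.one_apply_ne hk)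

theorem kp_mul (A B : Matrix (Fin d) (Fin d) F) : kp b (A * B) = kp b A * kp b B := by
  ext u v
  show ∏ k, (A * B) (u k) (v k) = ∑ w : Fin b → Fin d, (∏ k, A (u k) (w k)) * ∏ k, B (w k) (v k)
  simp only [Matrix.mul_apply, ← Finset.prod_mul_distrib]
  rw [Finset.prod_univ_sum]
  simp only [Fintype.piFinset_univ]

/-- the dual of the Kronecker power -/
noncomputable def kpHom {G : Type} [Group G] (b : ℕ) (τ : G →* Matrix (Fin d) (Fin d) F) :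
    G →* Matrix (Fin (d ^ b)) (Fin (d ^ b)) F where
  toFun g := Matrix.reindex finFunctionFinEquiv finFunctionFinEquiv (kp b (τ g⁻¹)ᵀ)
  map_one' := by
    rw [inv_one, map_one, Matrix.transpose_one, kp_one]
    simp
  map_mul' g h := by
    rw [_root_.mul_inv_rev, map_mul, Matrix.transpose_mul, kp_mul]
    simp only [Matrix.reindex_apply, Matrix.submatrix_mul_equiv]

theorem kpHom_charpoly {G : Type} [Group G] (b : ℕ) (τ : G →* Matrix (Fin d) (Fin d) F) (g : G) :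
    (kpHom b τ g⁻¹).charpoly = (kp b (τ g)).charpoly := by
  show (Matrix.reindex _ _ (kp b (τ g⁻¹⁻¹)ᵀ)).charpoly = _
  rw [Matrix.charpoly_reindex, inv_inv]
  have h1 : kp b (τ g)ᵀ = (kp b (τ g))ᵀ := by
    ext u v
    rfl
  rw [h1, Matrix.charpoly_transpose]

theorem kpHom_continuous {G : Type} [Group G] [TopologicalSpace G] [IsTopologicalGroup G]
    [TopologicalSpace F] [IsTopologicalRing F] (b : ℕ) (τ : G →* Matrix (Fin d) (Fin d) F)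
    (hτ : Continuous τ) : Continuous (kpHom b τ) := by
  refine continuous_matrix fun i j => ?_
  show Continuous fun g => ∏ k : Fin b, (τ g⁻¹) (finFunctionFinEquiv.symm j k)
    (finFunctionFinEquiv.symm i k)
  refine continuous_finsetProd _ fun k _ => ?_
  exact (hτ.comp continuous_inv).matrix_elem _ _

theorem kpHom_tendsto {G : Type} [Group G] (b : ℕ) (τ : G →* Matrix (Fin d) (Fin d) ℚ_[2])
    (σ : ℕ → G)
    (h : Tendsto (fun m : ℕ => (((2 : ℕ) : ℚ_[2]) ^ m)⁻¹ • (τ (σ m) - 1)) atTop (𝓝 0)) :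
    Tendsto (fun m : ℕ => (((2 : ℕ) : ℚ_[2]) ^ m)⁻¹ • (kpHom b τ (σ m) - 1)) atTop (𝓝 0) := by
  have h1 := t_KP3 b d (fun m => τ (σ m)) (fun m => τ (σ m)⁻¹) (fun m => by
    rw [← map_mul, mul_inv_cancel, map_one]) h
  refine tendsto_pi_nhds.2 fun i => tendsto_pi_nhds.2 fun j => ?_
  have h2 := tendsto_pi_nhds.1 (tendsto_pi_nhds.1 h1 (finFunctionFinEquiv.symm i))
    (finFunctionFinEquiv.symm j)
  refine h2.congr fun m => ?_
  show _ * (kp b (τ (σ m)⁻¹)ᵀ - 1) _ _ = _ * (kpHom b τ (σ m) - 1) i j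
  rw [Matrix.sub_apply, Matrix.sub_apply]
  show _ = _ * (kp b (τ (σ m)⁻¹)ᵀ (finFunctionFinEquiv.symm i) (finFunctionFinEquiv.symm j) - _)
  congr 2
  rw [Matrix.one_apply, Matrix.one_apply]
  simp

end kpHom

theorem prodW {K : Type} [Field K] [NumberField K] {ι : Type} [Fintype ι] [Nonempty ι]
    [DecidableEq ι] {N : ι → ℕ} {d m : ℕ} {w : ℤ}
    (S : Set (HeightOneSpectrum (𝓞 K))) (hS : S.Finite)
    (P : ι → HeightOneSpectrum (𝓞 K) → ℚ[X]) (Q : HeightOneSpectrum (𝓞 K) → ℚ[X])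
    (hP : ∀ v ∉ S, ∀ i, ∀ z : ℂ, aeval z (P i v) = 0 →
      ‖z‖ ^ 2 = (Ideal.absNorm v.asIdeal : ℝ) ∧ IsIntegral ℤ ((Ideal.absNorm v.asIdeal : ℂ) ^ m * z))
    (hQ : ∀ v ∉ S, ∀ z : ℂ, aeval z (Q v) = 0 →
      ‖z‖ ^ 2 = (Ideal.absNorm v.asIdeal : ℝ) ^ w ∧
        IsIntegral ℤ ((Ideal.absNorm v.asIdeal : ℂ) ^ m * z))
    (χ : ∀ (ℓ : ℕ) [Fact ℓ.Prime], GK K →* ℚ_[ℓ])
    (J : ∀ (i : ι) (ℓ : ℕ) [Fact ℓ.Prime], Matrix (Fin (N i)) (Fin (N i)) ℚ_[ℓ])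
    (r : ∀ (i : ι) (ℓ : ℕ) [Fact ℓ.Prime], GK K →* Matrix (Fin (N i)) (Fin (N i)) ℚ_[ℓ])
    (hr : ∀ (i : ι) (ℓ : ℕ) [Fact ℓ.Prime], Continuous (r i ℓ))
    (hJ : ∀ (i : ι) (ℓ : ℕ) [Fact ℓ.Prime], (J i ℓ)ᵀ = -J i ℓ)
    (hdet : ∀ (i : ι) (ℓ : ℕ) [Fact ℓ.Prime], (J i ℓ).det ≠ 0)
    (hsim : ∀ (i : ι) (ℓ : ℕ) [Fact ℓ.Prime] (g : GK K),
      (r i ℓ g)ᵀ * J i ℓ * r i ℓ g = χ ℓ g • J i ℓ)
    (hχ : ∀ (ℓ : ℕ) [Fact ℓ.Prime], ∀ v ∉ S, (ℓ : 𝓞 K) ∉ v.asIdeal → ∀ σ : GK K,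
      IsFrobenius v σ → χ ℓ σ = (Ideal.absNorm v.asIdeal : ℚ_[ℓ]))
    (hfrob : ∀ (i : ι) (ℓ : ℕ) [Fact ℓ.Prime], ∀ v ∉ S, (ℓ : 𝓞 K) ∉ v.asIdeal → ∀ σ : GK K,
      IsFrobenius v σ → (r i ℓ σ).charpoly = (P i v).map (Rat.castHom ℚ_[ℓ]))
    (e : ∀ i, Fin (N i + 1) → Fin (N i) → ℚ_[2]) (h6 : ∀ i, 6 ≤ N i)
    (hint : ∀ i g a b, ‖r i 2 g a b‖ ≤ 1) (hJint : ∀ i a b, ‖J i 2 a b‖ ≤ 1)
    (heint : ∀ i a b, ‖e i a b‖ ≤ 1)
    (he : ∀ i a b, a ≠ b → ‖e i a ⬝ᵥ J i 2 *ᵥ e i b‖ = 1)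
    (hbig : ∀ i (π : Equiv.Perm (Fin (N i + 1))), Equiv.Perm.sign π = 1 → ∃ g,
      (∀ a b, ‖(r i 2 g *ᵥ e i a - e i (π a)) b‖ < 1) ∧
      ∀ j, j ≠ i → ∀ a b, ‖(r j 2 g - 1) a b‖ < 1)
    (R : ∀ (ℓ : ℕ) [Fact ℓ.Prime], GK K →* Matrix (Fin d) (Fin d) ℚ_[ℓ]) (hR : Continuous (R 2))
    (htint : ∀ g a b, ‖R 2 g a b‖ ≤ 1)
    (ht : ∀ i, 2 ^ (d ^ 2 + 1) < (N i + 1).factorial ∨
      ∃ (g : GK K) (π : ∀ j, Equiv.Perm (Fin (N j + 1))), (∀ a b, ‖(R 2 g - 1) a b‖ < 1) ∧ π i ≠ 1 ∧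
        ∀ j a b, ‖(r j 2 g *ᵥ e j a - e j (π j a)) b‖ < 1)
    (hRQ : ∀ (ℓ : ℕ) [Fact ℓ.Prime], ∀ v ∉ S, (ℓ : 𝓞 K) ∉ v.asIdeal → ∀ σ : GK K,
      IsFrobenius v σ → (R ℓ σ).charpoly = (Q v).map (Rat.castHom ℚ_[ℓ]))
    (ℓ : ℕ) [hℓ : Fact ℓ.Prime] (hss : ∀ i, FiniteIndexSemisimple (matRep (r i ℓ))) (b : ℕ) :
    ProductsWith (piRepr fun i => matRep (r i ℓ)) (χ ℓ) (formRep b (matRep (R ℓ))) := by
  classical
  have hfull : ∀ X, (∀ i, SpLie (J i 2) (X i)) →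
      Pool.Agent.N171.TG.WTan (fun i => r i 2) (kpHom b (R 2)) X := fun X hX => by
    obtain ⟨σ, h1, h2⟩ := Pool.Agent.N171.TG.wtan_of_large (fun i => r i 2) (fun i => J i 2)
      (fun _ => χ 2)
      (fun i => Pool.Agent.R932.OP.even_of_alt (hJ i 2) (hdet i 2)) h6 (fun i => hJ i 2) hint hJint
      (fun i g => hsim i 2 g) e heint he hbig (R 2) htint ht X hX
    exact ⟨σ, h1, kpHom_tendsto b (R 2) σ h2⟩
  obtain ⟨h1, h2, h3, h4, h5⟩ := t_BLOCK ι N (d ^ b) (GK K) (fun i => r i 2) (kpHom b (R 2))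
    (fun i => J i 2) (fun i => hJ i 2) (fun i => hdet i 2) hfull
  obtain ⟨i₀⟩ := ‹Nonempty ι›
  have hn : 0 < ∑ i, N i :=
    Finset.sum_pos (fun i _ => lt_of_lt_of_le (by norm_num) (h6 i)) ⟨i₀, Finset.mem_univ _⟩
  obtain ⟨h6', h7, h8⟩ := t_PI t_SUM ι N ℚ_[ℓ] (GK K) (fun i => r i ℓ) (fun i => J i ℓ) (χ ℓ)
    (fun i => hJ i ℓ) (fun i => hdet i ℓ) (fun i g => hsim i ℓ g)
  -- the polynomials of the forms
  have hQ' : ∀ v : HeightOneSpectrum (𝓞 K), ∃ Q' : ℚ[X],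
      (v ∉ S ∪ {v | ((2 : ℕ) : 𝓞 K) ∈ v.asIdeal} → ∀ σ : GK K, IsFrobenius v σ →
        IsPower b d (Q v) Q') ∧ (IsPower b d (Q v) Q' ∨ Q' = 1) := by
    intro v
    by_cases hv : v ∈ S ∪ {v | ((2 : ℕ) : 𝓞 K) ∈ v.asIdeal}
    · exact ⟨1, fun h => absurd hv h, Or.inr rfl⟩
    · have hv1 : v ∉ S := fun h => hv (Or.inl h)
      have hv2 : ((2 : ℕ) : 𝓞 K) ∉ v.asIdeal := fun h => hv (Or.inr h)
      by_cases hσ : ∃ σ : GK K, IsFrobenius v σ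
      · obtain ⟨σ, hσ⟩ := hσ
        have h9 := hRQ 2 v hv1 hv2 σ hσ
        have hinjZ : Function.Injective (Rat.castHom ℚ_[2]) := Rat.cast_injective
        have hQm : (Q v).Monic := monic_of_injective hinjZ (by rw [← h9]; exact charpoly_monic _)
        have hdQ : (Q v).natDegree = d := by
          rw [← natDegree_map_eq_of_injective hinjZ (Q v), ← h9, charpoly_natDegree_eq_dim,
            Fintype.card_fin]
        obtain ⟨Q', hQ'⟩ := t_KP1 b d (Q v) hQm hdQ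
        exact ⟨Q', fun _ _ _ => hQ', Or.inl hQ'⟩
      · exact ⟨1, fun _ σ h => absurd ⟨σ, h⟩ hσ, Or.inr rfl⟩
  choose Q' hQ' hQ'' using hQ'
  refine main20 t_PLACE2 t_TATE2 (m := m * b + m) (w := w * b) hn (h5 fun i => hr i 2)
    (kpHom_continuous b (R 2) hR) h2
    (h3 (χ 2) fun i g => hsim i 2 g) h1 (S := S ∪ {v | ((2 : ℕ) : 𝓞 K) ∈ v.asIdeal})
    (hS.union (Pool.Agent.N197.AP.finite_above 2 Nat.prime_two)) (P := fun v => ∏ i, P i v) (Q := Q')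
    (fun v hv σ hσ => ?_) (fun v hv => ⟨fun z hz => ?_, fun z hz => ?_⟩)
    (r := piRepr fun i => matRep (r i ℓ)) ⟨h7, h8 hss⟩
    (T := (S ∪ {v | ((2 : ℕ) : 𝓞 K) ∈ v.asIdeal}) ∪ {v | (ℓ : 𝓞 K) ∈ v.asIdeal})
    ((hS.union (Pool.Agent.N197.AP.finite_above 2 Nat.prime_two)).union
      (Pool.Agent.N197.AP.finite_above ℓ hℓ.out))
    fun v hv σ hσ => ?_
  · have hv1 : v ∉ S := fun h => hv (Or.inl h)
    have hv2 : ((2 : ℕ) : 𝓞 K) ∉ v.asIdeal := fun h => hv (Or.inr h)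
    refine ⟨?_, ?_, hχ 2 v hv1 hv2 σ hσ⟩
    · rw [h4, Polynomial.map_prod]
      exact Finset.prod_congr rfl fun i _ => hfrob i 2 v hv1 hv2 σ hσ
    · rw [kpHom_charpoly]
      exact (hQ' v hv σ hσ).charpoly _ _ (hRQ 2 v hv1 hv2 σ hσ)
  · rw [map_prod, Finset.prod_eq_zero_iff] at hz
    obtain ⟨i, -, hi⟩ := hz
    obtain ⟨h9, h10⟩ := hP v (fun h => hv (Or.inl h)) i z hi
    refine ⟨h9, ?_⟩
    rw [pow_add, mul_assoc]
    exact ((isIntegral_natCast _).pow _).mul h10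
  · have hpow : IsPower b d (Q v) (Q' v) := by
      rcases hQ'' v with h | h
      · exact h
      · rw [h, map_one] at hz
        exact absurd hz one_ne_zero
    obtain ⟨β, hβ, rfl⟩ := hpow.roots z hz
    have hv1 : v ∉ S := fun h => hv (Or.inl h)
    refine ⟨?_, ?_⟩
    · rw [norm_prod, ← Finset.prod_pow, Finset.prod_congr rfl fun j _ => (hQ v hv1 _ (hβ j)).1,
        Finset.prod_const, Finset.card_univ, Fintype.card_fin, _root_.zpow_mul, zpow_natCast]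
    · have h9 : ((Ideal.absNorm v.asIdeal : ℂ)) ^ (m * b + m) * ∏ j, β j =
          (Ideal.absNorm v.asIdeal : ℂ) ^ m * ∏ j, ((Ideal.absNorm v.asIdeal : ℂ) ^ m * β j) := by
        rw [Finset.prod_mul_distrib, Finset.prod_const, Finset.card_univ, Fintype.card_fin, pow_add,
          pow_mul]
        ring
      rw [h9]
      refine ((isIntegral_natCast _).pow _).mul (IsIntegral.prod _ fun j _ => ?_)
      exact (hQ v hv1 _ (hβ j)).2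
  · have hv0 : v ∉ S ∪ {v | ((2 : ℕ) : 𝓞 K) ∈ v.asIdeal} := fun h => hv (Or.inl h)
    have hv1 : v ∉ S := fun h => hv0 (Or.inl h)
    have hv2 : (ℓ : 𝓞 K) ∉ v.asIdeal := fun h => hv (Or.inr h)
    refine ⟨hχ ℓ v hv1 hv2 σ hσ, ?_, ?_⟩
    · rw [h6', Polynomial.map_prod]
      exact Finset.prod_congr rfl fun i _ => hfrob i ℓ v hv1 hv2 σ hσ
    · have h9 : formRep b (matRep (R ℓ)) σ⁻¹ = compAll b (matRep (R ℓ) σ) := by
        show compAll b (matRep (R ℓ) σ⁻¹⁻¹) = _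
        rw [inv_inv]
      rw [h9]
      refine t_KP2 ℚ_[ℓ] (Fin d → ℚ_[ℓ]) b d (Q v) (Q' v) (by simp) (hQ' v hv0 σ hσ) _ ?_
      rw [← hRQ ℓ v hv1 hv2 σ hσ]
      exact Matrix.charpoly_toLin' (R ℓ σ)

end Pool.Agent.N197.QF
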