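import Pool.Agent.N197.AP.Stm3
import Pool.Agent.N197.QF.Stm3
import Pool.Agent.N171.TG.So3

/-!
# Project QF (helper197): statements of the tasks, fourth part
-/

set_option autoImplicit false

open Module Matrix Filter Topology Polynomial
open Pool.Agent.N171.TG.So (T2)
open Pool.Agent.N166.CZ (ProductsWith)
open Pool.Agent.H204R3.GP (FiniteIndexSemisimple)
open Pool.Agent.N197.AP (piRepr matRep)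

namespace Pool.Agent.N197.QF

/-- the map `Z ↦ a • (A * Z * B)` -/
def adm {k : Type} [Field k] {n : ℕ} (A B : Matrix (Fin n) (Fin n) k) (a : k) :
    Module.End k (Matrix (Fin n) (Fin n) k) where
  toFun Z := a • (A * Z * B)
  map_add' Z Z' := by rw [Matrix.mul_add, Matrix.add_mul, smul_add]
  map_smul' c Z := by rw [RingHom.id_apply, Matrix.mul_smul, Matrix.smul_mul, smul_comm]

/-- task G1 -/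
def S_G1 : Prop := ∀ (ℓ : ℕ) [Fact ℓ.Prime] (ι : Type) [Fintype ι] [DecidableEq ι] (N : ι → ℕ)
  (d : ℕ) (G : Type) [Group G] (ρ : ∀ i, G →* Matrix (Fin (N i)) (Fin (N i)) ℚ_[ℓ])
  (τ : G →* Matrix (Fin d) (Fin d) ℚ_[ℓ]) (J : ∀ i, Matrix (Fin (N i)) (Fin (N i)) ℚ_[ℓ]),
  (∀ i, (J i)ᵀ = -J i) → (∀ i, (J i).det ≠ 0) →
  (∀ i g, ∃ c : ℚ_[ℓ], (ρ i g)ᵀ * J i * ρ i g = c • J i) →
  ∀ i : ι, (∀ A, (A)ᵀ * J i + J i * A = 0 → ∃ Y, T2 ρ τ (Pi.single i A) Y) →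
  (∀ A, (A)ᵀ * J i + J i * A = 0 → T2 ρ τ (Pi.single i A) 0) ∨
  ∀ (g : G) (a : ℚ_[ℓ]) (F : ℚ_[ℓ][X]), aeval (adm (τ g⁻¹) (τ g) a) F = 0 →
    ∀ Z, (Z)ᵀ * J i + J i * Z = 0 → aeval (adm (ρ i g⁻¹) (ρ i g) a) F Z = 0

/-- task G2 -/
def S_G2 : Prop := ∀ (k : Type) [Field k] [CharZero k] (d : ℕ) (A A' J : Matrix (Fin d) (Fin d) k)
  (c : k) (Q Q' : ℚ[X]), A' * A = 1 → Aᵀ * J * A = c • J → J.det ≠ 0 → IsPower 2 d Q Q' →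
  A.charpoly = Q.map (Rat.castHom k) → aeval (adm A' A c) (Q'.map (Rat.castHom k)) = 0

/-- task G3 -/
def S_G3 : Prop := ∀ (k : Type) [Field k] [CharZero k] (G : Type) [Group G] (ι : Type) [Fintype ι]
  [DecidableEq ι] (N : ι → ℕ) (r : ∀ i, G →* Matrix (Fin (N i)) (Fin (N i)) k)
  (J : ∀ i, Matrix (Fin (N i)) (Fin (N i)) k) (χ : G →* k) (i : ι) (w : ℤ), 0 < N i →
  (J i)ᵀ = -J i → (J i).det ≠ 0 → (∀ g, (r i g)ᵀ * J i * r i g = χ g • J i) →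
  (∀ T : Matrix (Fin (N i)) (Fin (N i)) k,
    (∃ Δ : Subgroup G, Δ.FiniteIndex ∧ ∀ g ∈ Δ, T * r i g = r i g * T) → ∃ c : k, T = c • 1) →
  ∀ (M : Type) [AddCommGroup M] [Module k M] (s : Representation k G M)
    (emb : M →ₗ[k] Matrix (Fin (N i)) (Fin (N i)) k), Function.Injective emb →
    (∀ Z, (∃ m, emb m = Z) ↔ Zᵀ * J i + J i * Z = 0) →
    (∀ g m, emb (s g m) = χ g ^ (-w) • (r i g * emb m * r i g⁻¹)) →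
    ¬ ProductsWith (piRepr fun i => matRep (r i)) χ s

/-- task G5 -/
def S_G5 : Prop := ∀ (ℓ : ℕ) [Fact ℓ.Prime] (n : ℕ) (J : Matrix (Fin n) (Fin n) ℚ_[ℓ]), Jᵀ = -J →
  J.det ≠ 0 → ∀ (G : Type) [Group G] (r : G →* Matrix (Fin n) (Fin n) ℚ_[ℓ]),
  (∀ X : Matrix (Fin n) (Fin n) ℚ_[ℓ], Xᵀ * J + J * X = 0 → ∃ σ : ℕ → G,
    Tendsto (fun m : ℕ => ((ℓ : ℚ_[ℓ]) ^ m)⁻¹ • (r (σ m) - 1)) atTop (𝓝 X)) →
  FiniteIndexSemisimple (matRep r)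

/-- task G6 -/
def S_G6 : Prop := ∀ (ℓ : ℕ) [Fact ℓ.Prime] (n : ℕ) (J : Matrix (Fin n) (Fin n) ℚ_[ℓ]), Jᵀ = -J →
  J.det ≠ 0 → ∀ (G : Type) [Group G] (r : G →* Matrix (Fin n) (Fin n) ℚ_[ℓ]),
  (∀ X : Matrix (Fin n) (Fin n) ℚ_[ℓ], Xᵀ * J + J * X = 0 → ∃ σ : ℕ → G,
    Tendsto (fun m : ℕ => ((ℓ : ℚ_[ℓ]) ^ m)⁻¹ • (r (σ m) - 1)) atTop (𝓝 X)) →
  ∀ (T : Matrix (Fin n) (Fin n) ℚ_[ℓ]) (Δ : Subgroup G), Δ.FiniteIndex →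
    (∀ g ∈ Δ, T * r g = r g * T) → ∃ c : ℚ_[ℓ], T = c • 1

/-- task G8 -/
def S_G8 : Prop := ∀ (ℓ : ℕ) [Fact ℓ.Prime] (n : ℕ) (J : Matrix (Fin n) (Fin n) ℚ_[ℓ]), 0 < n →
  J.det ≠ 0 → ∀ (G : Type) [Group G] (r ρ : G →* Matrix (Fin n) (Fin n) ℚ_[ℓ]) (χ : G →* ℚ_[ℓ]),
  (∀ g, (r g)ᵀ * J * r g = χ g • J) → (∀ g, ρ g = χ g⁻¹ • r g) →
  ∀ (σ : ℕ → G) (X : Matrix (Fin n) (Fin n) ℚ_[ℓ]), Xᵀ * J + J * X = 0 →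
  (Tendsto (fun m : ℕ => ((ℓ : ℚ_[ℓ]) ^ m)⁻¹ • (r (σ m) - 1)) atTop (𝓝 X) ↔
    Tendsto (fun m : ℕ => ((ℓ : ℚ_[ℓ]) ^ m)⁻¹ • (ρ (σ m) - 1)) atTop (𝓝 X))

/-- task G9 -/
def S_G9 : Prop := ∀ (k : Type) [Field k] (n : ℕ) (J A A' : Matrix (Fin n) (Fin n) k) (c : k),
  A' * A = 1 → Aᵀ * J * A = c • J → J.det ≠ 0 → (c • A').charpoly = A.charpoly

end Pool.Agent.N197.QF
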